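import Pool.Agent.TBV.St

/-!
# TBV, module BND: elementary bounds; a positive function on the line is not strictly concave
-/

set_option autoImplicit false

open Finset Filter Topology
open scoped BigOperators ENNReal

namespace Pool.Agent.TBV

theorem thm_BND : St_BND := by
  intro q v hS hU t
  have hpos : ∀ i j, i ≠ j → 0 < ‖q t i - q t j‖ := fun i j hij =>
    norm_pos_iff.2 (sub_ne_zero.2 (hS.free t i j hij))
  have h01 := hpos 0 1 (by decide)
  have h02 := hpos 0 2 (by decide)
  have h12 := hpos 1 2 (by decide)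
  have hUt := abs_le.1 (hU t)
  have hUe : U (q t) = 1 / ‖q t 0 - q t 1‖ + 1 / ‖q t 0 - q t 2‖ + 1 / ‖q t 1 - q t 2‖ := rfl
  have p01 : 0 < 1 / ‖q t 0 - q t 1‖ := by positivity
  have p02 : 0 < 1 / ‖q t 0 - q t 2‖ := by positivity
  have p12 : 0 < 1 / ‖q t 1 - q t 2‖ := by positivity
  have hE := hS.energy t
  have key : ∀ r : ℝ, 0 < r → 1 / r ≤ 5 / 2 → 2 / 5 ≤ r := by
    intro r hr h
    rw [div_le_iff₀ hr] at h
    linarith
  have b01 := key _ h01 (by linarith)
  have b02 := key _ h02 (by linarith)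
  have b12 := key _ h12 (by linarith)
  have hK : ‖v t 0‖ ^ 2 + ‖v t 1‖ ^ 2 + ‖v t 2‖ ^ 2 ≤ 3 := by linarith
  have n0 := sq_nonneg ‖v t 0‖
  have n1 := sq_nonneg ‖v t 1‖
  have n2 := sq_nonneg ‖v t 2‖
  have hv : ∀ x : ℝ, x ^ 2 ≤ 3 → x ≤ 2 := by
    intro x hx
    nlinarith
  refine ⟨?_, ?_, hK, ?_⟩
  · intro i j hij
    fin_cases i <;> fin_cases j
    · exact absurd rfl hij
    · exact b01
    · exact b02
    · exact (show 2 / 5 ≤ ‖q t 1 - q t 0‖ by rw [norm_sub_rev]; exact b01)
    · exact absurd rfl hij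
    · exact b12
    · exact (show 2 / 5 ≤ ‖q t 2 - q t 0‖ by rw [norm_sub_rev]; exact b02)
    · exact (show 2 / 5 ≤ ‖q t 2 - q t 1‖ by rw [norm_sub_rev]; exact b12)
    · exact absurd rfl hij
  · intro i
    have hv0 : ‖v t 0‖ ≤ 2 := hv _ (by linarith)
    have hv1 : ‖v t 1‖ ≤ 2 := hv _ (by linarith)
    have hv2 : ‖v t 2‖ ≤ 2 := hv _ (by linarith)
    fin_cases i
    · exact hv0
    · exact hv1
    · exact hv2
  · by_contra hcon
    push Not at hcon
    have c01 := hcon 0 1 (by decide)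
    have c02 := hcon 0 2 (by decide)
    have c12 := hcon 1 2 (by decide)
    have key2 : ∀ r : ℝ, 2 < r → 1 / r < 1 / 2 := by
      intro r hr
      exact one_div_lt_one_div_of_lt (by norm_num) hr
    have := key2 _ c01
    have := key2 _ c02
    have := key2 _ c12
    linarith

theorem thm_CONC : St_CONC := by
  intro ρ g k hρ hg hpos hk
  have hanti : StrictAnti g := by
    apply strictAnti_of_deriv_neg
    intro x
    rw [(hg x).deriv]
    exact hk x
  have hcont : Continuous ρ := continuous_iff_continuousAt.2 fun x => (hρ x).continuousAt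
  by_cases h : ∃ t0, g t0 < 0
  · obtain ⟨t0, h0⟩ := h
    have hd : 0 < ρ t0 / (-g t0) := div_pos (hpos t0) (by linarith)
    obtain ⟨c, hc, hc2⟩ := exists_hasDerivAt_eq_slope ρ g
      (show t0 < t0 + ρ t0 / (-g t0) by linarith) hcont.continuousOn (fun x _ => hρ x)
    have hlt : g c < g t0 := hanti hc.1
    rw [hc2, add_sub_cancel_left, div_lt_iff₀ hd] at hlt
    have e : g t0 * (ρ t0 / (-g t0)) = -ρ t0 := by
      have h0' : g t0 ≠ 0 := h0.ne
      rw [div_neg, mul_neg, mul_div_assoc', mul_comm, mul_div_assoc, div_self h0', mul_one]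
    rw [e] at hlt
    have := hpos (t0 + ρ t0 / (-g t0))
    linarith
  · push Not at h
    have h1 : 0 < g (-1) := lt_of_le_of_lt (h 0) (hanti (by norm_num))
    have hd : 0 < ρ (-1) / g (-1) := div_pos (hpos _) h1
    obtain ⟨c, hc, hc2⟩ := exists_hasDerivAt_eq_slope ρ g
      (show -1 - ρ (-1) / g (-1) < -1 by linarith) hcont.continuousOn (fun x _ => hρ x)
    have hlt : g (-1) < g c := hanti hc.2
    rw [hc2, sub_sub_cancel, lt_div_iff₀ hd] at hlt
    have e : g (-1) * (ρ (-1) / g (-1)) = ρ (-1) := by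
      field_simp
    rw [e] at hlt
    have := hpos (-1 - ρ (-1) / g (-1))
    linarith

end Pool.Agent.TBV
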