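import Pool.Agent.TBV.St

/-!
# TBV: modules CLS and ESC

If the three distances never are all at most 100, then one fixed pair of bodies stays at distance
at most 2 and the third body stays at distance at least 60 from the centre of mass.
-/

set_option autoImplicit false

open Finset Filter Topology
open scoped BigOperators ENNReal

namespace Pool.Agent.TBV

private theorem CLS_cont {E : ℝ} {q v : ℝ → Fin 3 → ℂ} (hs : Sol E q v) (i j : Fin 3) :
    Continuous (fun t => ‖q t i - q t j‖) := by
  have h : ∀ k : Fin 3, Continuous (fun t => q t k) := fun k =>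
    continuous_iff_continuousAt.2 (fun t => (hs.vel t k).continuousAt)
  exact ((h i).sub (h j)).norm

/-- the set of the times where a distance is at most `2` is everything as soon as it is not
empty -/
private theorem CLS_all (f g h : ℝ → ℝ) (hf : Continuous f)
    (hsm : ∀ t, f t ≤ 2 ∨ g t ≤ 2 ∨ h t ≤ 2)
    (hbig : ∀ t, 100 < f t ∨ 100 < g t ∨ 100 < h t)
    (h1 : ∀ t, g t ≤ f t + h t) (h2 : ∀ t, h t ≤ f t + g t) (t0 : ℝ) (h0 : f t0 ≤ 2) :
    ∀ t, f t ≤ 2 := by
  have hE : {t | f t ≤ 2} = {t | f t < 50} := by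
    ext t
    show f t ≤ 2 ↔ f t < 50
    constructor
    · intro ht
      linarith
    · intro ht
      rcases hsm t with hm | hm | hm
      · exact hm
      · exfalso
        rcases hbig t with hb | hb | hb
        · linarith
        · linarith
        · have := h2 t
          linarith
      · exfalso
        rcases hbig t with hb | hb | hb
        · linarith
        · have := h1 t
          linarith
        · linarith
  have hcl : IsClosed {t | f t ≤ 2} := isClosed_le hf continuous_const
  have hop : IsOpen {t | f t ≤ 2} := by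
    rw [hE]
    exact isOpen_lt hf continuous_const
  have hcc : IsClopen {t | f t ≤ 2} := ⟨hcl, hop⟩
  have huniv : {t | f t ≤ 2} = Set.univ := hcc.eq_univ ⟨t0, h0⟩
  intro t
  have : t ∈ {t | f t ≤ 2} := by
    rw [huniv]
    exact Set.mem_univ t
  exact this

/-- the third body is far from the centre of mass -/
private theorem CLS_far (x y z : ℂ) (hc : x + y + z = 0) (hxy : ‖x - y‖ ≤ 2)
    (hbig : 100 < ‖x - y‖ ∨ 100 < ‖x - z‖ ∨ 100 < ‖y - z‖) : 60 ≤ ‖z‖ := by
  have key : ∀ u w : ℂ, u + w + z = 0 → ‖u - w‖ ≤ 2 → 100 < ‖u - z‖ → 60 ≤ ‖z‖ := by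
    intro u w huw h2 h100
    have e : u - z = ((1 / 2 : ℝ) : ℂ) * (u - w) - ((3 / 2 : ℝ) : ℂ) * z := by
      have hw : w = -u - z := by linear_combination huw
      rw [hw]
      push_cast
      ring
    have h3 : ‖u - z‖ ≤ 1 / 2 * ‖u - w‖ + 3 / 2 * ‖z‖ := by
      rw [e]
      refine (norm_sub_le _ _).trans ?_
      rw [norm_mul, norm_mul, Complex.norm_real, Complex.norm_real,
        Real.norm_of_nonneg (by norm_num), Real.norm_of_nonneg (by norm_num)]
    linarith
  rcases hbig with hb | hb | hb
  · linarith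
  · exact key x y hc hxy hb
  · refine key y x ?_ ?_ hb
    · rw [← hc]
      ring
    · rw [norm_sub_rev]
      exact hxy

/-- the unordered version of an existence statement over pairs -/
private theorem CLS_pairs (p : Fin 3 → ℂ) (P : ℝ → Prop) (h0 : ¬ P 0)
    (h : ∃ i j, P ‖p i - p j‖) :
    P ‖p 0 - p 1‖ ∨ P ‖p 0 - p 2‖ ∨ P ‖p 1 - p 2‖ := by
  obtain ⟨i, j, hij⟩ := h
  have hz : ∀ k : Fin 3, ‖p k - p k‖ = 0 := fun k => by rw [sub_self, norm_zero]
  fin_cases i <;> fin_cases j
  · exact absurd (by simpa using hij) h0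
  · exact Or.inl hij
  · exact Or.inr (Or.inl hij)
  · refine Or.inl ?_
    rw [norm_sub_rev]
    exact hij
  · exact absurd (by simpa using hij) h0
  · exact Or.inr (Or.inr hij)
  · refine Or.inr (Or.inl ?_)
    rw [norm_sub_rev]
    exact hij
  · refine Or.inr (Or.inr ?_)
    rw [norm_sub_rev]
    exact hij
  · exact absurd (by simpa using hij) h0

theorem thm_CLS (hBND : St_BND) : St_CLS := by
  intro q v hs hU hfar
  -- the three distances
  have hsm : ∀ t, ‖q t 0 - q t 1‖ ≤ 2 ∨ ‖q t 0 - q t 2‖ ≤ 2 ∨ ‖q t 1 - q t 2‖ ≤ 2 := by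
    intro t
    obtain ⟨-, -, -, i, j, hne, hij⟩ := hBND q v hs hU t
    fin_cases i <;> fin_cases j
    · exact absurd rfl hne
    · exact Or.inl hij
    · exact Or.inr (Or.inl hij)
    · refine Or.inl ?_
      rw [norm_sub_rev]
      exact hij
    · exact absurd rfl hne
    · exact Or.inr (Or.inr hij)
    · refine Or.inr (Or.inl ?_)
      rw [norm_sub_rev]
      exact hij
    · refine Or.inr (Or.inr ?_)
      rw [norm_sub_rev]
      exact hij
    · exact absurd rfl hne
  have hbig : ∀ t, 100 < ‖q t 0 - q t 1‖ ∨ 100 < ‖q t 0 - q t 2‖ ∨ 100 < ‖q t 1 - q t 2‖ :=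
    fun t => CLS_pairs (q t) (fun r => 100 < r) (by norm_num) (hfar t)
  -- triangle inequalities
  have tri : ∀ a b c : ℂ, ‖a - c‖ ≤ ‖a - b‖ + ‖b - c‖ := fun a b c => norm_sub_le_norm_sub_add_norm_sub a b c
  rcases hsm 0 with h0 | h0 | h0
  · have hall := CLS_all (fun t => ‖q t 0 - q t 1‖) (fun t => ‖q t 0 - q t 2‖)
      (fun t => ‖q t 1 - q t 2‖) (CLS_cont hs 0 1) hsm hbig
      (fun t => tri (q t 0) (q t 1) (q t 2))
      (fun t => by
        have := tri (q t 1) (q t 0) (q t 2)
        rw [norm_sub_rev (q t 1) (q t 0)] at this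
        exact this) 0 h0
    refine ⟨1, fun t => ⟨hall t, ?_⟩⟩
    exact CLS_far (q t 0) (q t 1) (q t 2) (hs.centre t) (hall t) (hbig t)
  · have hall := CLS_all (fun t => ‖q t 0 - q t 2‖) (fun t => ‖q t 0 - q t 1‖)
      (fun t => ‖q t 1 - q t 2‖) (CLS_cont hs 0 2)
      (fun t => by
        rcases hsm t with h | h | h
        · exact Or.inr (Or.inl h)
        · exact Or.inl h
        · exact Or.inr (Or.inr h))
      (fun t => by
        rcases hbig t with h | h | h
        · exact Or.inr (Or.inl h)
        · exact Or.inl h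
        · exact Or.inr (Or.inr h))
      (fun t => by
        have := tri (q t 0) (q t 2) (q t 1)
        rw [norm_sub_rev (q t 2) (q t 1)] at this
        exact this)
      (fun t => by
        have := tri (q t 1) (q t 0) (q t 2)
        rw [norm_sub_rev (q t 1) (q t 0)] at this
        linarith) 0 h0
    refine ⟨Equiv.swap 1 2, fun t => ?_⟩
    have e0 : (Equiv.swap (1 : Fin 3) 2) 0 = 0 := by decide
    have e1 : (Equiv.swap (1 : Fin 3) 2) 1 = 2 := by decide
    have e2 : (Equiv.swap (1 : Fin 3) 2) 2 = 1 := by decide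
    rw [e0, e1, e2]
    refine ⟨hall t, ?_⟩
    refine CLS_far (q t 0) (q t 2) (q t 1) ?_ (hall t) ?_
    · rw [← hs.centre t]
      ring
    · rcases hbig t with h | h | h
      · exact Or.inr (Or.inl h)
      · exact Or.inl h
      · refine Or.inr (Or.inr ?_)
        rw [norm_sub_rev]
        exact h
  · have hall := CLS_all (fun t => ‖q t 1 - q t 2‖) (fun t => ‖q t 0 - q t 1‖)
      (fun t => ‖q t 0 - q t 2‖) (CLS_cont hs 1 2)
      (fun t => by
        rcases hsm t with h | h | h
        · exact Or.inr (Or.inl h)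
        · exact Or.inr (Or.inr h)
        · exact Or.inl h)
      (fun t => by
        rcases hbig t with h | h | h
        · exact Or.inr (Or.inl h)
        · exact Or.inr (Or.inr h)
        · exact Or.inl h)
      (fun t => by
        have := tri (q t 0) (q t 2) (q t 1)
        rw [norm_sub_rev (q t 2) (q t 1)] at this
        linarith)
      (fun t => by
        have := tri (q t 0) (q t 1) (q t 2)
        linarith) 0 h0
    refine ⟨Equiv.swap 0 2, fun t => ?_⟩
    have e0 : (Equiv.swap (0 : Fin 3) 2) 0 = 2 := by decide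
    have e1 : (Equiv.swap (0 : Fin 3) 2) 1 = 1 := by decide
    have e2 : (Equiv.swap (0 : Fin 3) 2) 2 = 0 := by decide
    rw [e0, e1, e2]
    have h21 : ‖q t 2 - q t 1‖ ≤ 2 := by
      rw [norm_sub_rev]
      exact hall t
    refine ⟨h21, ?_⟩
    refine CLS_far (q t 2) (q t 1) (q t 0) ?_ h21 ?_
    · rw [← hs.centre t]
      ring
    · rcases hbig t with h | h | h
      · refine Or.inr (Or.inr ?_)
        rw [norm_sub_rev]
        exact h
      · refine Or.inr (Or.inl ?_)
        rw [norm_sub_rev]
        exact h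
      · refine Or.inl ?_
        rw [norm_sub_rev]
        exact h

theorem thm_ESC (hPERM : St_PERM) (hFAR : St_FAR) (hCLS : St_CLS) : St_ESC := by
  intro q v hs hU
  by_contra hcon
  have hfar : ∀ t, ∃ i j, 100 < ‖q t i - q t j‖ := by
    intro t
    by_contra hno
    refine hcon ⟨t, fun i j => ?_⟩
    by_contra hlt
    exact hno ⟨i, j, not_le.1 hlt⟩
  obtain ⟨σ, hσ⟩ := hCLS q v hs hU hfar
  obtain ⟨hs', hU'⟩ := hPERM 1 q v σ hs
  refine hFAR (fun t i => q t (σ i)) (fun t i => v t (σ i)) hs' ?_ (fun t => (hσ t).1)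
    (fun t => (hσ t).2)
  intro t
  have e := hU' t
  have h := hU t
  show |U (fun i => q t (σ i)) - 2| ≤ 1 / 2
  rw [e]
  exact h

end Pool.Agent.TBV
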