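import Pool.Agent.TBV.St

/-!
# TBV [COL]: no collinear configuration with all velocities of the edges orthogonal to the edges
-/

set_option autoImplicit false

namespace Pool.Agent.TBV

/-- the real algebra -/
theorem COL_real (a b c α β : ℝ) (ha : 0 < a) (hb : 0 < b) (hc : c = a + b)
    (hU : 1 / a + 1 / b + 1 / c = 2) (hJ : a * α + b * β + c * (α + β) = 0)
    (hK : α ^ 2 + β ^ 2 + (α + β) ^ 2 = 6)
    (hU2 : (α ^ 2 + (a ^ 2 / a ^ 3 + a * b / b ^ 3 + -(a * c) / c ^ 3 - 3 * (a ^ 2 / a ^ 3))) / a ^ 3 +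
      (β ^ 2 + (a * b / a ^ 3 + b ^ 2 / b ^ 3 + -(b * c) / c ^ 3 - 3 * (b ^ 2 / b ^ 3))) / b ^ 3 +
      ((α + β) ^ 2 + (-(a * c) / a ^ 3 + -(b * c) / b ^ 3 + c ^ 2 / c ^ 3 -
        3 * (c ^ 2 / c ^ 3))) / c ^ 3 = 0) : False := by
  have hc0 : 0 < c := by rw [hc]; positivity
  have hk : ∃ k : ℝ, α = -(k * (a + 2 * b)) ∧ β = k * (2 * a + b) := by
    refine ⟨β / (2 * a + b), ?_, ?_⟩
    · have h2 : α * (2 * a + b) = -(β * (a + 2 * b)) := by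
        rw [hc] at hJ
        linear_combination hJ
      have h3 : (2 * a + b) ≠ 0 := by positivity
      field_simp
      linear_combination h2
    · have h3 : (2 * a + b) ≠ 0 := by positivity
      field_simp
  obtain ⟨k, hα, hβ⟩ := hk
  have hs : k ^ 2 * (a ^ 2 + a * b + b ^ 2) = 1 := by
    rw [hα, hβ] at hK
    linear_combination hK / 6
  have hU' : b * c + a * c + a * b = 2 * a * b * c := by
    have h1 : (1 / a + 1 / b + 1 / c) * (a * b * c) = b * c + a * c + a * b := by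
      field_simp
    rw [hU] at h1
    linear_combination -h1
  have hp : k ^ 2 * (a * b * c * ((a + 2 * b) ^ 2 * b ^ 3 * c ^ 3 + (2 * a + b) ^ 2 * a ^ 3 * c ^ 3 +
      (a - b) ^ 2 * a ^ 3 * b ^ 3)) + 2 * (a ^ 2 * b ^ 2 * c ^ 4 - a ^ 2 * b ^ 4 * c ^ 2 -
      a ^ 4 * b ^ 2 * c ^ 2 - b ^ 4 * c ^ 4 - a ^ 4 * c ^ 4 - a ^ 4 * b ^ 4) = 0 := by
    have h1 : ((α ^ 2 + (a ^ 2 / a ^ 3 + a * b / b ^ 3 + -(a * c) / c ^ 3 -
        3 * (a ^ 2 / a ^ 3))) / a ^ 3 +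
      (β ^ 2 + (a * b / a ^ 3 + b ^ 2 / b ^ 3 + -(b * c) / c ^ 3 - 3 * (b ^ 2 / b ^ 3))) / b ^ 3 +
      ((α + β) ^ 2 + (-(a * c) / a ^ 3 + -(b * c) / b ^ 3 + c ^ 2 / c ^ 3 -
        3 * (c ^ 2 / c ^ 3))) / c ^ 3) * (a ^ 4 * b ^ 4 * c ^ 4) =
      α ^ 2 * a * b ^ 4 * c ^ 4 + β ^ 2 * a ^ 4 * b * c ^ 4 + (α + β) ^ 2 * a ^ 4 * b ^ 4 * c +
      2 * (a ^ 2 * b ^ 2 * c ^ 4 - a ^ 2 * b ^ 4 * c ^ 2 -
      a ^ 4 * b ^ 2 * c ^ 2 - b ^ 4 * c ^ 4 - a ^ 4 * c ^ 4 - a ^ 4 * b ^ 4) := by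
      field_simp
      ring
    rw [hU2, zero_mul, hα, hβ] at h1
    linear_combination -h1
  have hq : (b * c + a * c + a * b) * ((a + 2 * b) ^ 2 * b ^ 3 * c ^ 3 +
      (2 * a + b) ^ 2 * a ^ 3 * c ^ 3 + (a - b) ^ 2 * a ^ 3 * b ^ 3) +
      4 * (a ^ 2 + a * b + b ^ 2) * (a ^ 2 * b ^ 2 * c ^ 4 - a ^ 2 * b ^ 4 * c ^ 2 -
      a ^ 4 * b ^ 2 * c ^ 2 - b ^ 4 * c ^ 4 - a ^ 4 * c ^ 4 - a ^ 4 * b ^ 4) = 0 := by
    linear_combination (2 * (a ^ 2 + a * b + b ^ 2)) * hp -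
      (2 * a * b * c * ((a + 2 * b) ^ 2 * b ^ 3 * c ^ 3 +
      (2 * a + b) ^ 2 * a ^ 3 * c ^ 3 + (a - b) ^ 2 * a ^ 3 * b ^ 3)) * hs +
      ((a + 2 * b) ^ 2 * b ^ 3 * c ^ 3 +
      (2 * a + b) ^ 2 * a ^ 3 * c ^ 3 + (a - b) ^ 2 * a ^ 3 * b ^ 3) * hU'
  have hr : 8 * a * b ^ 9 + 33 * a ^ 2 * b ^ 8 + 64 * a ^ 3 * b ^ 7 + 72 * a ^ 4 * b ^ 6 +
      66 * a ^ 5 * b ^ 5 + 72 * a ^ 6 * b ^ 4 + 64 * a ^ 7 * b ^ 3 + 33 * a ^ 8 * b ^ 2 +
      8 * a ^ 9 * b = 0 := by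
    rw [← hq, hc]
    ring
  have hpos : 0 < 8 * a * b ^ 9 + 33 * a ^ 2 * b ^ 8 + 64 * a ^ 3 * b ^ 7 + 72 * a ^ 4 * b ^ 6 +
      66 * a ^ 5 * b ^ 5 + 72 * a ^ 6 * b ^ 4 + 64 * a ^ 7 * b ^ 3 + 33 * a ^ 8 * b ^ 2 +
      8 * a ^ 9 * b := by positivity
  linarith

theorem COL_W (e u f g : ℂ) :
    W e u (grav e + grav f + grav g) =
      ‖u‖ ^ 2 + (dot e e / ‖e‖ ^ 3 + dot e f / ‖f‖ ^ 3 + dot e g / ‖g‖ ^ 3 -
        3 * (dot e e / ‖e‖ ^ 3)) := by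
  have h1 : dot e (3 * grav e) = 3 * dot e (grav e) := by
    unfold dot
    simp
    ring
  unfold W
  rw [dot_sub_right, dot_add_right, dot_add_right, h1, dot_grav, dot_grav, dot_grav]

theorem COL_W1 (e u f g : ℂ) :
    W f u (grav e + grav f + grav g) =
      ‖u‖ ^ 2 + (dot f e / ‖e‖ ^ 3 + dot f f / ‖f‖ ^ 3 + dot f g / ‖g‖ ^ 3 -
        3 * (dot f f / ‖f‖ ^ 3)) := by
  have h1 : dot f (3 * grav f) = 3 * dot f (grav f) := by
    unfold dot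
    simp
    ring
  unfold W
  rw [dot_sub_right, dot_add_right, dot_add_right, h1, dot_grav, dot_grav, dot_grav]

theorem COL_W2 (e u f g : ℂ) :
    W g u (grav e + grav f + grav g) =
      ‖u‖ ^ 2 + (dot g e / ‖e‖ ^ 3 + dot g f / ‖f‖ ^ 3 + dot g g / ‖g‖ ^ 3 -
        3 * (dot g g / ‖g‖ ^ 3)) := by
  have h1 : dot g (3 * grav g) = 3 * dot g (grav g) := by
    unfold dot
    simp
    ring
  unfold W
  rw [dot_sub_right, dot_add_right, dot_add_right, h1, dot_grav, dot_grav, dot_grav]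

theorem COL_sq {e u : ℂ} (he : e ≠ 0) (hd : dot e u = 0) : (cr e u / ‖e‖) ^ 2 = ‖u‖ ^ 2 := by
  have h1 := dot_sq_add_cr_sq e u
  have h2 : 0 < ‖e‖ := norm_pos_iff.2 he
  rw [hd] at h1
  field_simp
  linear_combination h1

theorem thm_COL : St_COL := by
  intro ea eb ec ua ub uc h hda hdb hdc hn
  have ha : 0 < ‖ea‖ := norm_pos_iff.2 h.ha
  have hb : 0 < ‖eb‖ := norm_pos_iff.2 h.hb
  have hc : 0 < ‖ec‖ := norm_pos_iff.2 h.hc
  have hec : ec = -(ea + eb) := by linear_combination h.he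
  have huc : uc = -(ua + ub) := by linear_combination h.hu
  have hcn : ‖ec‖ = ‖ea‖ + ‖eb‖ := by rw [hec, norm_neg, hn]
  have hray : ‖ea‖ • eb = ‖eb‖ • ea := (sameRay_iff_norm_add.2 hn).norm_smul_eq
  have hre : eb.re = ‖eb‖ / ‖ea‖ * ea.re := by
    have h1 := congrArg Complex.re hray
    rw [Complex.smul_re, Complex.smul_re, smul_eq_mul, smul_eq_mul] at h1
    field_simp
    linear_combination h1
  have him : eb.im = ‖eb‖ / ‖ea‖ * ea.im := by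
    have h1 := congrArg Complex.im hray
    rw [Complex.smul_im, Complex.smul_im, smul_eq_mul, smul_eq_mul] at h1
    field_simp
    linear_combination h1
  have hna : ea.re ^ 2 + ea.im ^ 2 = ‖ea‖ ^ 2 := (norm_sq_eq ea).symm
  have hab : dot ea eb = ‖ea‖ * ‖eb‖ := by
    unfold dot
    rw [hre, him]
    field_simp
    linear_combination hna
  have hac : dot ea ec = -(‖ea‖ * ‖ec‖) := by
    have h1 : dot ea ec = -(dot ea ea + dot ea eb) := by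
      rw [hec]
      unfold dot
      simp
      ring
    rw [h1, hab, hcn, dot_self]
    ring
  have hbc : dot eb ec = -(‖eb‖ * ‖ec‖) := by
    have h1 : dot eb ec = -(dot ea eb + dot eb eb) := by
      rw [hec]
      unfold dot
      simp
      ring
    rw [h1, hab, hcn, dot_self]
    ring
  have hcr : cr ec uc / ‖ec‖ = cr ea ua / ‖ea‖ + cr eb ub / ‖eb‖ := by
    have h1 : cr ec uc = cr ea ua + cr ea ub + (cr eb ua + cr eb ub) := by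
      rw [hec, huc]
      unfold cr
      simp
      ring
    have h2 : cr eb ua = ‖eb‖ / ‖ea‖ * cr ea ua := by
      unfold cr
      rw [hre, him]
      ring
    have h3 : cr ea ub = ‖ea‖ / ‖eb‖ * cr eb ub := by
      unfold cr
      rw [hre, him]
      field_simp
    rw [h1, h2, h3, hcn]
    have h4 : ‖ea‖ + ‖eb‖ ≠ 0 := by positivity
    field_simp
  have hsa := COL_sq h.ha hda
  have hsb := COL_sq h.hb hdb
  have hsc := COL_sq h.hc hdc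
  rw [hcr] at hsc
  refine COL_real ‖ea‖ ‖eb‖ ‖ec‖ (cr ea ua / ‖ea‖) (cr eb ub / ‖eb‖) ha hb hcn h.hU ?_ ?_ ?_
  · rw [← hcr]
    have h1 := h.hJ
    field_simp
    linear_combination h1
  · rw [hsa, hsb, hsc]
    exact h.hK
  · have h1 := h.hU2
    rw [COL_W, COL_W1, COL_W2, hda, hdb, hdc, dot_comm eb ea, dot_comm ec ea, dot_comm ec eb, hab,
      hac, hbc, dot_self, dot_self, dot_self] at h1
    rw [hsa, hsb, hsc, h1]
    ring

end Pool.Agent.TBV
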