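import Pool.Agent.TBV.St

/-!
# TBV, module CPT: compactness of the space of complete solutions
-/

set_option autoImplicit false

open Finset Filter Topology
open scoped BigOperators ENNReal

namespace Pool.Agent.TBV

/-- `acc` is Lipschitz on configurations with distances at least `2 / 5` -/
private theorem CPT_acc (hLIP : St_LIP) {p q : Fin 3 → ℂ} {d : ℝ}
    (hp : ∀ i j, i ≠ j → 2 / 5 ≤ ‖p i - p j‖) (hq : ∀ i j, i ≠ j → 2 / 5 ≤ ‖q i - q j‖)
    (hd : ∀ i, ‖p i - q i‖ ≤ d) (i : Fin 3) : ‖acc p i - acc q i‖ ≤ 252 * d := by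
  have h1 : ∀ j ∈ (univ : Finset (Fin 3)).erase i,
      ‖grav (p j - p i) - grav (q j - q i)‖ ≤ 126 * d := by
    intro j hj
    have hji : j ≠ i := (Finset.mem_erase.1 hj).1
    have h2 := hLIP (p j - p i) (q j - q i) (hp j i hji) (hq j i hji)
    have h3 : p j - p i - (q j - q i) = (p j - q j) - (p i - q i) := by ring
    have h4 : ‖p j - p i - (q j - q i)‖ ≤ d + d := by
      rw [h3]
      exact (norm_sub_le _ _).trans (add_le_add (hd j) (hd i))
    linarith
  unfold acc
  rw [← Finset.sum_sub_distrib]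
  refine (norm_sum_le _ _).trans ((Finset.sum_le_sum h1).trans ?_)
  rw [Finset.sum_const, Finset.card_erase_of_mem (Finset.mem_univ i), Finset.card_univ,
    Fintype.card_fin]
  simp only [nsmul_eq_mul]
  push_cast
  linarith

private theorem CPT_cont_cr {α : Type} {l : Filter α} {f g : α → ℂ} {a b : ℂ}
    (hf : Tendsto f l (𝓝 a)) (hg : Tendsto g l (𝓝 b)) :
    Tendsto (fun k => cr (f k) (g k)) l (𝓝 (cr a b)) := by
  have h1 : Tendsto (fun k => (f k).re) l (𝓝 a.re) := (Complex.continuous_re.tendsto a).comp hf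
  have h2 : Tendsto (fun k => (f k).im) l (𝓝 a.im) := (Complex.continuous_im.tendsto a).comp hf
  have h3 : Tendsto (fun k => (g k).re) l (𝓝 b.re) := (Complex.continuous_re.tendsto b).comp hg
  have h4 : Tendsto (fun k => (g k).im) l (𝓝 b.im) := (Complex.continuous_im.tendsto b).comp hg
  exact (h1.mul h4).sub (h2.mul h3)

private theorem CPT_U {α : Type} {l : Filter α} {f : α → Fin 3 → ℂ} {p : Fin 3 → ℂ}
    (hf : ∀ i, Tendsto (fun k => f k i) l (𝓝 (p i)))
    (hp : ∀ i j, i ≠ j → 2 / 5 ≤ ‖p i - p j‖) :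
    Tendsto (fun k => U (f k)) l (𝓝 (U p)) := by
  have h : ∀ i j, i ≠ j → Tendsto (fun k => 1 / ‖f k i - f k j‖) l (𝓝 (1 / ‖p i - p j‖)) := by
    intro i j hij
    refine Tendsto.div tendsto_const_nhds ((hf i).sub (hf j)).norm ?_
    have := hp i j hij
    linarith
  exact ((h 0 1 (by decide)).add (h 0 2 (by decide))).add (h 1 2 (by decide))

theorem thm_CPT (hBND : St_BND) (hLIP : St_LIP) (hGRO : St_GRO) : St_CPT := by
  intro R q v hsol hU hR
  -- the initial data
  have hbdd : ∀ k, (q k 0, v k 0) ∈ Metric.closedBall (0 : (Fin 3 → ℂ) × (Fin 3 → ℂ))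
      (max R 2) := by
    intro k
    rw [mem_closedBall_zero_iff, Prod.norm_def]
    refine max_le ?_ ?_
    · refine (pi_norm_le_iff_of_nonneg (le_max_of_le_right (by norm_num))).2 fun i => ?_
      exact (hR k i).trans (le_max_left _ _)
    · refine (pi_norm_le_iff_of_nonneg (le_max_of_le_right (by norm_num))).2 fun i => ?_
      exact ((hBND _ _ (hsol k) (hU k) 0).2.1 i).trans (le_max_right _ _)
  obtain ⟨a, -, φ, hφ, ha⟩ := tendsto_subseq_of_bounded Metric.isBounded_closedBall hbdd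
  -- the sequence at time `t`
  have hgro : ∀ k l t, dist (q (φ k) t, v (φ k) t) (q (φ l) t, v (φ l) t) ≤
      dist (q (φ k) 0, v (φ k) 0) (q (φ l) 0, v (φ l) 0) * Real.exp (252 * |t|) :=
    fun k l t => hGRO _ _ _ _ (hsol _) (hsol _) (hU _) (hU _) t
  have hc0 : CauchySeq (fun k => (q (φ k) 0, v (φ k) 0)) := ha.cauchySeq
  have hlim : ∀ t, ∃ y : (Fin 3 → ℂ) × (Fin 3 → ℂ),
      Tendsto (fun k => (q (φ k) t, v (φ k) t)) atTop (𝓝 y) := by
    intro t
    refine cauchySeq_tendsto_of_complete ?_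
    rw [Metric.cauchySeq_iff] at hc0 ⊢
    intro ε hε
    obtain ⟨N, hN⟩ := hc0 (ε / Real.exp (252 * |t|)) (by positivity)
    refine ⟨N, fun m hm n hn => ?_⟩
    refine (hgro m n t).trans_lt ?_
    have := hN m hm n hn
    rwa [lt_div_iff₀ (Real.exp_pos _)] at this
  choose y hy using hlim
  have hd : ∀ k t, dist (q (φ k) t, v (φ k) t) (y t) ≤
      dist (q (φ k) 0, v (φ k) 0) a * Real.exp (252 * |t|) := by
    intro k t
    refine le_of_tendsto_of_tendsto (tendsto_const_nhds.dist (hy t))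
      ((tendsto_const_nhds.dist ha).mul_const _) (Eventually.of_forall fun l => ?_)
    exact hgro k l t
  have hq : ∀ t, Tendsto (fun k => q (φ k) t) atTop (𝓝 (y t).1) := fun t =>
    (continuous_fst.tendsto (y t)).comp (hy t)
  have hv : ∀ t, Tendsto (fun k => v (φ k) t) atTop (𝓝 (y t).2) := fun t =>
    (continuous_snd.tendsto (y t)).comp (hy t)
  have hqi : ∀ t i, Tendsto (fun k => q (φ k) t i) atTop (𝓝 ((y t).1 i)) := fun t i =>
    ((continuous_apply i).tendsto (y t).1).comp (hq t)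
  have hvi : ∀ t i, Tendsto (fun k => v (φ k) t i) atTop (𝓝 ((y t).2 i)) := fun t i =>
    ((continuous_apply i).tendsto (y t).2).comp (hv t)
  have hdq : ∀ k t i, ‖q (φ k) t i - (y t).1 i‖ ≤
      dist (q (φ k) 0, v (φ k) 0) a * Real.exp (252 * |t|) := by
    intro k t i
    refine le_trans ?_ (hd k t)
    rw [Prod.dist_eq, ← dist_eq_norm]
    exact (dist_le_pi_dist _ _ i).trans (le_max_left _ _)
  have hdv : ∀ k t i, ‖v (φ k) t i - (y t).2 i‖ ≤
      dist (q (φ k) 0, v (φ k) 0) a * Real.exp (252 * |t|) := by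
    intro k t i
    refine le_trans ?_ (hd k t)
    rw [Prod.dist_eq, ← dist_eq_norm]
    exact (dist_le_pi_dist _ _ i).trans (le_max_right _ _)
  -- distances
  have hfar : ∀ k t i j, i ≠ j → 2 / 5 ≤ ‖q (φ k) t i - q (φ k) t j‖ := fun k t =>
    (hBND _ _ (hsol _) (hU _) t).1
  have hfar' : ∀ t i j, i ≠ j → 2 / 5 ≤ ‖(y t).1 i - (y t).1 j‖ := by
    intro t i j hij
    refine ge_of_tendsto ((hqi t i).sub (hqi t j)).norm (Eventually.of_forall fun k => ?_)
    exact hfar k t i j hij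
  have hUl : ∀ t, Tendsto (fun k => U (q (φ k) t)) atTop (𝓝 (U (y t).1)) := fun t =>
    CPT_U (hqi t) (hfar' t)
  -- uniform convergence on bounded intervals
  have hunif : ∀ (T C : ℝ) (f : ℕ → ℝ → ℂ) (g : ℝ → ℂ), 0 ≤ C →
      (∀ k t, ‖f k t - g t‖ ≤ C * (dist (q (φ k) 0, v (φ k) 0) a * Real.exp (252 * |t|))) →
      TendstoUniformlyOn f g atTop (Metric.ball (0 : ℝ) T) := by
    intro T C f g hC h
    rw [Metric.tendstoUniformlyOn_iff]
    intro ε hε
    have h0 : Tendsto (fun k => C * (dist (q (φ k) 0, v (φ k) 0) a * Real.exp (252 * T))) atTop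
        (𝓝 0) := by
      have h1 : Tendsto (fun k => dist (q (φ k) 0, v (φ k) 0) a) atTop (𝓝 0) :=
        tendsto_iff_dist_tendsto_zero.1 ha
      have h2 := (h1.mul_const (Real.exp (252 * T))).const_mul C
      simpa using h2
    filter_upwards [h0.eventually (gt_mem_nhds hε)] with k hk t ht
    rw [dist_comm, dist_eq_norm]
    refine (h k t).trans_lt (lt_of_le_of_lt ?_ hk)
    have h3 : |t| ≤ T := by
      have := mem_ball_zero_iff.1 ht
      rw [Real.norm_eq_abs] at this
      exact this.le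
    refine mul_le_mul_of_nonneg_left ?_ hC
    refine mul_le_mul_of_nonneg_left ?_ dist_nonneg
    exact Real.exp_le_exp.2 (by linarith)
  have hmem : ∀ t : ℝ, t ∈ Metric.ball (0 : ℝ) (|t| + 1) := by
    intro t
    rw [mem_ball_zero_iff, Real.norm_eq_abs]
    linarith
  refine ⟨φ, fun t => (y t).1, fun t => (y t).2, hφ, ?_, hq, hUl⟩
  refine ⟨?_, ?_, ?_, ?_, ?_, ?_⟩
  · intro t i j hij he
    have h1 := hfar' t i j hij
    rw [he, sub_self, norm_zero] at h1
    linarith
  · intro t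
    have h1 : Tendsto (fun k => q (φ k) t 0 + q (φ k) t 1 + q (φ k) t 2) atTop
        (𝓝 ((y t).1 0 + (y t).1 1 + (y t).1 2)) := ((hqi t 0).add (hqi t 1)).add (hqi t 2)
    refine tendsto_nhds_unique h1 ?_
    have h2 : (fun k => q (φ k) t 0 + q (φ k) t 1 + q (φ k) t 2) = fun _ => 0 := by
      funext k
      exact (hsol (φ k)).centre t
    rw [h2]
    exact tendsto_const_nhds
  · intro t i
    refine hasDerivAt_of_tendstoUniformlyOn (f := fun k s => q (φ k) s i)
      (f' := fun k s => v (φ k) s i) (g := fun s => (y s).1 i) (g' := fun s => (y s).2 i)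
      (l := atTop) Metric.isOpen_ball (hunif (|t| + 1) 1 _ _ zero_le_one ?_)
      (Eventually.of_forall fun k s _ => (hsol (φ k)).vel s i) (fun s _ => hqi s i) (hmem t)
    intro k s
    rw [one_mul]
    exact hdv k s i
  · intro t i
    refine hasDerivAt_of_tendstoUniformlyOn (f := fun k s => v (φ k) s i)
      (f' := fun k s => acc (q (φ k) s) i) (g := fun s => (y s).2 i)
      (g' := fun s => acc (y s).1 i)
      (l := atTop) Metric.isOpen_ball (hunif (|t| + 1) 252 _ _ (by norm_num) ?_)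
      (Eventually.of_forall fun k s _ => (hsol (φ k)).newton s i) (fun s _ => hvi s i) (hmem t)
    intro k s
    exact CPT_acc hLIP (hfar k s) (hfar' s) (hdq k s) i
  · intro t
    have h1 : Tendsto (fun k => (‖v (φ k) t 0‖ ^ 2 + ‖v (φ k) t 1‖ ^ 2 + ‖v (φ k) t 2‖ ^ 2) / 2 -
        U (q (φ k) t)) atTop
        (𝓝 ((‖(y t).2 0‖ ^ 2 + ‖(y t).2 1‖ ^ 2 + ‖(y t).2 2‖ ^ 2) / 2 - U (y t).1)) :=
      (((((hvi t 0).norm.pow 2).add ((hvi t 1).norm.pow 2)).add
        ((hvi t 2).norm.pow 2)).div_const 2).sub (hUl t)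
    refine tendsto_nhds_unique h1 ?_
    have h2 : (fun k => (‖v (φ k) t 0‖ ^ 2 + ‖v (φ k) t 1‖ ^ 2 + ‖v (φ k) t 2‖ ^ 2) / 2 -
        U (q (φ k) t)) = fun _ => -1 := by
      funext k
      exact (hsol (φ k)).energy t
    rw [h2]
    exact tendsto_const_nhds
  · intro t
    have h1 : Tendsto (fun k => cr (q (φ k) t 0) (v (φ k) t 0) +
        cr (q (φ k) t 1) (v (φ k) t 1) + cr (q (φ k) t 2) (v (φ k) t 2)) atTop
        (𝓝 (cr ((y t).1 0) ((y t).2 0) + cr ((y t).1 1) ((y t).2 1) +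
          cr ((y t).1 2) ((y t).2 2))) :=
      ((CPT_cont_cr (hqi t 0) (hvi t 0)).add (CPT_cont_cr (hqi t 1) (hvi t 1))).add
        (CPT_cont_cr (hqi t 2) (hvi t 2))
    refine tendsto_nhds_unique h1 ?_
    have h2 : (fun k => cr (q (φ k) t 0) (v (φ k) t 0) +
        cr (q (φ k) t 1) (v (φ k) t 1) + cr (q (φ k) t 2) (v (φ k) t 2)) = fun _ => 0 := by
      funext k
      exact (hsol (φ k)).momentum t
    rw [h2]
    exact tendsto_const_nhds

end Pool.Agent.TBV
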