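import Pool.Agent.TBV.St

/-! TBV: module DOT (proof by helper89 of `St_DOT` of helper73). -/

set_option autoImplicit false

namespace Pool.Agent.TBV

theorem DOT_add (z w : ℂ) : ‖z + w‖ ^ 2 = ‖z‖ ^ 2 + 2 * dot z w + ‖w‖ ^ 2 := by
  rw [norm_sq_eq, norm_sq_eq, norm_sq_eq, Complex.add_re, Complex.add_im]
  unfold dot
  ring

theorem thm_DOT (hRIG : St_RIG) (hCOL : St_COL) : St_DOT := by
  intro ea eb ec ua ub uc hP ha hb hc
  have hcr := hRIG ea eb ec ua ub uc hP ha hb hc
  have h1 := dot_sq_add_cr_sq ea eb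
  rw [hcr] at h1
  have h2 : (dot ea eb - ‖ea‖ * ‖eb‖) * (dot ea eb + ‖ea‖ * ‖eb‖) = 0 := by
    linear_combination h1
  have hadd := DOT_add ea eb
  have hna := norm_nonneg ea
  have hnb := norm_nonneg eb
  have hnc := norm_nonneg ec
  rcases mul_eq_zero.1 h2 with h | h
  · apply hCOL ea eb ec ua ub uc hP ha hb hc
    have h3 : ‖ea + eb‖ ^ 2 = (‖ea‖ + ‖eb‖) ^ 2 := by
      rw [hadd]
      linear_combination 2 * h
    exact (sq_eq_sq₀ (norm_nonneg _) (by positivity)).1 h3
  · have hec : ‖ec‖ = ‖ea + eb‖ := by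
      have h4 : ea + eb = -ec := by
        linear_combination hP.he
      rw [h4, norm_neg]
    have h3 : ‖ec‖ ^ 2 = (‖ea‖ - ‖eb‖) ^ 2 := by
      rw [hec, hadd]
      linear_combination 2 * h
    rcases le_total ‖eb‖ ‖ea‖ with hle | hle
    · have h5 : ‖ec‖ = ‖ea‖ - ‖eb‖ := (sq_eq_sq₀ hnc (by linarith)).1 h3
      apply hCOL eb ec ea ub uc ua hP.rot hb hc ha
      have h6 : eb + ec = -ea := by
        linear_combination hP.he
      rw [h6, norm_neg]
      linarith
    · have h5 : ‖ec‖ = ‖eb‖ - ‖ea‖ := by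
        apply (sq_eq_sq₀ hnc (by linarith)).1
        rw [h3]
        ring
      apply hCOL ec ea eb uc ua ub hP.rot.rot hc ha hb
      have h6 : ec + ea = -eb := by
        linear_combination hP.he
      rw [h6, norm_neg]
      linarith

end Pool.Agent.TBV
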