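import Pool.Agent.TBV.St

/-! # TBV, module EQU: a solution with `U = 2` is never equilateral (helper27) -/

set_option autoImplicit false

open Finset Filter Topology

namespace Pool.Agent.TBV

theorem EQU_sum (x y z : ℂ) (h : x + y + z = 0) :
    ‖y - x‖ ^ 2 + ‖z - y‖ ^ 2 + ‖x - z‖ ^ 2 = 3 * (‖x‖ ^ 2 + ‖y‖ ^ 2 + ‖z‖ ^ 2) := by
  have hz : z = -x - y := by linear_combination h
  rw [hz]
  simp only [norm_sq_eq, Complex.sub_re, Complex.sub_im, Complex.neg_re, Complex.neg_im]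
  ring

theorem EQU_ge (r : ℝ) (hr : 0 < r) : 0 ≤ r ^ 2 + (27 / 4) * (1 / r) - 27 / 4 := by
  have h : r ^ 2 + (27 / 4) * (1 / r) - 27 / 4 = (r - 3 / 2) ^ 2 * (r + 3) / r := by
    field_simp
    ring
  rw [h]
  positivity

theorem EQU_eq (r : ℝ) (hr : 0 < r) (h0 : r ^ 2 + (27 / 4) * (1 / r) - 27 / 4 ≤ 0) :
    r = 3 / 2 := by
  have h : r ^ 2 + (27 / 4) * (1 / r) - 27 / 4 = (r - 3 / 2) ^ 2 * (r + 3) / r := by
    field_simp
    ring
  rw [h] at h0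
  by_contra hne
  have h1 : 0 < (r - 3 / 2) ^ 2 := by
    have : r - 3 / 2 ≠ 0 := fun h => hne (by linarith)
    positivity
  have h2 : 0 < (r - 3 / 2) ^ 2 * (r + 3) / r := by positivity
  linarith

theorem EQU_dot {e u : ℝ → ℂ} {t : ℝ} (h : HasDerivAt e (u t) t) (hc : ∀ s, ‖e s‖ = 3 / 2) :
    dot (e t) (u t) = 0 := by
  have h1 := hasDerivAt_dot h h
  have h2 : (fun s => dot (e s) (e s)) = fun _ => (3 / 2 : ℝ) ^ 2 := by
    funext s
    rw [dot_self, hc s]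
  rw [h2] at h1
  have h3 := h1.unique (hasDerivAt_const t ((3 / 2 : ℝ) ^ 2))
  rw [dot_comm (u t) (e t)] at h3
  linarith

/-- [EQU] -/
theorem thm_EQU (hIC : St_IC) (hPTD : St_PTD) (hDOT : St_DOT) : St_EQU := by
  intro q v hq hU t
  rintro ⟨h1, h2⟩
  obtain ⟨I0, hI⟩ := hIC q v hq hU
  have hsum : ∀ s, ‖q s 1 - q s 0‖ ^ 2 + ‖q s 2 - q s 1‖ ^ 2 + ‖q s 0 - q s 2‖ ^ 2 = 3 * I0 := by
    intro s
    rw [EQU_sum _ _ _ (hq.centre s), hI s]
  have hpos : ∀ s, 0 < ‖q s 1 - q s 0‖ ∧ 0 < ‖q s 2 - q s 1‖ ∧ 0 < ‖q s 0 - q s 2‖ := fun s =>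
    ⟨norm_pos_iff.2 (hPTD q v hq hU s).ha, norm_pos_iff.2 (hPTD q v hq hU s).hb,
      norm_pos_iff.2 (hPTD q v hq hU s).hc⟩
  have hI0 : 3 * I0 = 27 / 4 := by
    have h3 := (hPTD q v hq hU t).hU
    have h4 := hsum t
    obtain ⟨p1, p2, p3⟩ := hpos t
    rw [← h2, ← h1] at h3 h4
    have h5 : ‖q t 1 - q t 0‖ = 3 / 2 := by
      field_simp at h3
      linarith
    rw [h5] at h4
    linarith
  have hall : ∀ s, ‖q s 1 - q s 0‖ = 3 / 2 ∧ ‖q s 2 - q s 1‖ = 3 / 2 ∧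
      ‖q s 0 - q s 2‖ = 3 / 2 := by
    intro s
    have h3 := (hPTD q v hq hU s).hU
    have h4 := hsum s
    rw [hI0] at h4
    obtain ⟨p1, p2, p3⟩ := hpos s
    have g1 := EQU_ge _ p1
    have g2 := EQU_ge _ p2
    have g3 := EQU_ge _ p3
    exact ⟨EQU_eq _ p1 (by linarith), EQU_eq _ p2 (by linarith), EQU_eq _ p3 (by linarith)⟩
  have hd1 : HasDerivAt (fun s => q s 1 - q s 0) (v t 1 - v t 0) t :=
    (hq.vel t 1).sub (hq.vel t 0)
  have hd2 : HasDerivAt (fun s => q s 2 - q s 1) (v t 2 - v t 1) t :=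
    (hq.vel t 2).sub (hq.vel t 1)
  have hd3 : HasDerivAt (fun s => q s 0 - q s 2) (v t 0 - v t 2) t :=
    (hq.vel t 0).sub (hq.vel t 2)
  refine hDOT _ _ _ _ _ _ (hPTD q v hq hU t) ?_ ?_ ?_
  · exact EQU_dot (e := fun s => q s 1 - q s 0) (u := fun s => v s 1 - v s 0) hd1
      fun s => (hall s).1
  · exact EQU_dot (e := fun s => q s 2 - q s 1) (u := fun s => v s 2 - v s 1) hd2
      fun s => (hall s).2.1
  · exact EQU_dot (e := fun s => q s 0 - q s 2) (u := fun s => v s 0 - v s 2) hd3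
      fun s => (hall s).2.2

end Pool.Agent.TBV
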