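import Pool.Agent.TBV.St

/-!
# TBV: extremal solutions
-/

set_option autoImplicit false

open Finset Filter Topology
open scoped BigOperators ENNReal

namespace Pool.Agent.TBV

private theorem EXT_perm : ∀ i j : Fin 3, i ≠ j → ∃ σ : Equiv.Perm (Fin 3), σ 0 = i ∧ σ 1 = j := by
  decide

private theorem EXT_norm {I0 : ℝ} {x : Fin 3 → ℂ} (h : ‖x 0‖ ^ 2 + ‖x 1‖ ^ 2 + ‖x 2‖ ^ 2 = I0) (i : Fin 3) :
    ‖x i‖ ≤ Real.sqrt I0 := by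
  refine Real.le_sqrt_of_sq_le ?_
  rw [← h]
  have h0 := sq_nonneg ‖x 0‖
  have h1 := sq_nonneg ‖x 1‖
  have h2 := sq_nonneg ‖x 2‖
  fin_cases i
  · show ‖x 0‖ ^ 2 ≤ _
    linarith
  · show ‖x 1‖ ^ 2 ≤ _
    linarith
  · show ‖x 2‖ ^ 2 ≤ _
    linarith

/-- all distances between two bodies of the solutions of the class -/
private def EXT_D (I0 : ℝ) : Set ℝ :=
  {d | ∃ q v : ℝ → Fin 3 → ℂ, Cls I0 q v ∧ ∃ (t : ℝ) (i j : Fin 3), i ≠ j ∧ d = ‖q t i - q t j‖}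

/-- a distance of the class is the distance of the bodies `0` and `1` at time zero -/
private theorem EXT_mem (hPERM : St_PERM) (hSHIFT : St_SHIFT) {I0 d : ℝ} (hd : d ∈ EXT_D I0) :
    ∃ q v : ℝ → Fin 3 → ℂ, Cls I0 q v ∧ ‖q 0 1 - q 0 0‖ = d := by
  obtain ⟨q, v, ⟨hS, hU, hI⟩, t, i, j, hij, rfl⟩ := hd
  obtain ⟨σ, hσ0, hσ1⟩ := EXT_perm i j hij
  obtain ⟨h1, h2⟩ := hPERM 1 q v σ hS
  have h3 := hSHIFT 1 t _ _ h1
  refine ⟨_, _, ⟨h3, fun s => ?_, fun s => ?_⟩, ?_⟩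
  · exact (h2 (s + t)).trans (hU (s + t))
  · have e := Equiv.sum_comp σ fun i => ‖q (s + t) i‖ ^ 2
    rw [Fin.sum_univ_three, Fin.sum_univ_three] at e
    exact e.trans (hI (s + t))
  · show ‖q (0 + t) (σ 1) - q (0 + t) (σ 0)‖ = _
    rw [hσ0, hσ1, zero_add, norm_sub_rev]

private theorem EXT_lim (hPERM : St_PERM) (hSHIFT : St_SHIFT) (hCPT : St_CPT) {I0 m : ℝ} {d : ℕ → ℝ}
    (hd : ∀ k, d k ∈ EXT_D I0) (hm : Tendsto d atTop (𝓝 m)) :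
    ∃ q v : ℝ → Fin 3 → ℂ, Cls I0 q v ∧ ‖q 0 1 - q 0 0‖ = m := by
  choose q v hC hq using fun k => EXT_mem hPERM hSHIFT (hd k)
  obtain ⟨φ, p, w, hφ, hS, hT, hTU⟩ := hCPT (Real.sqrt I0) q v (fun k => (hC k).1)
    (fun k t => by rw [(hC k).2.1 t]; norm_num) (fun k i => EXT_norm ((hC k).2.2 0) i)
  have hTi : ∀ t i, Tendsto (fun k => q (φ k) t i) atTop (𝓝 (p t i)) := fun t i =>
    (tendsto_pi_nhds.1 (hT t)) i
  refine ⟨p, w, ⟨hS, fun t => ?_, fun t => ?_⟩, ?_⟩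
  · refine tendsto_nhds_unique (hTU t) ?_
    have : (fun k => U (q (φ k) t)) = fun _ => (2 : ℝ) := by
      funext k
      exact (hC (φ k)).2.1 t
    rw [this]
    exact tendsto_const_nhds
  · have h1 : Tendsto (fun k => ‖q (φ k) t 0‖ ^ 2 + ‖q (φ k) t 1‖ ^ 2 + ‖q (φ k) t 2‖ ^ 2) atTop
        (𝓝 (‖p t 0‖ ^ 2 + ‖p t 1‖ ^ 2 + ‖p t 2‖ ^ 2)) :=
      (((hTi t 0).norm.pow 2).add ((hTi t 1).norm.pow 2)).add ((hTi t 2).norm.pow 2)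
    refine tendsto_nhds_unique h1 ?_
    have : (fun k => ‖q (φ k) t 0‖ ^ 2 + ‖q (φ k) t 1‖ ^ 2 + ‖q (φ k) t 2‖ ^ 2) = fun _ => I0 := by
      funext k
      exact (hC (φ k)).2.2 t
    rw [this]
    exact tendsto_const_nhds
  · have h1 : Tendsto (fun k => ‖q (φ k) 0 1 - q (φ k) 0 0‖) atTop (𝓝 ‖p 0 1 - p 0 0‖) :=
      ((hTi 0 1).sub (hTi 0 0)).norm
    refine tendsto_nhds_unique h1 ?_
    have : (fun k => ‖q (φ k) 0 1 - q (φ k) 0 0‖) = fun k => d (φ k) := by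
      funext k
      exact hq (φ k)
    rw [this]
    exact hm.comp hφ.tendsto_atTop

private theorem EXT_ne {I0 : ℝ} (h : ∃ q v, Cls I0 q v) : (EXT_D I0).Nonempty := by
  obtain ⟨q, v, hC⟩ := h
  exact ⟨_, q, v, hC, 0, 0, 1, by decide, rfl⟩

theorem thm_EXmin (hPERM : St_PERM) (hSHIFT : St_SHIFT) (hCPT : St_CPT) : St_EXmin := by
  intro I0 hex
  have hb : BddBelow (EXT_D I0) := by
    refine ⟨0, ?_⟩
    rintro d ⟨q, v, -, t, i, j, -, rfl⟩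
    exact norm_nonneg _
  obtain ⟨u, -, hu1, hu2⟩ := exists_seq_tendsto_sInf (EXT_ne hex) hb
  obtain ⟨q, v, hC, hq⟩ := EXT_lim hPERM hSHIFT hCPT hu2 hu1
  refine ⟨q, v, hC, fun t i j hij => ?_⟩
  rw [hq]
  exact csInf_le hb ⟨q, v, hC, t, i, j, hij, rfl⟩

theorem thm_EXmax (hPERM : St_PERM) (hSHIFT : St_SHIFT) (hCPT : St_CPT) : St_EXmax := by
  intro I0 hex
  have hb : BddAbove (EXT_D I0) := by
    refine ⟨Real.sqrt I0 + Real.sqrt I0, ?_⟩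
    rintro d ⟨q, v, hC, t, i, j, -, rfl⟩
    exact (norm_sub_le _ _).trans (add_le_add (EXT_norm (hC.2.2 t) i) (EXT_norm (hC.2.2 t) j))
  obtain ⟨u, -, hu1, hu2⟩ := exists_seq_tendsto_sSup (EXT_ne hex) hb
  obtain ⟨q, v, hC, hq⟩ := EXT_lim hPERM hSHIFT hCPT hu2 hu1
  refine ⟨q, v, hC, fun t i j hij => ?_⟩
  rw [hq]
  exact le_csSup hb ⟨q, v, hC, t, i, j, hij, rfl⟩

end Pool.Agent.TBV
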