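import Pool.Agent.TBV.St

/-!
# TBV, module FAR: no far body for all times
-/

set_option autoImplicit false

namespace Pool.Agent.TBV

/-- the attraction of a far body by a near one -/
theorem FAR_term {Q y z : ℂ} (hy : y = -(3 / 2 : ℂ) * Q + z) (hz : ‖z‖ ≤ 1) (hQ : 60 ≤ ‖Q‖) :
    dot Q y / ‖y‖ ^ 3 ≤ -(1 / 5) / ‖Q‖ := by
  have h1 : dot Q y = -(3 / 2) * ‖Q‖ ^ 2 + dot Q z := by
    rw [hy, norm_sq_eq]
    unfold dot
    have e1 : (-(3 / 2 : ℂ) * Q + z).re = -(3 / 2) * Q.re + z.re := by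
      simp [Complex.mul_re]
    have e2 : (-(3 / 2 : ℂ) * Q + z).im = -(3 / 2) * Q.im + z.im := by
      simp [Complex.mul_im]
    rw [e1, e2]
    ring
  have h2 : dot Q z ≤ ‖Q‖ := by
    have h3 := (le_abs_self _).trans (abs_dot_le Q z)
    have h4 : ‖Q‖ * ‖z‖ ≤ ‖Q‖ * 1 := mul_le_mul_of_nonneg_left hz (norm_nonneg _)
    linarith
  have h5 : dot Q y ≤ -‖Q‖ ^ 2 := by
    rw [h1]
    nlinarith
  have h6 : ‖y‖ ≤ 8 / 5 * ‖Q‖ := by
    rw [hy]
    refine (norm_add_le _ _).trans ?_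
    rw [norm_mul]
    have h7 : ‖(-(3 / 2) : ℂ)‖ = 3 / 2 := by
      rw [norm_neg]
      norm_num
    rw [h7]
    linarith
  have h8 : y ≠ 0 := by
    rintro rfl
    have h9 : dot Q 0 = 0 := by
      unfold dot
      simp
    rw [h9] at h5
    nlinarith
  have hyp : 0 < ‖y‖ := norm_pos_iff.2 h8
  have hQp : 0 < ‖Q‖ := by linarith
  rw [div_le_div_iff₀ (by positivity) hQp]
  have h10 : ‖y‖ ^ 3 ≤ (8 / 5 * ‖Q‖) ^ 3 := pow_le_pow_left₀ hyp.le h6 3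
  have h11 : dot Q y * ‖Q‖ ≤ -‖Q‖ ^ 2 * ‖Q‖ := mul_le_mul_of_nonneg_right h5 hQp.le
  have h12 : 0 < ‖Q‖ ^ 3 := by positivity
  have h13 : (8 / 5 * ‖Q‖) ^ 3 = 512 / 125 * ‖Q‖ ^ 3 := by ring
  have h14 : -‖Q‖ ^ 2 * ‖Q‖ = -‖Q‖ ^ 3 := by ring
  rw [h13] at h10
  rw [h14] at h11
  linarith

theorem thm_FAR (hBND : St_BND) (hCONC : St_CONC) : St_FAR := by
  intro q v hS hU hx hρ
  have hρp : ∀ t, 0 < ‖q t 2‖ := fun t => by linarith [hρ t]
  have hq2 : ∀ t, q t 2 ≠ 0 := fun t => norm_pos_iff.1 (hρp t)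
  -- the sum of the velocities
  have hv : ∀ t, v t 0 + v t 1 + v t 2 = 0 := by
    intro t
    have h1 : HasDerivAt (fun s => q s 0 + q s 1 + q s 2) (v t 0 + v t 1 + v t 2) t :=
      ((hS.vel t 0).add (hS.vel t 1)).add (hS.vel t 2)
    have h2 : (fun s => q s 0 + q s 1 + q s 2) = fun _ => (0 : ℂ) := by
      funext s
      exact hS.centre s
    rw [h2] at h1
    exact h1.unique (hasDerivAt_const t 0)
  refine hCONC (fun t => ‖q t 2‖) (fun t => dot (q t 2) (v t 2) / ‖q t 2‖)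
    (fun t => ((dot (v t 2) (v t 2) + dot (q t 2) (acc (q t) 2)) * ‖q t 2‖ -
      dot (q t 2) (v t 2) * (dot (q t 2) (v t 2) / ‖q t 2‖)) / ‖q t 2‖ ^ 2)
    (fun t => hasDerivAt_norm' (hS.vel t 2) (hq2 t))
    (fun t => (hasDerivAt_dot (hS.vel t 2) (hS.newton t 2)).div
      (hasDerivAt_norm' (hS.vel t 2) (hq2 t)) (hρp t).ne') hρp ?_
  intro t
  set Q := q t 2 with hQ
  set V := v t 2 with hV
  set x := q t 1 - q t 0 with hxd
  set y := v t 1 - v t 0 with hyd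
  have c1 := hS.centre t
  rw [← hQ] at c1
  have c2 := hv t
  rw [← hV] at c2
  have e0 : q t 0 = -(Q / 2) - x / 2 := by
    rw [hxd]
    linear_combination c1 / 2
  have e1 : q t 1 = -(Q / 2) + x / 2 := by
    rw [hxd]
    linear_combination c1 / 2
  have f0 : v t 0 = -(V / 2) - y / 2 := by
    rw [hyd]
    linear_combination c2 / 2
  have f1 : v t 1 = -(V / 2) + y / 2 := by
    rw [hyd]
    linear_combination c2 / 2
  have hxn : ‖x‖ ≤ 2 := by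
    rw [hxd, norm_sub_rev]
    exact hx t
  have hB := hBND q v hS hU t
  have hyn : ‖y‖ ≤ 3 := by
    have h1 : ‖y‖ ≤ ‖v t 1‖ + ‖v t 0‖ := norm_sub_le _ _
    have h2 := hB.2.2.1
    have h3 : 0 ≤ ‖v t 2‖ ^ 2 := by positivity
    have h4 : (‖v t 1‖ + ‖v t 0‖) ^ 2 ≤ 6 := by
      nlinarith [sq_nonneg (‖v t 1‖ - ‖v t 0‖)]
    have h5 : ‖v t 1‖ + ‖v t 0‖ ≤ 3 := by
      nlinarith [norm_nonneg (v t 1), norm_nonneg (v t 0)]
    exact h1.trans h5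
  have hm := hS.momentum t
  rw [e0, e1, f0, f1, ← hQ, ← hV] at hm
  have hcr : 3 * cr Q V = -cr x y := by
    have g1 : ∀ a b : ℂ, (-(a / 2) - b / 2).re = -(a.re / 2) - b.re / 2 := by
      intro a b
      simp
    have g2 : ∀ a b : ℂ, (-(a / 2) - b / 2).im = -(a.im / 2) - b.im / 2 := by
      intro a b
      simp
    have g3 : ∀ a b : ℂ, (-(a / 2) + b / 2).re = -(a.re / 2) + b.re / 2 := by
      intro a b
      simp
    have g4 : ∀ a b : ℂ, (-(a / 2) + b / 2).im = -(a.im / 2) + b.im / 2 := by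
      intro a b
      simp
    unfold cr at hm ⊢
    rw [g1, g2, g3, g4, g1, g2, g3, g4] at hm
    linarith
  have hcr2 : cr Q V ^ 2 ≤ 4 := by
    have h1 := abs_cr_le x y
    have h2 : ‖x‖ * ‖y‖ ≤ 2 * 3 := mul_le_mul hxn hyn (norm_nonneg _) (by norm_num)
    have h3 : |cr Q V| ≤ 2 := by
      have h4 : |3 * cr Q V| = |cr x y| := by rw [hcr, abs_neg]
      rw [abs_mul, abs_of_pos (by norm_num : (0 : ℝ) < 3)] at h4
      linarith
    rw [← sq_abs]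
    nlinarith [abs_nonneg (cr Q V)]
  have hacc : dot Q (acc (q t) 2) ≤ -(2 / 5) / ‖Q‖ := by
    rw [acc_two, dot_add_right, dot_grav, dot_grav, ← hQ]
    have hx2 : ‖x / 2‖ ≤ 1 := by
      rw [norm_div]
      have : ‖(2 : ℂ)‖ = 2 := by norm_num
      rw [this]
      linarith
    have h1 := FAR_term (Q := Q) (y := q t 0 - Q) (z := -(x / 2))
      (by rw [e0]; ring) (by rw [norm_neg]; exact hx2) (hρ t)
    have h2 := FAR_term (Q := Q) (y := q t 1 - Q) (z := x / 2)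
      (by rw [e1]; ring) hx2 (hρ t)
    have h3 : -(2 / 5) / ‖Q‖ = -(1 / 5) / ‖Q‖ + -(1 / 5) / ‖Q‖ := by ring
    rw [h3]
    exact add_le_add h1 h2
  have hp := hρp t
  rw [← hQ] at hp
  have h60 := hρ t
  rw [← hQ] at h60
  have hid := dot_sq_add_cr_sq Q V
  have hnum : (dot V V + dot Q (acc (q t) 2)) * ‖Q‖ - dot Q V * (dot Q V / ‖Q‖) =
      (cr Q V ^ 2 + dot Q (acc (q t) 2) * ‖Q‖ ^ 2) / ‖Q‖ := by
    rw [dot_self]
    field_simp
    linarith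
  show ((dot V V + dot Q (acc (q t) 2)) * ‖Q‖ - dot Q V * (dot Q V / ‖Q‖)) / ‖Q‖ ^ 2 < 0
  rw [hnum]
  refine div_neg_of_neg_of_pos (div_neg_of_neg_of_pos ?_ hp) (by positivity)
  have h1 : dot Q (acc (q t) 2) * ‖Q‖ ^ 2 ≤ -(2 / 5) / ‖Q‖ * ‖Q‖ ^ 2 :=
    mul_le_mul_of_nonneg_right hacc (by positivity)
  have h2 : -(2 / 5) / ‖Q‖ * ‖Q‖ ^ 2 = -(2 / 5) * ‖Q‖ := by
    field_simp
  linarith

end Pool.Agent.TBV
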