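import Pool.Agent.TBV.St

/-!
# TBV: final assembly
-/

set_option autoImplicit false

open Finset Filter Topology
open scoped BigOperators ENNReal

namespace Pool.Agent.TBV

theorem FIN_all_le_dev {E : ℝ} {q v : ℝ → Fin 3 → ℂ} (h : Sol E q v) : epsAll E ≤ dev E q :=
  iInf_le_of_le q (iInf_le_of_le v (iInf_le_of_le h le_rfl))

theorem FIN_all_le_star (E : ℝ) : epsAll E ≤ epsStar E :=
  le_iInf fun q => le_iInf fun v => le_iInf fun h => le_iInf fun _ => FIN_all_le_dev h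

theorem thm_FIN (hPOS : St_POS) (hEPS : St_EPS) (hATT : St_ATT) :
    ∃ c : ℝ, 0 < c ∧ ∀ E : ℝ, 0 < E →
      (∀ q v, Sol E q v → ∃ t, c * E < |U (q t) - 2 * E| / 2) ∧
      ENNReal.ofReal (c * E) ≤ epsAll E ∧ epsAll E ≤ epsStar E ∧
      epsAll E = ENNReal.ofReal E * epsAll 1 ∧ epsStar E = ENNReal.ofReal E * epsStar 1 ∧
      (epsAll E < ENNReal.ofReal (E / 4) → ∃ q v, Sol E q v ∧ dev E q = epsAll E) := by
  obtain ⟨r, hr0, hr1⟩ := ENNReal.lt_iff_exists_nnreal_btwn.1 hPOS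
  have hr : (0 : ℝ) < r := by
    have : (0 : NNReal) < r := by exact_mod_cast hr0
    exact_mod_cast this
  have hlow : ∀ E : ℝ, 0 < E → ENNReal.ofReal ((r : ℝ) * E) ≤ epsAll E := by
    intro E hE
    rw [(hEPS E hE).1, ENNReal.ofReal_mul hr.le, mul_comm (ENNReal.ofReal E)]
    refine mul_le_mul' ?_ le_rfl
    rw [ENNReal.ofReal_coe_nnreal]
    exact hr1.le
  refine ⟨(r : ℝ) / 2, by positivity, fun E hE => ⟨?_, ?_, FIN_all_le_star E, (hEPS E hE).1,
    (hEPS E hE).2.1, ?_⟩⟩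
  · intro q v hS
    have h1 : ENNReal.ofReal ((r : ℝ) * E) ≤ dev E q := (hlow E hE).trans (FIN_all_le_dev hS)
    have h2 : ENNReal.ofReal ((r : ℝ) / 2 * E) < dev E q := by
      refine lt_of_lt_of_le ?_ h1
      rw [ENNReal.ofReal_lt_ofReal_iff (by positivity)]
      nlinarith
    obtain ⟨t, ht⟩ := lt_iSup_iff.1 h2
    refine ⟨t, ?_⟩
    by_contra hcon
    push Not at hcon
    exact absurd ht (not_lt.2 (ENNReal.ofReal_le_ofReal hcon))
  · refine le_trans (ENNReal.ofReal_le_ofReal ?_) (hlow E hE)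
    nlinarith
  · intro hlt
    apply (hEPS E hE).2.2
    apply hATT
    rw [(hEPS E hE).1] at hlt
    have e : ENNReal.ofReal (E / 4) = ENNReal.ofReal E * ENNReal.ofReal (1 / 4) := by
      rw [← ENNReal.ofReal_mul hE.le]
      congr 1
      ring
    rw [e] at hlt
    exact lt_of_mul_lt_mul_left' hlt

end Pool.Agent.TBV
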