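import Pool.Agent.TBV.St

/-!
# TBV: Gronwall for two solutions (GRO)
-/

set_option autoImplicit false

open Finset Filter Topology
open scoped BigOperators ENNReal NNReal

namespace Pool.Agent.TBV

/-- the phase space -/
private abbrev GRO_Ph : Type := (Fin 3 → ℂ) × (Fin 3 → ℂ)

/-- the vector field -/
private noncomputable def GRO_F (z : GRO_Ph) : GRO_Ph := (z.2, acc z.1)

/-- the set of the states with distances at least `2 / 5` -/
private def GRO_S : Set GRO_Ph := {z | ∀ i j, i ≠ j → 2 / 5 ≤ ‖z.1 i - z.1 j‖}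

private theorem GRO_acc (hLIP : St_LIP) {x y : Fin 3 → ℂ}
    (hx : ∀ i j, i ≠ j → 2 / 5 ≤ ‖x i - x j‖) (hy : ∀ i j, i ≠ j → 2 / 5 ≤ ‖y i - y j‖)
    (i : Fin 3) : ‖acc x i - acc y i‖ ≤ 252 * dist x y := by
  unfold acc
  rw [← Finset.sum_sub_distrib]
  refine (norm_sum_le _ _).trans ?_
  have hd : ∀ k, ‖x k - y k‖ ≤ dist x y := fun k => by
    rw [← dist_eq_norm]
    exact dist_le_pi_dist x y k
  have h1 : ∀ j ∈ univ.erase i, ‖grav (x j - x i) - grav (y j - y i)‖ ≤ 126 * dist x y := by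
    intro j hj
    have hji : j ≠ i := (Finset.mem_erase.1 hj).1
    refine (hLIP _ _ (hx j i hji) (hy j i hji)).trans ?_
    have h2 : x j - x i - (y j - y i) = (x j - y j) - (x i - y i) := by ring
    rw [h2]
    have h3 := norm_sub_le (x j - y j) (x i - y i)
    have h4 := hd j
    have h5 := hd i
    linarith
  refine (Finset.sum_le_card_nsmul _ _ _ h1).trans ?_
  rw [Finset.card_erase_of_mem (Finset.mem_univ i), Finset.card_univ, Fintype.card_fin,
    nsmul_eq_mul]
  have h6 : 0 ≤ dist x y := dist_nonneg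
  push_cast
  linarith

private theorem GRO_lip (hLIP : St_LIP) (σ : ℝ) (hσ : |σ| = 1) :
    LipschitzOnWith 252 (fun z : GRO_Ph => σ • GRO_F z) GRO_S := by
  refine LipschitzOnWith.of_dist_le_mul fun z hz z' hz' => ?_
  rw [dist_eq_norm, ← smul_sub, norm_smul, Real.norm_eq_abs, hσ, one_mul, ← dist_eq_norm]
  unfold GRO_F
  rw [Prod.dist_eq]
  have h0 : 0 ≤ dist z z' := dist_nonneg
  have h1 : dist z.1 z'.1 ≤ dist z z' := by
    rw [Prod.dist_eq]
    exact le_max_left _ _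
  have h2 : dist z.2 z'.2 ≤ dist z z' := by
    rw [Prod.dist_eq]
    exact le_max_right _ _
  have e : ((252 : ℝ≥0) : ℝ) = 252 := rfl
  rw [e]
  apply max_le
  · simp only
    linarith
  · refine (dist_pi_le_iff (by positivity)).2 fun i => ?_
    rw [dist_eq_norm]
    refine (GRO_acc hLIP hz hz' i).trans ?_
    linarith

private theorem GRO_der {E : ℝ} {q v : ℝ → Fin 3 → ℂ} (h : Sol E q v) (t : ℝ) :
    HasDerivAt (fun s => ((q s, v s) : GRO_Ph)) (GRO_F (q t, v t)) t :=
  (hasDerivAt_pi.2 fun i => h.vel t i).prodMk (hasDerivAt_pi.2 fun i => h.newton t i)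

private theorem GRO_der' {E : ℝ} {q v : ℝ → Fin 3 → ℂ} (h : Sol E q v) (σ t : ℝ) :
    HasDerivAt (fun s => ((q (σ * s), v (σ * s)) : GRO_Ph))
      (σ • GRO_F (q (σ * t), v (σ * t))) t := by
  have h1 : HasDerivAt (fun s : ℝ => σ * s) σ t := by
    have := (hasDerivAt_id t).const_mul σ
    rwa [mul_one] at this
  exact (GRO_der h (σ * t)).scomp t h1

private theorem GRO_one (hBND : St_BND) (hLIP : St_LIP) {q v p w : ℝ → Fin 3 → ℂ}
    (h1 : Sol 1 q v) (h2 : Sol 1 p w) (hq : ∀ t, |U (q t) - 2| ≤ 1 / 2)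
    (hp : ∀ t, |U (p t) - 2| ≤ 1 / 2) (σ : ℝ) (hσ : |σ| = 1) (t : ℝ) (ht : 0 ≤ t) :
    dist (q (σ * t), v (σ * t)) (p (σ * t), w (σ * t)) ≤
      dist (q 0, v 0) (p 0, w 0) * Real.exp (252 * t) := by
  have key := dist_le_of_trajectories_ODE_of_mem
    (v := fun _ z => σ • GRO_F z) (s := fun _ => GRO_S) (K := 252)
    (f := fun s => ((q (σ * s), v (σ * s)) : GRO_Ph))
    (g := fun s => ((p (σ * s), w (σ * s)) : GRO_Ph)) (a := 0) (b := t)
    (δ := dist (q 0, v 0) (p 0, w 0))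
    (fun _ _ => GRO_lip hLIP σ hσ)
    (fun s _ => (GRO_der' h1 σ s).continuousAt.continuousWithinAt)
    (fun s _ => (GRO_der' h1 σ s).hasDerivWithinAt)
    (fun s _ => fun i j hij => (hBND q v h1 hq (σ * s)).1 i j hij)
    (fun s _ => (GRO_der' h2 σ s).continuousAt.continuousWithinAt)
    (fun s _ => (GRO_der' h2 σ s).hasDerivWithinAt)
    (fun s _ => fun i j hij => (hBND p w h2 hp (σ * s)).1 i j hij)
    (by simp only [mul_zero]; exact le_rfl) t ⟨ht, le_rfl⟩
  rw [sub_zero] at key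
  exact key

theorem thm_GRO (hBND : St_BND) (hLIP : St_LIP) : St_GRO := by
  intro q v p w h1 h2 hq hp t
  rcases le_total 0 t with ht | ht
  · have h3 := GRO_one hBND hLIP h1 h2 hq hp 1 (by simp) t ht
    rw [one_mul] at h3
    rw [abs_of_nonneg ht]
    exact h3
  · have h3 := GRO_one hBND hLIP h1 h2 hq hp (-1) (by simp) (-t) (by linarith)
    have e : (-1 : ℝ) * (-t) = t := by ring
    rw [e] at h3
    rw [abs_of_nonpos ht]
    exact h3

end Pool.Agent.TBV
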