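import Pool.Agent.TBV.St

/-! TBV: module IC, Lagrange-Jacobi (proof by helper89 of `St_IC` of helper73). -/

set_option autoImplicit false

namespace Pool.Agent.TBV

theorem IC_pair (z w : ℂ) (h : z ≠ w) :
    dot z (grav (w - z)) + dot w (grav (z - w)) = -(1 / ‖z - w‖) := by
  have hn : 0 < ‖z - w‖ := norm_pos_iff.2 (sub_ne_zero.2 h)
  have h1 : dot z (w - z) + dot w (z - w) = -‖z - w‖ ^ 2 := by
    rw [norm_sq_eq]
    unfold dot
    rw [Complex.sub_re, Complex.sub_im, Complex.sub_re, Complex.sub_im]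
    ring
  rw [dot_grav, dot_grav, norm_sub_rev w z, ← add_div, h1]
  field_simp

theorem thm_IC : St_IC := by
  intro q v hS hU
  have hacc : ∀ t, dot (q t 0) (acc (q t) 0) + dot (q t 1) (acc (q t) 1) +
      dot (q t 2) (acc (q t) 2) = -U (q t) := by
    intro t
    have h1 := IC_pair (q t 0) (q t 1) (hS.free t 0 1 (by decide))
    have h2 := IC_pair (q t 0) (q t 2) (hS.free t 0 2 (by decide))
    have h3 := IC_pair (q t 1) (q t 2) (hS.free t 1 2 (by decide))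
    rw [acc_zero, acc_one, acc_two, dot_add_right, dot_add_right, dot_add_right]
    unfold U
    linarith
  have hD : ∀ t, HasDerivAt (fun s => dot (q s 0) (v s 0) + dot (q s 1) (v s 1) +
      dot (q s 2) (v s 2)) 0 t := by
    intro t
    have h := ((hasDerivAt_dot (hS.vel t 0) (hS.newton t 0)).add
      (hasDerivAt_dot (hS.vel t 1) (hS.newton t 1))).add
      (hasDerivAt_dot (hS.vel t 2) (hS.newton t 2))
    refine h.congr_deriv ?_
    have h1 := hacc t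
    have h2 := hS.energy t
    rw [dot_self, dot_self, dot_self]
    rw [hU t] at h1 h2
    linarith
  obtain ⟨D, hDd⟩ : ∃ D : ℝ → ℝ, D = fun s => dot (q s 0) (v s 0) + dot (q s 1) (v s 1) +
    dot (q s 2) (v s 2) := ⟨_, rfl⟩
  have hDc : ∀ t, D t = D 0 := by
    intro t
    apply is_const_of_deriv_eq_zero (𝕜 := ℝ)
    · intro s
      rw [hDd]
      exact (hD s).differentiableAt
    · intro s
      rw [hDd]
      exact (hD s).deriv
  have hI : ∀ t, HasDerivAt (fun s => ‖q s 0‖ ^ 2 + ‖q s 1‖ ^ 2 + ‖q s 2‖ ^ 2) (2 * D 0) t := by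
    intro t
    have h := ((hasDerivAt_dot (hS.vel t 0) (hS.vel t 0)).add
      (hasDerivAt_dot (hS.vel t 1) (hS.vel t 1))).add
      (hasDerivAt_dot (hS.vel t 2) (hS.vel t 2))
    have e : (fun s => ‖q s 0‖ ^ 2 + ‖q s 1‖ ^ 2 + ‖q s 2‖ ^ 2) =
        fun s => dot (q s 0) (q s 0) + dot (q s 1) (q s 1) + dot (q s 2) (q s 2) := by
      funext s
      rw [dot_self, dot_self, dot_self]
    rw [e]
    refine h.congr_deriv ?_
    rw [← hDc t, hDd, dot_comm (v t 0), dot_comm (v t 1), dot_comm (v t 2)]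
    ring
  have hJ : ∀ t, HasDerivAt (fun s => ‖q s 0‖ ^ 2 + ‖q s 1‖ ^ 2 + ‖q s 2‖ ^ 2 - 2 * D 0 * s) 0 t := by
    intro t
    have h := (hI t).sub ((hasDerivAt_id t).const_mul (2 * D 0))
    refine h.congr_deriv ?_
    ring
  have hJc : ∀ t, ‖q t 0‖ ^ 2 + ‖q t 1‖ ^ 2 + ‖q t 2‖ ^ 2 - 2 * D 0 * t =
      ‖q 0 0‖ ^ 2 + ‖q 0 1‖ ^ 2 + ‖q 0 2‖ ^ 2 - 2 * D 0 * 0 := by
    intro t
    exact is_const_of_deriv_eq_zero (𝕜 := ℝ)
      (f := fun s => ‖q s 0‖ ^ 2 + ‖q s 1‖ ^ 2 + ‖q s 2‖ ^ 2 - 2 * D 0 * s)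
      (fun s => (hJ s).differentiableAt) (fun s => (hJ s).deriv) t 0
  obtain ⟨J, hJd⟩ : ∃ J : ℝ, J = ‖q 0 0‖ ^ 2 + ‖q 0 1‖ ^ 2 + ‖q 0 2‖ ^ 2 := ⟨_, rfl⟩
  have hD0 : D 0 = 0 := by
    by_contra hne
    have h1 := hJc (-(J + 1) / (2 * D 0))
    rw [← hJd] at h1
    have h2 : 2 * D 0 * (-(J + 1) / (2 * D 0)) = -(J + 1) := by
      field_simp
    rw [h2] at h1
    have h3 : 0 ≤ ‖q (-(J + 1) / (2 * D 0)) 0‖ ^ 2 + ‖q (-(J + 1) / (2 * D 0)) 1‖ ^ 2 +
        ‖q (-(J + 1) / (2 * D 0)) 2‖ ^ 2 := by positivity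
    linarith
  refine ⟨J, fun t => ?_⟩
  have h1 := hJc t
  rw [hD0, ← hJd] at h1
  linarith

end Pool.Agent.TBV
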