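import Pool.Agent.TBV.St

/-!
# TBV, isosceles configurations: elimination to one polynomial
-/

set_option autoImplicit false

namespace Pool.Agent.TBV

theorem ISO_dot (e v w : ℂ) :
    ‖e‖ ^ 2 * dot v w = dot e v * dot e w + cr e v * cr e w := by
  rw [norm_sq_eq]
  unfold dot cr
  ring

theorem ISO_cr (e v w : ℂ) :
    ‖e‖ ^ 2 * cr v w = dot e v * cr e w - cr e v * dot e w := by
  rw [norm_sq_eq]
  unfold dot cr
  ring

/-- the real algebra: `a, b` distances, `P` scalar product of the edges, `S` cross product, `A, B1, B2`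
components of the velocities, `d` and `dc` scalar products `e · u`, `Ua, Ub, Uc` squares of the speeds -/
theorem ISO_alg {a b S A B1 B2 d Ua Ub Uc : ℝ} (ha : 0 < a) (hb : 0 < b)
    (hS : S ^ 2 = a ^ 2 * b ^ 2 - a ^ 4 / 4) (hlt : a < 2 * b)
    (h1 : 2 * (S * B2) + S * A = 0) (h2 : 3 * a ^ 2 * A = 4 * S * B1)
    (h3 : 2 * A ^ 2 + 2 * (B1 ^ 2 + B2 ^ 2) + 2 * (A * B2) = 6 * a ^ 2)
    (hd : a ^ 2 * d = -(a ^ 2 / 2) * B1 + S * B2)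
    (hUa : a ^ 2 * Ua = A ^ 2) (hUb : a ^ 2 * Ub = B1 ^ 2 + B2 ^ 2)
    (hK : Ua + Ub + Uc = 6) :
    d ^ 2 = (2 * b ^ 2 + a ^ 2) / 2 ∧ Ua = (8 * b ^ 2 - 2 * a ^ 2) / (2 * b ^ 2 + a ^ 2) ∧
      Ub = (2 * b ^ 2 + 4 * a ^ 2) / (2 * b ^ 2 + a ^ 2) ∧
      Uc = (2 * b ^ 2 + 4 * a ^ 2) / (2 * b ^ 2 + a ^ 2) := by
  have hN : 0 < 2 * b ^ 2 + a ^ 2 := by positivity
  have hS2 : 0 < S ^ 2 := by
    rw [hS]
    have : a ^ 2 * b ^ 2 - a ^ 4 / 4 = a ^ 2 * ((2 * b - a) * (2 * b + a)) / 4 := by ring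
    rw [this]
    have h4 : 0 < 2 * b - a := by linarith
    positivity
  have hS0 : S ≠ 0 := by
    intro h
    rw [h] at hS2
    norm_num at hS2
  have hA : A = -2 * B2 := by
    have : S * (A + 2 * B2) = 0 := by linarith
    rcases mul_eq_zero.1 this with h | h
    · exact absurd h hS0
    · linarith
  subst hA
  have h2' : 2 * S * B1 = -3 * a ^ 2 * B2 := by linarith
  have h3' : 3 * B2 ^ 2 + B1 ^ 2 = 3 * a ^ 2 := by linarith
  have hB2 : (2 * b ^ 2 + a ^ 2) * B2 ^ 2 = 2 * S ^ 2 := by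
    have e1 : 4 * S ^ 2 * B1 ^ 2 = 9 * a ^ 4 * B2 ^ 2 := by
      have : (2 * S * B1) ^ 2 = (-3 * a ^ 2 * B2) ^ 2 := by rw [h2']
      linarith
    have e2 : 2 * a ^ 2 * ((2 * b ^ 2 + a ^ 2) * B2 ^ 2) = 2 * a ^ 2 * (2 * S ^ 2) := by
      have : 4 * S ^ 2 * (3 * B2 ^ 2 + B1 ^ 2) = 4 * S ^ 2 * (3 * a ^ 2) := by rw [h3']
      have e3 : (12 * S ^ 2 + 9 * a ^ 4) * B2 ^ 2 = 12 * a ^ 2 * S ^ 2 := by linarith
      rw [hS] at e3 ⊢
      linarith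
    exact mul_left_cancel₀ (by positivity) e2
  have hd' : 2 * S * d = (2 * b ^ 2 + a ^ 2) * B2 := by
    have e2 : a ^ 2 * (2 * S * d) = a ^ 2 * ((2 * b ^ 2 + a ^ 2) * B2) := by
      have : 2 * S * (a ^ 2 * d) = -(a ^ 2 / 2) * (2 * S * B1) + 2 * S ^ 2 * B2 := by
        rw [hd]; ring
      rw [h2', hS] at this
      linarith
    exact mul_left_cancel₀ (by positivity) e2
  have hd2 : d ^ 2 = (2 * b ^ 2 + a ^ 2) / 2 := by
    have e1 : (2 * S * d) ^ 2 = ((2 * b ^ 2 + a ^ 2) * B2) ^ 2 := by rw [hd']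
    have e2 : 4 * S ^ 2 * d ^ 2 = 4 * S ^ 2 * ((2 * b ^ 2 + a ^ 2) / 2) := by
      have : ((2 * b ^ 2 + a ^ 2) * B2) ^ 2 =
        (2 * b ^ 2 + a ^ 2) * ((2 * b ^ 2 + a ^ 2) * B2 ^ 2) := by ring
      rw [this, hB2] at e1
      linarith
    exact mul_left_cancel₀ (by positivity) e2
  have hUa' : Ua = (8 * b ^ 2 - 2 * a ^ 2) / (2 * b ^ 2 + a ^ 2) := by
    rw [eq_div_iff hN.ne']
    have e2 : a ^ 2 * (Ua * (2 * b ^ 2 + a ^ 2)) = a ^ 2 * (8 * b ^ 2 - 2 * a ^ 2) := by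
      have : a ^ 2 * (Ua * (2 * b ^ 2 + a ^ 2)) = (a ^ 2 * Ua) * (2 * b ^ 2 + a ^ 2) := by ring
      rw [this, hUa]
      have : (-2 * B2) ^ 2 * (2 * b ^ 2 + a ^ 2) = 4 * ((2 * b ^ 2 + a ^ 2) * B2 ^ 2) := by ring
      rw [this, hB2, hS]
      ring
    exact mul_left_cancel₀ (by positivity) e2
  have hUb' : Ub = (2 * b ^ 2 + 4 * a ^ 2) / (2 * b ^ 2 + a ^ 2) := by
    rw [eq_div_iff hN.ne']
    have e2 : a ^ 2 * (Ub * (2 * b ^ 2 + a ^ 2)) = a ^ 2 * (2 * b ^ 2 + 4 * a ^ 2) := by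
      have : a ^ 2 * (Ub * (2 * b ^ 2 + a ^ 2)) = (a ^ 2 * Ub) * (2 * b ^ 2 + a ^ 2) := by ring
      rw [this, hUb]
      have e3 : B1 ^ 2 + B2 ^ 2 = 3 * a ^ 2 - 2 * B2 ^ 2 := by linarith
      have : (3 * a ^ 2 - 2 * B2 ^ 2) * (2 * b ^ 2 + a ^ 2) =
        3 * a ^ 2 * (2 * b ^ 2 + a ^ 2) - 2 * ((2 * b ^ 2 + a ^ 2) * B2 ^ 2) := by ring
      rw [e3, this, hB2, hS]
      ring
    exact mul_left_cancel₀ (by positivity) e2
  refine ⟨hd2, hUa', hUb', ?_⟩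
  have : Uc = 6 - Ua - Ub := by linarith
  rw [this, hUa', hUb']
  field_simp
  ring

/-- the last equation as a polynomial -/
theorem ISO_pol {a b : ℝ} (ha : 0 < a) (hb : 0 < b) (hU : 1 / a + 1 / b + 1 / b = 2)
    (h : ((8 * b ^ 2 - 2 * a ^ 2) / (2 * b ^ 2 + a ^ 2) + (1 / a - a ^ 2 / b ^ 3 - 3 / a)) / a ^ 3 +
      ((2 * b ^ 2 + 4 * a ^ 2) / (2 * b ^ 2 + a ^ 2) +
        (-(1 / (2 * a)) + a ^ 2 / (2 * b ^ 3) - 3 / b)) / b ^ 3 +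
      ((2 * b ^ 2 + 4 * a ^ 2) / (2 * b ^ 2 + a ^ 2) +
        (-(1 / (2 * a)) + a ^ 2 / (2 * b ^ 3) - 3 / b)) / b ^ 3 =
      3 * ((2 * b ^ 2 + a ^ 2) / 2 / b ^ 5 + (2 * b ^ 2 + a ^ 2) / 2 / b ^ 5)) :
    Pol (a / b) = 0 := by
  have hN : 0 < 2 * b ^ 2 + a ^ 2 := by positivity
  have hab : b + 2 * a = 2 * (a * b) := by
    field_simp at hU
    linarith
  have h1 : a * (4 * a ^ 7 + 3 * a ^ 6 * b + 16 * a ^ 5 * b ^ 2 + 8 * a ^ 4 * b ^ 3 +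
      40 * a ^ 3 * b ^ 4 + 20 * a ^ 2 * b ^ 5 + 6 * a * b ^ 6 - 16 * b ^ 7) = 0 := by
    have e1 : (8 * b ^ 2 - 2 * a ^ 2) * (2 * (a * b)) * b ^ 5 +
        2 * (2 * b ^ 2 + a ^ 2) * (b ^ 3 - a ^ 3) ^ 2 - 6 * (2 * b ^ 2 + a ^ 2) * b ^ 6 +
        2 * (4 * a ^ 2 + 2 * b ^ 2) * (2 * (a * b)) * (a ^ 3 * b ^ 2) -
        12 * (2 * b ^ 2 + a ^ 2) * (a ^ 4 * b ^ 2) -
        3 * (2 * b ^ 2 + a ^ 2) ^ 2 * (2 * (a * b)) * a ^ 3 = 0 := by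
      field_simp at h
      linarith
    rw [← hab] at e1
    linarith
  have h2 : 4 * a ^ 7 + 3 * a ^ 6 * b + 16 * a ^ 5 * b ^ 2 + 8 * a ^ 4 * b ^ 3 +
      40 * a ^ 3 * b ^ 4 + 20 * a ^ 2 * b ^ 5 + 6 * a * b ^ 6 - 16 * b ^ 7 = 0 := by
    rcases mul_eq_zero.1 h1 with h | h
    · exact absurd h ha.ne'
    · exact h
  have h3 : Pol (a / b) = (4 * a ^ 7 + 3 * a ^ 6 * b + 16 * a ^ 5 * b ^ 2 + 8 * a ^ 4 * b ^ 3 +
      40 * a ^ 3 * b ^ 4 + 20 * a ^ 2 * b ^ 5 + 6 * a * b ^ 6 - 16 * b ^ 7) / b ^ 7 := by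
    unfold Pol
    field_simp
  rw [h3, h2, zero_div]

theorem thm_ISO : St_ISO := by
  intro ea eb ec ua ub uc h h0 hbc hlt
  have hec : ec = -(ea + eb) := by linear_combination h.he
  have huc : uc = -(ua + ub) := by linear_combination h.hu
  have ha : 0 < ‖ea‖ := norm_pos_iff.2 h.ha
  have hb : 0 < ‖eb‖ := norm_pos_iff.2 h.hb
  have hP : dot ea eb = -(‖ea‖ ^ 2 / 2) := by
    have e1 : ‖ec‖ ^ 2 = ‖ea‖ ^ 2 + 2 * dot ea eb + ‖eb‖ ^ 2 := by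
      rw [hec, norm_sq_eq, norm_sq_eq, norm_sq_eq]
      unfold dot
      simp only [Complex.neg_re, Complex.neg_im, Complex.add_re, Complex.add_im]
      ring
    rw [← hbc] at e1
    linarith
  have hS : cr ea eb ^ 2 = ‖ea‖ ^ 2 * ‖eb‖ ^ 2 - ‖ea‖ ^ 4 / 4 := by
    have e1 := dot_sq_add_cr_sq ea eb
    rw [hP] at e1
    linarith
  have i1 := ISO_dot ea eb ub
  have i2 := ISO_dot ea eb ua
  have i3 := ISO_cr ea eb ub
  have i4 := ISO_cr ea eb ua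
  have i5 := ISO_dot ea ua ua
  have i6 := ISO_dot ea ub ub
  have i7 := ISO_dot ea ua ub
  rw [h0, hP] at i2 i4
  rw [hP] at i1 i3
  rw [h0] at i5 i7
  have hdc : dot ec uc = dot ea ua + dot ea ub + dot eb ua + dot eb ub := by
    rw [hec, huc]
    unfold dot
    simp only [Complex.neg_re, Complex.neg_im, Complex.add_re, Complex.add_im]
    ring
  have hcc : cr ec uc = cr ea ua + cr ea ub + cr eb ua + cr eb ub := by
    rw [hec, huc]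
    unfold cr
    simp only [Complex.neg_re, Complex.neg_im, Complex.add_re, Complex.add_im]
    ring
  have hI1 := h.hI1
  have hJ := h.hJ
  have hK := h.hK
  have hU := h.hU
  have hU2 := h.hU2
  rw [← hbc] at hU
  rw [h0] at hI1
  have k1 : 2 * (cr ea eb * cr ea ub) + cr ea eb * cr ea ua = 0 := by
    rw [hdc, h0] at hI1
    have e : ‖ea‖ ^ 2 * (0 + dot eb ub + (0 + dot ea ub + dot eb ua + dot eb ub)) = 0 := by
      rw [hI1, mul_zero]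
    linarith
  have k2 : 3 * ‖ea‖ ^ 2 * cr ea ua = 4 * cr ea eb * dot ea ub := by
    rw [hcc] at hJ
    have e : ‖ea‖ ^ 2 * (cr ea ua + cr eb ub + (cr ea ua + cr ea ub + cr eb ua + cr eb ub)) = 0 := by
      rw [hJ, mul_zero]
    linarith
  have huc2 : ‖uc‖ ^ 2 = ‖ua‖ ^ 2 + 2 * dot ua ub + ‖ub‖ ^ 2 := by
    rw [huc, norm_sq_eq, norm_sq_eq, norm_sq_eq]
    unfold dot
    simp only [Complex.neg_re, Complex.neg_im, Complex.add_re, Complex.add_im]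
    ring
  rw [dot_self] at i5 i6
  have k3 : 2 * cr ea ua ^ 2 + 2 * (dot ea ub ^ 2 + cr ea ub ^ 2) + 2 * (cr ea ua * cr ea ub) =
      6 * ‖ea‖ ^ 2 := by
    have e : ‖ea‖ ^ 2 * (‖ua‖ ^ 2 + ‖ub‖ ^ 2 + (‖ua‖ ^ 2 + 2 * dot ua ub + ‖ub‖ ^ 2)) =
        ‖ea‖ ^ 2 * 6 := by
      rw [← huc2, hK]
    linarith
  obtain ⟨r1, r2, r3, r4⟩ := ISO_alg (d := dot eb ub) (Ua := ‖ua‖ ^ 2) (Ub := ‖ub‖ ^ 2)
    (Uc := ‖uc‖ ^ 2) ha hb hS hlt k1 k2 k3 (by linarith) (by linarith) (by linarith) hK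
  have hdc2 : dot ec uc ^ 2 = (2 * ‖eb‖ ^ 2 + ‖ea‖ ^ 2) / 2 := by
    have : dot ec uc = -dot eb ub := by linarith
    rw [this, neg_sq, r1]
  -- the vectors
  have g1 : dot ea ec = -(‖ea‖ ^ 2 / 2) := by
    have : dot ea ec = -dot ea ea - dot ea eb := by
      rw [hec]
      unfold dot
      simp only [Complex.neg_re, Complex.neg_im, Complex.add_re, Complex.add_im]
      ring
    rw [this, dot_self, hP]
    ring
  have g2 : dot eb ec = ‖ea‖ ^ 2 / 2 - ‖eb‖ ^ 2 := by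
    have : dot eb ec = -dot ea eb - dot eb eb := by
      rw [hec]
      unfold dot
      simp only [Complex.neg_re, Complex.neg_im, Complex.add_re, Complex.add_im]
      ring
    rw [this, dot_self, hP]
    ring
  have wa : W ea ua (grav ea + grav eb + grav ec) =
      (8 * ‖eb‖ ^ 2 - 2 * ‖ea‖ ^ 2) / (2 * ‖eb‖ ^ 2 + ‖ea‖ ^ 2) +
        (1 / ‖ea‖ - ‖ea‖ ^ 2 / ‖eb‖ ^ 3 - 3 / ‖ea‖) := by
    have e3 : dot ea (3 * grav ea) = 3 * dot ea (grav ea) := by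
      unfold dot
      simp only [Complex.mul_re, Complex.mul_im, Complex.re_ofNat, Complex.im_ofNat]
      ring
    unfold W
    rw [r2, dot_sub_right, dot_add_right, dot_add_right, e3, dot_grav, dot_grav, dot_grav, hP, g1,
      dot_self, ← hbc]
    field_simp
    ring
  have wb : W eb ub (grav ea + grav eb + grav ec) =
      (2 * ‖eb‖ ^ 2 + 4 * ‖ea‖ ^ 2) / (2 * ‖eb‖ ^ 2 + ‖ea‖ ^ 2) +
        (-(1 / (2 * ‖ea‖)) + ‖ea‖ ^ 2 / (2 * ‖eb‖ ^ 3) - 3 / ‖eb‖) := by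
    have e3 : dot eb (3 * grav eb) = 3 * dot eb (grav eb) := by
      unfold dot
      simp only [Complex.mul_re, Complex.mul_im, Complex.re_ofNat, Complex.im_ofNat]
      ring
    unfold W
    rw [r3, dot_sub_right, dot_add_right, dot_add_right, e3, dot_grav, dot_grav, dot_grav, g2,
      dot_comm eb ea, hP, dot_self, ← hbc]
    field_simp
    ring
  have wc : W ec uc (grav ea + grav eb + grav ec) =
      (2 * ‖eb‖ ^ 2 + 4 * ‖ea‖ ^ 2) / (2 * ‖eb‖ ^ 2 + ‖ea‖ ^ 2) +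
        (-(1 / (2 * ‖ea‖)) + ‖ea‖ ^ 2 / (2 * ‖eb‖ ^ 3) - 3 / ‖eb‖) := by
    have e3 : dot ec (3 * grav ec) = 3 * dot ec (grav ec) := by
      unfold dot
      simp only [Complex.mul_re, Complex.mul_im, Complex.re_ofNat, Complex.im_ofNat]
      ring
    unfold W
    rw [r4, dot_sub_right, dot_add_right, dot_add_right, e3, dot_grav, dot_grav, dot_grav,
      dot_comm ec ea, dot_comm ec eb, g1, g2, dot_self, ← hbc]
    field_simp
    ring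
  rw [wa, wb, wc, ← hbc, h0, r1, hdc2] at hU2
  refine ISO_pol ha hb hU ?_
  rw [hU2]
  ring

end Pool.Agent.TBV
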