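import Pool.Agent.TBV.St

/-! # TBV, modules LIP and POL (helper21) -/

set_option autoImplicit false

open Finset Filter Topology
open scoped BigOperators ENNReal

namespace Pool.Agent.TBV

theorem thm_LIP : St_LIP := by
  intro z w hz hw
  have hz0 : 0 < ‖z‖ := by linarith
  have hw0 : 0 < ‖w‖ := by linarith
  obtain ⟨a, ha⟩ : ∃ a : ℝ, a = 1 / ‖z‖ := ⟨_, rfl⟩
  obtain ⟨b, hb⟩ : ∃ b : ℝ, b = 1 / ‖w‖ := ⟨_, rfl⟩
  have ha0 : 0 < a := by rw [ha]; positivity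
  have hb0 : 0 < b := by rw [hb]; positivity
  have ha1 : a ≤ 5 / 2 := by
    rw [ha, div_le_iff₀ hz0]
    linarith
  have hb1 : b ≤ 5 / 2 := by
    rw [hb, div_le_iff₀ hw0]
    linarith
  have haz : a * ‖z‖ = 1 := by rw [ha]; field_simp
  have hbw : b * ‖w‖ = 1 := by rw [hb]; field_simp
  have h3z : 1 / ‖z‖ ^ 3 = a ^ 3 := by rw [ha]; field_simp
  have h3w : 1 / ‖w‖ ^ 3 = b ^ 3 := by rw [hb]; field_simp
  have e1 : grav z - grav w = ((a ^ 3 : ℝ) : ℂ) * (z - w) + ((a ^ 3 - b ^ 3 : ℝ) : ℂ) * w := by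
    unfold grav
    rw [h3z, h3w]
    push_cast
    ring
  have e2 : |a ^ 3 - b ^ 3| * ‖w‖ ≤ ‖z - w‖ * (a * (a ^ 2 + a * b + b ^ 2)) := by
    have e3 : a ^ 3 - b ^ 3 = (‖w‖ - ‖z‖) * (a * b * (a ^ 2 + a * b + b ^ 2)) := by
      have : (‖w‖ - ‖z‖) * (a * b) = a - b := by
        calc (‖w‖ - ‖z‖) * (a * b) = a * (b * ‖w‖) - b * (a * ‖z‖) := by ring
          _ = a - b := by rw [haz, hbw]; ring
      calc a ^ 3 - b ^ 3 = (a - b) * (a ^ 2 + a * b + b ^ 2) := by ring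
        _ = ((‖w‖ - ‖z‖) * (a * b)) * (a ^ 2 + a * b + b ^ 2) := by rw [this]
        _ = (‖w‖ - ‖z‖) * (a * b * (a ^ 2 + a * b + b ^ 2)) := by ring
    have hpos : 0 ≤ a * b * (a ^ 2 + a * b + b ^ 2) := by positivity
    rw [e3, abs_mul, abs_of_nonneg hpos]
    have e4 : |‖w‖ - ‖z‖| ≤ ‖z - w‖ := by
      rw [abs_sub_comm]
      exact abs_norm_sub_norm_le z w
    calc |‖w‖ - ‖z‖| * (a * b * (a ^ 2 + a * b + b ^ 2)) * ‖w‖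
        = |‖w‖ - ‖z‖| * (a * (a ^ 2 + a * b + b ^ 2)) * (b * ‖w‖) := by ring
      _ = |‖w‖ - ‖z‖| * (a * (a ^ 2 + a * b + b ^ 2)) := by rw [hbw, mul_one]
      _ ≤ ‖z - w‖ * (a * (a ^ 2 + a * b + b ^ 2)) :=
          mul_le_mul_of_nonneg_right e4 (by positivity)
  have e5 : ‖grav z - grav w‖ ≤ ‖z - w‖ * (a ^ 3 + a * (a ^ 2 + a * b + b ^ 2)) := by
    rw [e1]
    refine (norm_add_le _ _).trans ?_
    rw [norm_mul, norm_mul, Complex.norm_real, Complex.norm_real, Real.norm_eq_abs,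
      Real.norm_eq_abs, abs_of_nonneg (by positivity : (0 : ℝ) ≤ a ^ 3), mul_add]
    have := e2
    linarith [mul_comm (a ^ 3) ‖z - w‖]
  have e6 : a ^ 3 + a * (a ^ 2 + a * b + b ^ 2) ≤ 63 := by
    have h1 : a ^ 2 ≤ (5 / 2) ^ 2 := pow_le_pow_left₀ ha0.le ha1 2
    have h2 : b ^ 2 ≤ (5 / 2) ^ 2 := pow_le_pow_left₀ hb0.le hb1 2
    have h3 : a * b ≤ 5 / 2 * (5 / 2) := mul_le_mul ha1 hb1 hb0.le (by norm_num)
    have h4 : a ^ 3 ≤ (5 / 2) ^ 3 := pow_le_pow_left₀ ha0.le ha1 3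
    have h5 : a * (a ^ 2 + a * b + b ^ 2) ≤ 5 / 2 * (3 * (5 / 2) ^ 2) :=
      mul_le_mul ha1 (by linarith) (by positivity) (by norm_num)
    have h6 : ((5 : ℝ) / 2) ^ 3 + 5 / 2 * (3 * (5 / 2) ^ 2) ≤ 63 := by norm_num
    linarith
  calc ‖grav z - grav w‖ ≤ ‖z - w‖ * (a ^ 3 + a * (a ^ 2 + a * b + b ^ 2)) := e5
    _ ≤ ‖z - w‖ * 63 := mul_le_mul_of_nonneg_left e6 (norm_nonneg _)
    _ = 63 * ‖z - w‖ := mul_comm _ _

theorem thm_POL1 : St_POL1 := by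
  intro x hx
  unfold Pol
  have h2 : 1 ≤ x ^ 2 := one_le_pow₀ hx
  have h3 : 1 ≤ x ^ 3 := one_le_pow₀ hx
  have h4 : 1 ≤ x ^ 4 := one_le_pow₀ hx
  have h5 : 1 ≤ x ^ 5 := one_le_pow₀ hx
  have h6 : 1 ≤ x ^ 6 := one_le_pow₀ hx
  have h7 : 1 ≤ x ^ 7 := one_le_pow₀ hx
  linarith

theorem thm_POL2 : St_POL2 := by
  intro x hx0 hx1 hP
  have hx : 13 / 25 < x := by
    by_contra hcon
    have hle : x ≤ 13 / 25 := not_lt.1 hcon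
    have h2 : x ^ 2 ≤ (13 / 25) ^ 2 := pow_le_pow_left₀ hx0.le hle 2
    have h3 : x ^ 3 ≤ (13 / 25) ^ 3 := pow_le_pow_left₀ hx0.le hle 3
    have h4 : x ^ 4 ≤ (13 / 25) ^ 4 := pow_le_pow_left₀ hx0.le hle 4
    have h5 : x ^ 5 ≤ (13 / 25) ^ 5 := pow_le_pow_left₀ hx0.le hle 5
    have h6 : x ^ 6 ≤ (13 / 25) ^ 6 := pow_le_pow_left₀ hx0.le hle 6
    have h7 : x ^ 7 ≤ (13 / 25) ^ 7 := pow_le_pow_left₀ hx0.le hle 7
    unfold Pol at hP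
    norm_num at h2 h3 h4 h5 h6 h7
    linarith
  have h2 : x ^ 2 ≤ 1 := pow_le_one₀ hx0.le hx1.le
  have h3 : x ^ 3 ≤ 1 := pow_le_one₀ hx0.le hx1.le
  have hb : 0 < 57 * (x + 13 / 25) - 16 - 8 * (x ^ 2 + 13 / 25 * x + (13 / 25) ^ 2) -
      8 * (x ^ 3 + 13 / 25 * x ^ 2 + (13 / 25) ^ 2 * x + (13 / 25) ^ 3) := by
    norm_num
    linarith
  have h4 := mul_pos (sub_pos.2 hx) hb
  have h5 : 75 * x ^ 2 - 2 * (2 + x ^ 2) * (2 * x + 1) ^ 2 =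
      (x - 13 / 25) * (57 * (x + 13 / 25) - 16 - 8 * (x ^ 2 + 13 / 25 * x + (13 / 25) ^ 2) -
      8 * (x ^ 3 + 13 / 25 * x ^ 2 + (13 / 25) ^ 2 * x + (13 / 25) ^ 3)) +
      (57 * (13 / 25) ^ 2 - 8 * (13 / 25) ^ 4 - 8 * (13 / 25) ^ 3 - 16 * (13 / 25) - 4) := by
    ring
  have h6 : (0 : ℝ) < 57 * (13 / 25) ^ 2 - 8 * (13 / 25) ^ 4 - 8 * (13 / 25) ^ 3 -
      16 * (13 / 25) - 4 := by norm_num
  linarith

end Pool.Agent.TBV
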