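import Pool.Agent.TBV.St

/-!
# TBV, modules MIN and MAX: an edge of extremal length
-/

set_option autoImplicit false

namespace Pool.Agent.TBV

/-- at a critical time of one distance the two other distances are equal -/
private theorem MIN_eq (hDOT : St_DOT) {ea eb ec ua ub uc : ℂ} (h : PT ea eb ec ua ub uc)
    (h0 : dot ea ua = 0) : ‖eb‖ = ‖ec‖ := by
  have hb : 0 < ‖eb‖ := norm_pos_iff.2 h.hb
  have hc : 0 < ‖ec‖ := norm_pos_iff.2 h.hc
  have h1 := h.hI1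
  have h2 := h.hU1
  rw [h0, zero_add] at h1
  rw [h0, zero_div, zero_add] at h2
  have h3 : dot ec uc = -dot eb ub := by linarith
  rw [h3] at h2
  have h4 : dot eb ub * (‖ec‖ ^ 3 - ‖eb‖ ^ 3) = 0 := by
    field_simp at h2
    linarith
  rcases mul_eq_zero.1 h4 with h5 | h5
  · exact (hDOT ea eb ec ua ub uc h h0 h5 (by rw [h3, h5, neg_zero])).elim
  · have h6 : ‖eb‖ ^ 3 = ‖ec‖ ^ 3 := by linarith
    exact (pow_left_inj₀ hb.le hc.le three_ne_zero).1 h6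

/-- the harmonic relation for two equal distances -/
private theorem MIN_hU {ea eb ec ua ub uc : ℂ} (h : PT ea eb ec ua ub uc) (hbc : ‖eb‖ = ‖ec‖) :
    ‖eb‖ + 2 * ‖ea‖ = 2 * ‖ea‖ * ‖eb‖ := by
  have ha : 0 < ‖ea‖ := norm_pos_iff.2 h.ha
  have hb : 0 < ‖eb‖ := norm_pos_iff.2 h.hb
  have h1 := h.hU
  rw [← hbc] at h1
  field_simp at h1
  nlinarith

theorem thm_MIN (hDOT : St_DOT) (hISO : St_ISO) (hPOL2 : St_POL2) : St_MIN := by
  intro ea eb ec ua ub uc h h0 hab hac hne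
  have ha : 0 < ‖ea‖ := norm_pos_iff.2 h.ha
  have hb : 0 < ‖eb‖ := norm_pos_iff.2 h.hb
  have hbc := MIN_eq hDOT h h0
  have hU := MIN_hU h hbc
  have hlt : ‖ea‖ < ‖eb‖ := lt_of_le_of_ne hab fun e => hne ⟨e, hbc⟩
  have hP := hISO ea eb ec ua ub uc h h0 hbc (by linarith)
  have hx0 : 0 < ‖ea‖ / ‖eb‖ := div_pos ha hb
  have hx1 : ‖ea‖ / ‖eb‖ < 1 := by rwa [div_lt_one hb]
  have hQ := hPOL2 _ hx0 hx1 hP
  rw [← hbc]
  set x : ℝ := ‖ea‖ / ‖eb‖ with hx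
  have hax : ‖ea‖ = x * ‖eb‖ := by rw [hx]; field_simp
  rw [hax] at hU ⊢
  have h1 : 2 * x + 1 = 2 * x * ‖eb‖ := by
    have : ‖eb‖ * (2 * x + 1 - 2 * x * ‖eb‖) = 0 := by linarith
    rcases mul_eq_zero.1 this with h2 | h2
    · exact absurd h2 hb.ne'
    · linarith
  rw [h1] at hQ
  have hx2 : 0 < x ^ 2 := by positivity
  have h3 : x ^ 2 * (8 * (2 + x ^ 2) * ‖eb‖ ^ 2) < x ^ 2 * 75 := by nlinarith
  have h4 := lt_of_mul_lt_mul_left h3 hx2.le
  nlinarith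

theorem thm_MAX (hDOT : St_DOT) (hISO : St_ISO) (hPOL1 : St_POL1) : St_MAX := by
  intro ea eb ec ua ub uc h h0 hab hac hne hlt
  have ha : 0 < ‖ea‖ := norm_pos_iff.2 h.ha
  have hb : 0 < ‖eb‖ := norm_pos_iff.2 h.hb
  have hbc := MIN_eq hDOT h h0
  have hU := MIN_hU h hbc
  have hle : ‖ea‖ ≤ 2 * ‖eb‖ := by
    have h1 : ea = -(eb + ec) := by
      have := h.he
      linear_combination this
    calc ‖ea‖ = ‖eb + ec‖ := by rw [h1, norm_neg]
      _ ≤ ‖eb‖ + ‖ec‖ := norm_add_le _ _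
      _ = 2 * ‖eb‖ := by rw [← hbc]; ring
  rcases hle.lt_or_eq with h2 | h2
  · have hP := hISO ea eb ec ua ub uc h h0 hbc h2
    have := hPOL1 (‖ea‖ / ‖eb‖) (by rwa [le_div_iff₀ hb, one_mul])
    rw [hP] at this
    exact lt_irrefl _ this
  · rw [h2] at hU
    have h3 : ‖eb‖ = 5 / 4 := by
      have : ‖eb‖ * (‖eb‖ - 5 / 4) = 0 := by nlinarith
      rcases mul_eq_zero.1 this with h4 | h4
      · exact absurd h4 hb.ne'
      · linarith
    rw [← hbc, h2, h3] at hlt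
    norm_num at hlt

end Pool.Agent.TBV
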