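import Pool.Agent.TBV.St

/-!
# TBV, module NOS: no solution with `U = 2`, positivity of the infimum
-/

set_option autoImplicit false

open Finset Filter Topology
open scoped BigOperators ENNReal

namespace Pool.Agent.TBV

/-- sum of the squares of the distances -/
theorem NOS_sum {x y z : ℂ} (h : x + y + z = 0) :
    ‖y - x‖ ^ 2 + ‖z - y‖ ^ 2 + ‖x - z‖ ^ 2 = 3 * (‖x‖ ^ 2 + ‖y‖ ^ 2 + ‖z‖ ^ 2) := by
  have h1 : x.re + y.re + z.re = 0 := by
    have := congrArg Complex.re h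
    simpa using this
  have h2 : x.im + y.im + z.im = 0 := by
    have := congrArg Complex.im h
    simpa using this
  simp only [norm_sq_eq, Complex.sub_re, Complex.sub_im]
  have e1 : z.re = -(x.re + y.re) := by linarith
  have e2 : z.im = -(x.im + y.im) := by linarith
  rw [e1, e2]
  ring

/-- the derivative of the square of the distance -/
theorem NOS_deriv {E : ℝ} {q v : ℝ → Fin 3 → ℂ} (h : Sol E q v) (t : ℝ) :
    HasDerivAt (fun s => dot (q s 1 - q s 0) (q s 1 - q s 0))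
      (2 * dot (q t 1 - q t 0) (v t 1 - v t 0)) t := by
  have h1 : HasDerivAt (fun s => q s 1 - q s 0) (v t 1 - v t 0) t := (h.vel t 1).sub (h.vel t 0)
  refine (hasDerivAt_dot h1 h1).congr_deriv ?_
  rw [dot_comm (v t 1 - v t 0)]
  ring

theorem NOS_min {E : ℝ} {q v : ℝ → Fin 3 → ℂ} (h : Sol E q v)
    (hm : ∀ t, ‖q 0 1 - q 0 0‖ ≤ ‖q t 1 - q t 0‖) :
    dot (q 0 1 - q 0 0) (v 0 1 - v 0 0) = 0 := by
  have h1 : IsLocalMin (fun s => dot (q s 1 - q s 0) (q s 1 - q s 0)) 0 := by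
    refine Filter.Eventually.of_forall fun t => ?_
    show dot (q 0 1 - q 0 0) (q 0 1 - q 0 0) ≤ dot (q t 1 - q t 0) (q t 1 - q t 0)
    rw [dot_self, dot_self]
    exact pow_le_pow_left₀ (norm_nonneg _) (hm t) 2
  have h2 := h1.hasDerivAt_eq_zero (NOS_deriv h 0)
  linarith

theorem NOS_max {E : ℝ} {q v : ℝ → Fin 3 → ℂ} (h : Sol E q v)
    (hm : ∀ t, ‖q t 1 - q t 0‖ ≤ ‖q 0 1 - q 0 0‖) :
    dot (q 0 1 - q 0 0) (v 0 1 - v 0 0) = 0 := by
  have h1 : IsLocalMax (fun s => dot (q s 1 - q s 0) (q s 1 - q s 0)) 0 := by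
    refine Filter.Eventually.of_forall fun t => ?_
    show dot (q t 1 - q t 0) (q t 1 - q t 0) ≤ dot (q 0 1 - q 0 0) (q 0 1 - q 0 0)
    rw [dot_self, dot_self]
    exact pow_le_pow_left₀ (norm_nonneg _) (hm t) 2
  have h2 := h1.hasDerivAt_eq_zero (NOS_deriv h 0)
  linarith

theorem thm_NOS (hIC : St_IC) (hPTD : St_PTD) (hEQU : St_EQU) (hEXmin : St_EXmin)
    (hEXmax : St_EXmax) (hMIN : St_MIN) (hMAX : St_MAX) : St_NOS := by
  intro q v hS hU
  obtain ⟨I0, hI⟩ := hIC q v hS hU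
  have hne : ∃ q v, Cls I0 q v := ⟨q, v, hS, hU, hI⟩
  have h8 : 8 * (3 * I0) < 75 := by
    obtain ⟨p, w, ⟨hp1, hp2, hp3⟩, hmin⟩ := hEXmin I0 hne
    have h1 := NOS_min hp1 fun t => hmin t 1 0 (by decide)
    have h2 := hMIN _ _ _ _ _ _ (hPTD p w hp1 hp2 0) h1 (hmin 0 2 1 (by decide))
      (hmin 0 0 2 (by decide)) (hEQU p w hp1 hp2 0)
    rwa [NOS_sum (hp1.centre 0), hp3 0] at h2
  obtain ⟨p, w, ⟨hp1, hp2, hp3⟩, hmax⟩ := hEXmax I0 hne
  have h1 := NOS_max hp1 fun t => hmax t 1 0 (by decide)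
  refine hMAX _ _ _ _ _ _ (hPTD p w hp1 hp2 0) h1 (hmax 0 2 1 (by decide))
      (hmax 0 0 2 (by decide)) (hEQU p w hp1 hp2 0) ?_
  rwa [NOS_sum (hp1.centre 0), hp3 0]

theorem thm_POS (hATT : St_ATT) (hNOS : St_NOS) : St_POS := by
  show 0 < epsAll 1
  rw [pos_iff_ne_zero]
  intro h0
  obtain ⟨q, v, hS, hd⟩ := hATT (by
    rw [h0]
    exact ENNReal.ofReal_pos.2 (by norm_num))
  refine hNOS q v hS fun t => ?_
  rw [h0] at hd
  have h1 : ENNReal.ofReal (|U (q t) - 2 * 1| / 2) ≤ dev 1 q :=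
    le_iSup (fun t => ENNReal.ofReal (|U (q t) - 2 * 1| / 2)) t
  rw [hd] at h1
  have h2 : |U (q t) - 2 * 1| / 2 ≤ 0 := ENNReal.ofReal_eq_zero.1 (le_antisymm h1 bot_le)
  have h3 := abs_nonneg (U (q t) - 2 * 1)
  set a : ℝ := |U (q t) - 2 * 1| with ha
  have h4 : a = 0 := by linarith
  rw [ha] at h4
  have h5 := abs_eq_zero.1 h4
  linarith

end Pool.Agent.TBV
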