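import Pool.Agent.TBV.St

/-!
# TBV [PTD]: pointwise relations of a solution with `U = 2` (helper25)
-/

set_option autoImplicit false

open Finset Filter Topology
open scoped BigOperators ENNReal

namespace Pool.Agent.TBV

/-- derivative of the sum of the inverse norms -/
theorem PTD_inv {f : ℝ → ℂ} {f' : ℂ} {t : ℝ} (hf : HasDerivAt f f' t) (h0 : f t ≠ 0) :
    HasDerivAt (fun s => 1 / ‖f s‖) (-(dot (f t) f' / ‖f t‖ ^ 3)) t := by
  have hpos : ‖f t‖ ≠ 0 := norm_ne_zero_iff.2 h0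
  have h1 := (hasDerivAt_norm' hf h0).fun_inv hpos
  have e : (fun s => 1 / ‖f s‖) = fun s => ‖f s‖⁻¹ := by
    funext s
    exact one_div _
  rw [e]
  refine h1.congr_deriv ?_
  field_simp

/-- derivative of `dot e u / ‖e‖ ^ 3` -/
theorem PTD_quot {f g : ℝ → ℂ} {g' : ℂ} {t : ℝ} (hf : HasDerivAt f (g t) t) (hg : HasDerivAt g g' t)
    (h0 : f t ≠ 0) :
    HasDerivAt (fun s => dot (f s) (g s) / ‖f s‖ ^ 3)
      ((‖g t‖ ^ 2 + dot (f t) g') / ‖f t‖ ^ 3 - 3 * (dot (f t) (g t) ^ 2 / ‖f t‖ ^ 5)) t := by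
  have hpos : ‖f t‖ ≠ 0 := norm_ne_zero_iff.2 h0
  have h1 := hasDerivAt_dot hf hg
  have h2 := (hasDerivAt_norm' hf h0).fun_pow 3
  have h3 := h1.fun_div h2 (pow_ne_zero 3 hpos)
  refine h3.congr_deriv ?_
  rw [dot_self]
  field_simp
  ring

/-- [PTD] -/
theorem thm_PTD (hIC : St_IC) : St_PTD := by
  intro q v hS hU
  obtain ⟨I0, hI0⟩ := hIC q v hS hU
  -- the sum of the velocities
  have hv : ∀ t, v t 0 + v t 1 + v t 2 = 0 := by
    intro t
    have h1 := ((hS.vel t 0).fun_add (hS.vel t 1)).fun_add (hS.vel t 2)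
    have h2 : (fun s => q s 0 + q s 1 + q s 2) = fun _ => (0 : ℂ) := by
      funext s
      exact hS.centre s
    rw [h2] at h1
    exact h1.unique (hasDerivAt_const t (0 : ℂ))
  -- the derivative of the moment of inertia
  have hD : ∀ t, dot (q t 0) (v t 0) + dot (q t 1) (v t 1) + dot (q t 2) (v t 2) = 0 := by
    intro t
    have h1 := ((hasDerivAt_dot (hS.vel t 0) (hS.vel t 0)).fun_add
      (hasDerivAt_dot (hS.vel t 1) (hS.vel t 1))).fun_add (hasDerivAt_dot (hS.vel t 2) (hS.vel t 2))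
    have h2 : (fun s => dot (q s 0) (q s 0) + dot (q s 1) (q s 1) + dot (q s 2) (q s 2)) =
        fun _ => I0 := by
      funext s
      rw [dot_self, dot_self, dot_self]
      exact hI0 s
    rw [h2] at h1
    have h3 := h1.unique (hasDerivAt_const t I0)
    rw [dot_comm (v t 0), dot_comm (v t 1), dot_comm (v t 2)] at h3
    linarith
  -- the edges
  have n1 : ∀ t, q t 1 - q t 0 ≠ 0 := fun t => sub_ne_zero.2 (hS.free t 1 0 (by decide))
  have n2 : ∀ t, q t 2 - q t 1 ≠ 0 := fun t => sub_ne_zero.2 (hS.free t 2 1 (by decide))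
  have n3 : ∀ t, q t 0 - q t 2 ≠ 0 := fun t => sub_ne_zero.2 (hS.free t 0 2 (by decide))
  have d1 : ∀ t, HasDerivAt (fun s => q s 1 - q s 0) (v t 1 - v t 0) t := fun t =>
    (hS.vel t 1).fun_sub (hS.vel t 0)
  have d2 : ∀ t, HasDerivAt (fun s => q s 2 - q s 1) (v t 2 - v t 1) t := fun t =>
    (hS.vel t 2).fun_sub (hS.vel t 1)
  have d3 : ∀ t, HasDerivAt (fun s => q s 0 - q s 2) (v t 0 - v t 2) t := fun t =>
    (hS.vel t 0).fun_sub (hS.vel t 2)
  have e1 : ∀ t, HasDerivAt (fun s => v s 1 - v s 0) (grav (q t 1 - q t 0) + grav (q t 2 - q t 1) +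
      grav (q t 0 - q t 2) - 3 * grav (q t 1 - q t 0)) t := by
    intro t
    refine ((hS.newton t 1).fun_sub (hS.newton t 0)).congr_deriv ?_
    rw [acc_one, acc_zero, ← neg_sub (q t 1) (q t 0), ← neg_sub (q t 0) (q t 2), grav_neg, grav_neg]
    ring
  have e2 : ∀ t, HasDerivAt (fun s => v s 2 - v s 1) (grav (q t 1 - q t 0) + grav (q t 2 - q t 1) +
      grav (q t 0 - q t 2) - 3 * grav (q t 2 - q t 1)) t := by
    intro t
    refine ((hS.newton t 2).fun_sub (hS.newton t 1)).congr_deriv ?_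
    rw [acc_two, acc_one, ← neg_sub (q t 2) (q t 1), ← neg_sub (q t 1) (q t 0), grav_neg, grav_neg]
    ring
  have e3 : ∀ t, HasDerivAt (fun s => v s 0 - v s 2) (grav (q t 1 - q t 0) + grav (q t 2 - q t 1) +
      grav (q t 0 - q t 2) - 3 * grav (q t 0 - q t 2)) t := by
    intro t
    refine ((hS.newton t 0).fun_sub (hS.newton t 2)).congr_deriv ?_
    rw [acc_zero, acc_two, ← neg_sub (q t 0) (q t 2), ← neg_sub (q t 2) (q t 1), grav_neg, grav_neg]
    ring
  -- U = 2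
  have hU' : ∀ t, 1 / ‖q t 1 - q t 0‖ + 1 / ‖q t 2 - q t 1‖ + 1 / ‖q t 0 - q t 2‖ = 2 := by
    intro t
    have h := hU t
    unfold U at h
    rw [norm_sub_rev (q t 1) (q t 0), norm_sub_rev (q t 2) (q t 1)]
    linarith
  have hU1 : ∀ t, dot (q t 1 - q t 0) (v t 1 - v t 0) / ‖q t 1 - q t 0‖ ^ 3 +
      dot (q t 2 - q t 1) (v t 2 - v t 1) / ‖q t 2 - q t 1‖ ^ 3 +
      dot (q t 0 - q t 2) (v t 0 - v t 2) / ‖q t 0 - q t 2‖ ^ 3 = 0 := by
    intro t
    have h1 := ((PTD_inv (d1 t) (n1 t)).fun_add (PTD_inv (d2 t) (n2 t))).fun_add (PTD_inv (d3 t) (n3 t))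
    have h2 : (fun s => 1 / ‖q s 1 - q s 0‖ + 1 / ‖q s 2 - q s 1‖ + 1 / ‖q s 0 - q s 2‖) =
        fun _ => (2 : ℝ) := by
      funext s
      exact hU' s
    rw [h2] at h1
    have h3 := h1.unique (hasDerivAt_const t (2 : ℝ))
    linarith
  have hU2 : ∀ t, (‖v t 1 - v t 0‖ ^ 2 + dot (q t 1 - q t 0) (grav (q t 1 - q t 0) +
      grav (q t 2 - q t 1) + grav (q t 0 - q t 2) - 3 * grav (q t 1 - q t 0))) / ‖q t 1 - q t 0‖ ^ 3 -
      3 * (dot (q t 1 - q t 0) (v t 1 - v t 0) ^ 2 / ‖q t 1 - q t 0‖ ^ 5) +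
      ((‖v t 2 - v t 1‖ ^ 2 + dot (q t 2 - q t 1) (grav (q t 1 - q t 0) +
      grav (q t 2 - q t 1) + grav (q t 0 - q t 2) - 3 * grav (q t 2 - q t 1))) / ‖q t 2 - q t 1‖ ^ 3 -
      3 * (dot (q t 2 - q t 1) (v t 2 - v t 1) ^ 2 / ‖q t 2 - q t 1‖ ^ 5)) +
      ((‖v t 0 - v t 2‖ ^ 2 + dot (q t 0 - q t 2) (grav (q t 1 - q t 0) +
      grav (q t 2 - q t 1) + grav (q t 0 - q t 2) - 3 * grav (q t 0 - q t 2))) / ‖q t 0 - q t 2‖ ^ 3 -
      3 * (dot (q t 0 - q t 2) (v t 0 - v t 2) ^ 2 / ‖q t 0 - q t 2‖ ^ 5)) = 0 := by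
    intro t
    have h1 := ((PTD_quot (d1 t) (e1 t) (n1 t)).fun_add (PTD_quot (d2 t) (e2 t) (n2 t))).fun_add
      (PTD_quot (d3 t) (e3 t) (n3 t))
    have h2 : (fun s => dot (q s 1 - q s 0) (v s 1 - v s 0) / ‖q s 1 - q s 0‖ ^ 3 +
      dot (q s 2 - q s 1) (v s 2 - v s 1) / ‖q s 2 - q s 1‖ ^ 3 +
      dot (q s 0 - q s 2) (v s 0 - v s 2) / ‖q s 0 - q s 2‖ ^ 3) = fun _ => (0 : ℝ) := by
      funext s
      exact hU1 s
    rw [h2] at h1
    exact h1.unique (hasDerivAt_const t (0 : ℝ))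
  intro t
  have hq := hS.centre t
  have hvt := hv t
  have hDt := hD t
  have hJt := hS.momentum t
  have hEt := hS.energy t
  rw [hU t] at hEt
  have r1 : (q t 0).re + (q t 1).re + (q t 2).re = 0 := by
    have := congrArg Complex.re hq
    simpa using this
  have r2 : (q t 0).im + (q t 1).im + (q t 2).im = 0 := by
    have := congrArg Complex.im hq
    simpa using this
  have r3 : (v t 0).re + (v t 1).re + (v t 2).re = 0 := by
    have := congrArg Complex.re hvt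
    simpa using this
  have r4 : (v t 0).im + (v t 1).im + (v t 2).im = 0 := by
    have := congrArg Complex.im hvt
    simpa using this
  have h2U := hU2 t
  refine ⟨n1 t, n2 t, n3 t, by ring, by ring, hU' t, ?_, hU1 t, ?_, ?_, ?_⟩
  · unfold dot at hDt ⊢
    simp only [Complex.sub_re, Complex.sub_im]
    linear_combination 3 * hDt - ((q t 0).re + (q t 1).re + (q t 2).re) * r3 -
      ((q t 0).im + (q t 1).im + (q t 2).im) * r4
  · unfold cr at hJt ⊢
    simp only [Complex.sub_re, Complex.sub_im]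
    linear_combination 3 * hJt - ((q t 0).re + (q t 1).re + (q t 2).re) * r4 +
      ((q t 0).im + (q t 1).im + (q t 2).im) * r3
  · rw [norm_sq_eq, norm_sq_eq, norm_sq_eq] at hEt ⊢
    simp only [Complex.sub_re, Complex.sub_im]
    linear_combination 6 * hEt - ((v t 0).re + (v t 1).re + (v t 2).re) * r3 -
      ((v t 0).im + (v t 1).im + (v t 2).im) * r4
  · unfold W
    linarith

end Pool.Agent.TBV
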