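import Pool.Agent.TBV.St

/-! TBV: module RIG (proof by helper89 of `St_RIG` of helper73). -/

set_option autoImplicit false

namespace Pool.Agent.TBV

theorem RIG_par (e u : ℂ) (he : e ≠ 0) (h : dot e u = 0) :
    ∃ α : ℝ, u.re = -α * e.im ∧ u.im = α * e.re := by
  have hn : e.re ^ 2 + e.im ^ 2 ≠ 0 := by
    rw [← norm_sq_eq]
    have : 0 < ‖e‖ := norm_pos_iff.2 he
    positivity
  unfold dot at h
  refine ⟨(e.re * u.im - e.im * u.re) / (e.re ^ 2 + e.im ^ 2), ?_, ?_⟩
  · rw [neg_mul, div_mul_eq_mul_div, ← neg_div, eq_div_iff hn]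
    linear_combination e.re * h
  · rw [div_mul_eq_mul_div, eq_div_iff hn]
    linear_combination e.im * h

theorem thm_RIG : St_RIG := by
  intro ea eb ec ua ub uc hP ha hb hc
  by_contra hS
  obtain ⟨α, a1, a2⟩ := RIG_par ea ua hP.ha ha
  obtain ⟨β, b1, b2⟩ := RIG_par eb ub hP.hb hb
  obtain ⟨γ, c1, c2⟩ := RIG_par ec uc hP.hc hc
  have her : ea.re + eb.re + ec.re = 0 := by
    have := congrArg Complex.re hP.he
    simpa using this
  have hei : ea.im + eb.im + ec.im = 0 := by
    have := congrArg Complex.im hP.he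
    simpa using this
  have hur : ua.re + ub.re + uc.re = 0 := by
    have := congrArg Complex.re hP.hu
    simpa using this
  have hui : ua.im + ub.im + uc.im = 0 := by
    have := congrArg Complex.im hP.hu
    simpa using this
  unfold cr at hS
  have h1 : (α - γ) * ea.im + (β - γ) * eb.im = 0 := by
    rw [a1, b1, c1] at hur
    linear_combination -hur - γ * hei
  have h2 : (α - γ) * ea.re + (β - γ) * eb.re = 0 := by
    rw [a2, b2, c2] at hui
    linear_combination hui - γ * her
  have h3 : (α - γ) * (ea.re * eb.im - ea.im * eb.re) = 0 := by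
    linear_combination eb.im * h2 - eb.re * h1
  have h4 : (β - γ) * (ea.re * eb.im - ea.im * eb.re) = 0 := by
    linear_combination ea.re * h1 - ea.im * h2
  have h5 : α = γ := by
    rcases mul_eq_zero.1 h3 with h | h
    · linarith
    · exact absurd h hS
  have h6 : β = γ := by
    rcases mul_eq_zero.1 h4 with h | h
    · linarith
    · exact absurd h hS
  have hJ := hP.hJ
  unfold cr at hJ
  rw [a1, a2, b1, b2, c1, c2, h5, h6] at hJ
  have hJ2 : γ * (‖ea‖ ^ 2 + ‖eb‖ ^ 2 + ‖ec‖ ^ 2) = 0 := by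
    rw [norm_sq_eq, norm_sq_eq, norm_sq_eq]
    linear_combination hJ
  have hpos : 0 < ‖ea‖ := norm_pos_iff.2 hP.ha
  have hγ : γ = 0 := by
    rcases mul_eq_zero.1 hJ2 with h | h
    · exact h
    · exfalso
      have : 0 < ‖ea‖ ^ 2 + ‖eb‖ ^ 2 + ‖ec‖ ^ 2 := by positivity
      linarith
  have hK := hP.hK
  rw [norm_sq_eq, norm_sq_eq, norm_sq_eq, a1, a2, b1, b2, c1, c2, h5, h6, hγ] at hK
  norm_num at hK

end Pool.Agent.TBV
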