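import Pool.Agent.TBV.St

/-!
# TBV, module SCL: scaling (helper55)
-/

set_option autoImplicit false

open Finset Filter Topology
open scoped BigOperators ENNReal

namespace Pool.Agent.TBV

theorem SCL_norm {a : ℝ} (ha : 0 < a) (z : ℂ) : ‖(a : ℂ) * z‖ = a * ‖z‖ := by
  rw [norm_mul, Complex.norm_real, Real.norm_of_nonneg ha.le]

theorem SCL_grav {μ : ℝ} (hμ : 0 < μ) (z : ℂ) :
    grav (((μ ^ 2 : ℝ) : ℂ) * z) = ((1 / μ ^ 4 : ℝ) : ℂ) * grav z := by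
  unfold grav
  rw [SCL_norm (by positivity)]
  by_cases hz : z = 0
  · rw [hz]
    simp
  · have hz' : 0 < ‖z‖ := norm_pos_iff.2 hz
    have h : (1 / (μ ^ 2 * ‖z‖) ^ 3 : ℝ) * μ ^ 2 = 1 / μ ^ 4 * (1 / ‖z‖ ^ 3) := by
      field_simp
    rw [← mul_assoc, ← mul_assoc, ← Complex.ofReal_mul, ← Complex.ofReal_mul, h]

theorem SCL_acc {μ : ℝ} (hμ : 0 < μ) (q : Fin 3 → ℂ) (i : Fin 3) :
    acc (fun i => ((μ ^ 2 : ℝ) : ℂ) * q i) i = ((1 / μ ^ 4 : ℝ) : ℂ) * acc q i := by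
  unfold acc
  rw [Finset.mul_sum]
  refine Finset.sum_congr rfl fun j _ => ?_
  rw [← mul_sub, SCL_grav hμ]

theorem SCL_U {μ : ℝ} (hμ : 0 < μ) (q : Fin 3 → ℂ) :
    U (fun i => ((μ ^ 2 : ℝ) : ℂ) * q i) = U q / μ ^ 2 := by
  have h : ∀ z : ℂ, 1 / (μ ^ 2 * ‖z‖) = 1 / ‖z‖ / μ ^ 2 := by
    intro z
    rw [div_div, mul_comm]
  unfold U
  rw [← mul_sub, ← mul_sub, ← mul_sub, SCL_norm (by positivity), SCL_norm (by positivity),
    SCL_norm (by positivity), h, h, h, ← add_div, ← add_div]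

theorem SCL_cr (a b : ℝ) (z w : ℂ) : cr ((a : ℂ) * z) ((b : ℂ) * w) = a * b * cr z w := by
  unfold cr
  rw [Complex.re_ofReal_mul, Complex.im_ofReal_mul, Complex.re_ofReal_mul,
    Complex.im_ofReal_mul]
  ring

theorem SCL_deriv {μ c : ℝ} {f : ℝ → ℂ} {f' : ℂ} {t : ℝ}
    (hf : HasDerivAt f f' (t / μ ^ 3)) :
    HasDerivAt (fun s => (c : ℂ) * f (s / μ ^ 3)) (((c * (1 / μ ^ 3) : ℝ) : ℂ) * f') t := by
  have h1 : HasDerivAt (fun s : ℝ => s / μ ^ 3) (1 / μ ^ 3) t := (hasDerivAt_id t).div_const _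
  have h2 := (HasDerivAt.scomp t hf h1).const_mul (c : ℂ)
  refine h2.congr_deriv ?_
  rw [Complex.real_smul, Complex.ofReal_mul, mul_assoc]

theorem thm_SCALE : St_SCALE := by
  intro E μ q v hμ hS
  have hμ2 : ((μ ^ 2 : ℝ) : ℂ) ≠ 0 := by
    rw [Complex.ofReal_ne_zero]
    positivity
  refine ⟨?_, ?_, ?_, ?_, ?_, ?_⟩
  · intro t i j hij h
    exact hS.free (t / μ ^ 3) i j hij (mul_left_cancel₀ hμ2 h)
  · intro t
    show ((μ ^ 2 : ℝ) : ℂ) * q (t / μ ^ 3) 0 + ((μ ^ 2 : ℝ) : ℂ) * q (t / μ ^ 3) 1 +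
      ((μ ^ 2 : ℝ) : ℂ) * q (t / μ ^ 3) 2 = 0
    rw [← mul_add, ← mul_add, hS.centre, mul_zero]
  · intro t i
    refine (SCL_deriv (μ := μ) (c := μ ^ 2) (hS.vel (t / μ ^ 3) i)).congr_deriv ?_
    have h : μ ^ 2 * (1 / μ ^ 3) = 1 / μ := by field_simp
    rw [h]
  · intro t i
    refine (SCL_deriv (μ := μ) (c := 1 / μ) (hS.newton (t / μ ^ 3) i)).congr_deriv ?_
    rw [SCL_acc hμ]
    have h : 1 / μ * (1 / μ ^ 3) = 1 / μ ^ 4 := by field_simp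
    rw [h]
  · intro t
    show (‖((1 / μ : ℝ) : ℂ) * v (t / μ ^ 3) 0‖ ^ 2 + ‖((1 / μ : ℝ) : ℂ) * v (t / μ ^ 3) 1‖ ^ 2 +
      ‖((1 / μ : ℝ) : ℂ) * v (t / μ ^ 3) 2‖ ^ 2) / 2 -
      U (fun i => ((μ ^ 2 : ℝ) : ℂ) * q (t / μ ^ 3) i) = -(E / μ ^ 2)
    have h := hS.energy (t / μ ^ 3)
    rw [SCL_U hμ, SCL_norm (by positivity), SCL_norm (by positivity), SCL_norm (by positivity),
      ← neg_div, ← h]
    ring
  · intro t
    show cr (((μ ^ 2 : ℝ) : ℂ) * q (t / μ ^ 3) 0) (((1 / μ : ℝ) : ℂ) * v (t / μ ^ 3) 0) +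
      cr (((μ ^ 2 : ℝ) : ℂ) * q (t / μ ^ 3) 1) (((1 / μ : ℝ) : ℂ) * v (t / μ ^ 3) 1) +
      cr (((μ ^ 2 : ℝ) : ℂ) * q (t / μ ^ 3) 2) (((1 / μ : ℝ) : ℂ) * v (t / μ ^ 3) 2) = 0
    rw [SCL_cr, SCL_cr, SCL_cr, ← mul_add, ← mul_add, hS.momentum, mul_zero]

theorem thm_DEVS : St_DEVS := by
  intro E μ q hμ
  unfold dev
  rw [ENNReal.mul_iSup]
  have hsurj : Function.Surjective (fun t : ℝ => t / μ ^ 3) := by
    intro s
    refine ⟨s * μ ^ 3, ?_⟩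
    show s * μ ^ 3 / μ ^ 3 = s
    rw [mul_div_cancel_right₀ _ (by positivity)]
  have hr : (⨆ t : ℝ, ENNReal.ofReal (1 / μ ^ 2) * ENNReal.ofReal (|U (q t) - 2 * E| / 2)) =
      ⨆ t : ℝ, ENNReal.ofReal (1 / μ ^ 2) *
        ENNReal.ofReal (|U (q (t / μ ^ 3)) - 2 * E| / 2) :=
    (hsurj.iSup_comp (fun s : ℝ => ENNReal.ofReal (1 / μ ^ 2) *
      ENNReal.ofReal (|U (q s) - 2 * E| / 2))).symm
  rw [hr]
  refine iSup_congr fun t => ?_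
  rw [← ENNReal.ofReal_mul (by positivity)]
  congr 1
  have h1 : U (fun i => ((μ ^ 2 : ℝ) : ℂ) * q (t / μ ^ 3) i) = U (q (t / μ ^ 3)) / μ ^ 2 :=
    SCL_U hμ _
  rw [h1]
  have h2 : U (q (t / μ ^ 3)) / μ ^ 2 - 2 * (E / μ ^ 2) =
      (1 / μ ^ 2) * (U (q (t / μ ^ 3)) - 2 * E) := by ring
  rw [h2, abs_mul, abs_of_pos (by positivity : 0 < 1 / μ ^ 2), mul_div_assoc]

theorem SCL_mulle {a : ℝ} (ha : 0 < a) {x y : ℝ≥0∞} (h : x ≤ ENNReal.ofReal (1 / a) * y) :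
    ENNReal.ofReal a * x ≤ y := by
  calc ENNReal.ofReal a * x ≤ ENNReal.ofReal a * (ENNReal.ofReal (1 / a) * y) := by gcongr
    _ = y := by
        rw [← mul_assoc, ← ENNReal.ofReal_mul ha.le, mul_one_div_cancel ha.ne',
          ENNReal.ofReal_one, one_mul]

theorem SCL_all (E μ : ℝ) (hμ : 0 < μ) :
    ENNReal.ofReal (μ ^ 2) * epsAll (E / μ ^ 2) ≤ epsAll E := by
  unfold epsAll
  refine le_iInf fun q => le_iInf fun v => le_iInf fun hS => ?_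
  refine SCL_mulle (by positivity) ?_
  rw [← thm_DEVS E μ q hμ]
  exact iInf_le_of_le _ (iInf_le_of_le _ (iInf_le_of_le (thm_SCALE E μ q v hμ hS) le_rfl))

theorem SCL_star (E μ : ℝ) (hμ : 0 < μ) :
    ENNReal.ofReal (μ ^ 2) * epsStar (E / μ ^ 2) ≤ epsStar E := by
  unfold epsStar
  refine le_iInf fun q => le_iInf fun v => le_iInf fun hS => le_iInf fun hp => ?_
  refine SCL_mulle (by positivity) ?_
  rw [← thm_DEVS E μ q hμ]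
  have hp' : ∃ T : ℝ, 0 < T ∧ ∀ t, (fun (t : ℝ) (i : Fin 3) =>
      ((μ ^ 2 : ℝ) : ℂ) * q (t / μ ^ 3) i) (t + T) =
      (fun (t : ℝ) (i : Fin 3) => ((μ ^ 2 : ℝ) : ℂ) * q (t / μ ^ 3) i) t := by
    obtain ⟨T, hT, h⟩ := hp
    refine ⟨T * μ ^ 3, by positivity, fun t => ?_⟩
    have h1 : (t + T * μ ^ 3) / μ ^ 3 = t / μ ^ 3 + T := by
      rw [add_div, mul_div_cancel_right₀ _ (by positivity)]
    funext i
    show ((μ ^ 2 : ℝ) : ℂ) * q ((t + T * μ ^ 3) / μ ^ 3) i =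
      ((μ ^ 2 : ℝ) : ℂ) * q (t / μ ^ 3) i
    rw [h1, h]
  exact iInf_le_of_le _ (iInf_le_of_le _ (iInf_le_of_le (thm_SCALE E μ q v hμ hS)
    (iInf_le_of_le hp' le_rfl)))

theorem SCL_two (F : ℝ → ℝ≥0∞) (hF : ∀ E μ : ℝ, 0 < μ →
    ENNReal.ofReal (μ ^ 2) * F (E / μ ^ 2) ≤ F E) {E : ℝ} (hE : 0 < E) :
    F E = ENNReal.ofReal E * F 1 := by
  have hs : 0 < √E := Real.sqrt_pos.2 hE
  have hs2 : √E ^ 2 = E := Real.sq_sqrt hE.le
  apply le_antisymm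
  · have h := hF 1 (1 / √E) (by positivity)
    have e1 : (1 / √E) ^ 2 = 1 / E := by rw [div_pow, one_pow, hs2]
    have e2 : (1 : ℝ) / (1 / E) = E := one_div_one_div E
    rw [e1, e2] at h
    calc F E = ENNReal.ofReal E * (ENNReal.ofReal (1 / E) * F E) := by
          rw [← mul_assoc, ← ENNReal.ofReal_mul hE.le, mul_one_div_cancel hE.ne',
            ENNReal.ofReal_one, one_mul]
      _ ≤ ENNReal.ofReal E * F 1 := by gcongr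
  · have h := hF E (√E) hs
    rw [hs2, div_self hE.ne'] at h
    exact h

theorem thm_EPS : St_EPS := by
  intro E hE
  have hs : 0 < √E := Real.sqrt_pos.2 hE
  have hs2 : √E ^ 2 = E := Real.sq_sqrt hE.le
  have hall := SCL_two epsAll SCL_all hE
  refine ⟨hall, SCL_two epsStar SCL_star hE, ?_⟩
  rintro ⟨q, v, hS, hd⟩
  have e1 : (1 / √E) ^ 2 = 1 / E := by rw [div_pow, one_pow, hs2]
  have e2 : (1 : ℝ) / (1 / √E) ^ 2 = E := by rw [e1, one_div_one_div]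
  have h1 := thm_SCALE 1 (1 / √E) q v (by positivity) hS
  have h2 := thm_DEVS 1 (1 / √E) q (by positivity)
  rw [e2] at h1 h2
  refine ⟨_, _, h1, ?_⟩
  rw [h2, hall, hd]

end Pool.Agent.TBV
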