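import Pool.Agent.TBV.St

/-!
# TBV: minimising sequence (helper9)
-/

set_option autoImplicit false

open Finset Filter Topology
open scoped BigOperators ENNReal

namespace Pool.Agent.TBV

theorem ATT_bound {q : Fin 3 → ℂ} (hc : q 0 + q 1 + q 2 = 0) (h : ∀ i j, ‖q i - q j‖ ≤ 100)
    (i : Fin 3) : ‖q i‖ ≤ 100 := by
  have h1 : (3 : ℂ) * q i = (q i - q 0) + (q i - q 1) + (q i - q 2) := by
    have : (q i - q 0) + (q i - q 1) + (q i - q 2) = 3 * q i - (q 0 + q 1 + q 2) := by ring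
    rw [this, hc, sub_zero]
  have h2 : 3 * ‖q i‖ ≤ 300 := by
    have h3 : ‖(3 : ℂ) * q i‖ = 3 * ‖q i‖ := by
      rw [norm_mul]
      norm_num
    rw [← h3, h1]
    have h4 := norm_add_le ((q i - q 0) + (q i - q 1)) (q i - q 2)
    have h5 := norm_add_le (q i - q 0) (q i - q 1)
    have h6 := h i 0
    have h7 := h i 1
    have h8 := h i 2
    linarith
  linarith

theorem thm_ATT (hESC : St_ESC) (hSHIFT : St_SHIFT) (hCPT : St_CPT) : St_ATT := by
  intro h0
  have h1 : ∀ k : ℕ, ∃ q v, Sol 1 q v ∧ dev 1 q < ENNReal.ofReal (1 / 4) ∧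
      dev 1 q ≤ epsAll 1 + ((k : ℝ≥0∞) + 1)⁻¹ := by
    intro k
    have hne : epsAll 1 ≠ ⊤ := ne_top_of_lt h0
    have h2 : epsAll 1 < min (ENNReal.ofReal (1 / 4)) (epsAll 1 + ((k : ℝ≥0∞) + 1)⁻¹) := by
      refine lt_min h0 (ENNReal.lt_add_right hne ?_)
      refine ENNReal.inv_ne_zero.2 ?_
      exact ENNReal.add_ne_top.2 ⟨ENNReal.natCast_ne_top k, ENNReal.one_ne_top⟩
    unfold epsAll at h2
    simp only [iInf_lt_iff] at h2
    obtain ⟨q, v, hs, hd⟩ := h2
    exact ⟨q, v, hs, (lt_min_iff.1 hd).1, (lt_min_iff.1 hd).2.le⟩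
  choose q v hs hd he using h1
  have hU : ∀ k t, |U (q k t) - 2| ≤ 1 / 2 := by
    intro k t
    have h2 : ENNReal.ofReal (|U (q k t) - 2 * 1| / 2) ≤ dev 1 (q k) :=
      le_iSup (fun t => ENNReal.ofReal (|U (q k t) - 2 * 1| / 2)) t
    have h3 := (ENNReal.ofReal_lt_ofReal_iff (by norm_num : (0 : ℝ) < 1 / 4)).1 (h2.trans_lt (hd k))
    rw [mul_one] at h3
    linarith
  choose s hsp using fun k => hESC (q k) (v k) (hs k) (hU k)
  obtain ⟨φ, p, w, hφ, hp, -, hpU⟩ := hCPT 100 (fun k t => q k (t + s k)) (fun k t => v k (t + s k))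
    (fun k => hSHIFT 1 (s k) (q k) (v k) (hs k)) (fun k t => hU k (t + s k)) (fun k i => by
      refine ATT_bound ((hs k).centre _) (fun i j => ?_) i
      have h2 := hsp k i j
      simpa using h2)
  refine ⟨p, w, hp, le_antisymm (iSup_le fun t => ?_) ?_⟩
  · have t1 : Tendsto (fun k => ENNReal.ofReal (|U (q (φ k) (t + s (φ k))) - 2 * 1| / 2)) atTop
        (𝓝 (ENNReal.ofReal (|U (p t) - 2 * 1| / 2))) :=
      ENNReal.tendsto_ofReal ((((hpU t).sub_const (2 * 1)).abs).div_const 2)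
    have t2 : Tendsto (fun k => epsAll 1 + (((φ k : ℕ) : ℝ≥0∞) + 1)⁻¹) atTop
        (𝓝 (epsAll 1 + 0)) := by
      refine Tendsto.add tendsto_const_nhds ?_
      have t3 : Tendsto (fun n : ℕ => ((n : ℝ≥0∞))⁻¹) atTop (𝓝 0) :=
        ENNReal.tendsto_inv_nat_nhds_zero
      have t4 : Tendsto (fun k => φ k + 1) atTop atTop :=
        tendsto_atTop_mono (fun k => Nat.le_succ (φ k)) hφ.tendsto_atTop
      have t5 := t3.comp t4
      refine t5.congr fun k => ?_
      simp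
    rw [add_zero] at t2
    refine le_of_tendsto_of_tendsto' t1 t2 fun k => ?_
    refine le_trans ?_ (he (φ k))
    exact le_iSup (fun t => ENNReal.ofReal (|U (q (φ k) t) - 2 * 1| / 2)) (t + s (φ k))
  · unfold epsAll
    exact iInf_le_of_le p (iInf_le_of_le w (iInf_le_of_le hp le_rfl))

end Pool.Agent.TBV
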