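import Mathlib

/-!
# TBV: the planar equal mass three-body problem (MP_47565f_mp)

Three bodies of mass one in the plane `ℂ`, gravitational constant one, centre of mass at the
origin. `U` is the force function, a solution of class `Sol E` is defined for all times, free of
collisions, has energy `-E` and angular momentum zero.
-/

set_option autoImplicit false

open Finset Filter Topology
open scoped BigOperators ENNReal

namespace Pool.Agent.TBV

/-- cross product of two vectors of the plane -/
def cr (z w : ℂ) : ℝ := z.re * w.im - z.im * w.re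

/-- force function -/
noncomputable def U (q : Fin 3 → ℂ) : ℝ :=
  1 / ‖q 0 - q 1‖ + 1 / ‖q 0 - q 2‖ + 1 / ‖q 1 - q 2‖

/-- the vector `z / |z| ^ 3` -/
noncomputable def grav (z : ℂ) : ℂ := ((1 / ‖z‖ ^ 3 : ℝ) : ℂ) * z

/-- acceleration of body `i` (the gradient of `U` with respect to the position of body `i`) -/
noncomputable def acc (q : Fin 3 → ℂ) (i : Fin 3) : ℂ := ∑ j ∈ univ.erase i, grav (q j - q i)

/-- `q` is a solution of the equal mass planar three-body problem without collisions, defined for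
all times, with velocity `v`, centre of mass at the origin, energy `-E` and angular momentum
zero -/
structure Sol (E : ℝ) (q v : ℝ → Fin 3 → ℂ) : Prop where
  free : ∀ t i j, i ≠ j → q t i ≠ q t j
  centre : ∀ t, q t 0 + q t 1 + q t 2 = 0
  vel : ∀ t i, HasDerivAt (fun s => q s i) (v t i) t
  newton : ∀ t i, HasDerivAt (fun s => v s i) (acc (q t) i) t
  energy : ∀ t, (‖v t 0‖ ^ 2 + ‖v t 1‖ ^ 2 + ‖v t 2‖ ^ 2) / 2 - U (q t) = -E
  momentum : ∀ t, cr (q t 0) (v t 0) + cr (q t 1) (v t 1) + cr (q t 2) (v t 2) = 0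

/-- the number `sup |U (q t) - 2 E| / 2` over all times `t`, in `[0, ∞]` -/
noncomputable def dev (E : ℝ) (q : ℝ → Fin 3 → ℂ) : ℝ≥0∞ :=
  ⨆ t, ENNReal.ofReal (|U (q t) - 2 * E| / 2)

/-- infimum of `dev` over the periodic solutions of energy `-E` and angular momentum zero -/
noncomputable def epsStar (E : ℝ) : ℝ≥0∞ :=
  ⨅ (q : ℝ → Fin 3 → ℂ) (v : ℝ → Fin 3 → ℂ) (_ : Sol E q v)
    (_ : ∃ T : ℝ, 0 < T ∧ ∀ t, q (t + T) = q t), dev E q

/-- infimum of `dev` over all solutions defined for all times, of energy `-E` and angular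
momentum zero -/
noncomputable def epsAll (E : ℝ) : ℝ≥0∞ :=
  ⨅ (q : ℝ → Fin 3 → ℂ) (v : ℝ → Fin 3 → ℂ) (_ : Sol E q v), dev E q

end Pool.Agent.TBV
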