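import Pool.Agent.TBV.Core

/-!
# TBV: the planar equal mass three-body problem near the virial locus (MP_47565f_mp)

The definitions of the problem are in `Core.lean`; here are the pointwise relations along a
solution with `U = 2`, and elementary facts.
-/

set_option autoImplicit false

open Finset Filter Topology
open scoped BigOperators ENNReal

namespace Pool.Agent.TBV

/-! ### pointwise data of a solution with `U = 2` -/

/-- scalar product of two vectors of the plane -/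
def dot (z w : ℂ) : ℝ := z.re * w.re + z.im * w.im

/-- twice the second derivative of `|e| ^ 2 / 4`: here `u` is the velocity of the edge `e` and
`G` the sum of the vectors `grav` of the three edges -/
noncomputable def W (e u G : ℂ) : ℝ := ‖u‖ ^ 2 + dot e (G - 3 * grav e)

/-- relations between the three edges `ea, eb, ec` of the triangle and their velocities
`ua, ub, uc` at a time of a solution of energy `-1` with `U = 2` for all times -/
structure PT (ea eb ec ua ub uc : ℂ) : Prop where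
  ha : ea ≠ 0
  hb : eb ≠ 0
  hc : ec ≠ 0
  he : ea + eb + ec = 0
  hu : ua + ub + uc = 0
  hU : 1 / ‖ea‖ + 1 / ‖eb‖ + 1 / ‖ec‖ = 2
  hI1 : dot ea ua + dot eb ub + dot ec uc = 0
  hU1 : dot ea ua / ‖ea‖ ^ 3 + dot eb ub / ‖eb‖ ^ 3 + dot ec uc / ‖ec‖ ^ 3 = 0
  hJ : cr ea ua + cr eb ub + cr ec uc = 0
  hK : ‖ua‖ ^ 2 + ‖ub‖ ^ 2 + ‖uc‖ ^ 2 = 6
  hU2 : W ea ua (grav ea + grav eb + grav ec) / ‖ea‖ ^ 3 +
      W eb ub (grav ea + grav eb + grav ec) / ‖eb‖ ^ 3 +
      W ec uc (grav ea + grav eb + grav ec) / ‖ec‖ ^ 3 =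
    3 * (dot ea ua ^ 2 / ‖ea‖ ^ 5 + dot eb ub ^ 2 / ‖eb‖ ^ 5 + dot ec uc ^ 2 / ‖ec‖ ^ 5)

theorem PT.rot {ea eb ec ua ub uc : ℂ} (h : PT ea eb ec ua ub uc) : PT eb ec ea ub uc ua where
  ha := h.hb
  hb := h.hc
  hc := h.ha
  he := by rw [← h.he]; ring
  hu := by rw [← h.hu]; ring
  hU := by rw [← h.hU]; ring
  hI1 := by rw [← h.hI1]; ring
  hU1 := by rw [← h.hU1]; ring
  hJ := by rw [← h.hJ]; ring
  hK := by rw [← h.hK]; ring
  hU2 := by
    have e : grav eb + grav ec + grav ea = grav ea + grav eb + grav ec := by ring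
    rw [e]
    linarith [h.hU2]

theorem PT.swap {ea eb ec ua ub uc : ℂ} (h : PT ea eb ec ua ub uc) : PT eb ea ec ub ua uc where
  ha := h.hb
  hb := h.ha
  hc := h.hc
  he := by rw [← h.he]; ring
  hu := by rw [← h.hu]; ring
  hU := by rw [← h.hU]; ring
  hI1 := by rw [← h.hI1]; ring
  hU1 := by rw [← h.hU1]; ring
  hJ := by rw [← h.hJ]; ring
  hK := by rw [← h.hK]; ring
  hU2 := by
    have e : grav eb + grav ea + grav ec = grav ea + grav eb + grav ec := by ring
    rw [e]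
    linarith [h.hU2]

/-- the polynomial of the isosceles configurations -/
def Pol (x : ℝ) : ℝ :=
  4 * x ^ 7 + 3 * x ^ 6 + 16 * x ^ 5 + 8 * x ^ 4 + 40 * x ^ 3 + 20 * x ^ 2 + 6 * x - 16

/-! ### elementary facts -/

theorem dot_self (z : ℂ) : dot z z = ‖z‖ ^ 2 := by
  rw [Complex.sq_norm, Complex.normSq_apply]
  rfl

theorem dot_comm (z w : ℂ) : dot z w = dot w z := by
  unfold dot
  ring

theorem norm_sq_eq (z : ℂ) : ‖z‖ ^ 2 = z.re ^ 2 + z.im ^ 2 := by
  rw [Complex.sq_norm, Complex.normSq_apply]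
  ring

/-- `|z|² |w|² = (z·w)² + (z×w)²` -/
theorem dot_sq_add_cr_sq (z w : ℂ) : dot z w ^ 2 + cr z w ^ 2 = ‖z‖ ^ 2 * ‖w‖ ^ 2 := by
  rw [norm_sq_eq, norm_sq_eq]
  unfold dot cr
  ring

theorem abs_dot_le (z w : ℂ) : |dot z w| ≤ ‖z‖ * ‖w‖ := by
  have h := dot_sq_add_cr_sq z w
  have h2 : dot z w ^ 2 ≤ (‖z‖ * ‖w‖) ^ 2 := by nlinarith [sq_nonneg (cr z w)]
  exact abs_le_of_sq_le_sq h2 (by positivity) |> fun h => h

theorem abs_cr_le (z w : ℂ) : |cr z w| ≤ ‖z‖ * ‖w‖ := by
  have h := dot_sq_add_cr_sq z w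
  have h2 : cr z w ^ 2 ≤ (‖z‖ * ‖w‖) ^ 2 := by nlinarith [sq_nonneg (dot z w)]
  exact abs_le_of_sq_le_sq h2 (by positivity)

theorem norm_grav (z : ℂ) : ‖grav z‖ = 1 / ‖z‖ ^ 3 * ‖z‖ := by
  unfold grav
  rw [norm_mul, Complex.norm_real, Real.norm_of_nonneg (by positivity)]

theorem grav_neg (z : ℂ) : grav (-z) = -grav z := by
  unfold grav
  rw [norm_neg]
  ring

theorem dot_grav (z w : ℂ) : dot w (grav z) = dot w z / ‖z‖ ^ 3 := by
  unfold dot grav
  rw [Complex.re_ofReal_mul, Complex.im_ofReal_mul]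
  ring

theorem dot_add_right (z w w' : ℂ) : dot z (w + w') = dot z w + dot z w' := by
  unfold dot
  rw [Complex.add_re, Complex.add_im]
  ring

theorem dot_sub_right (z w w' : ℂ) : dot z (w - w') = dot z w - dot z w' := by
  unfold dot
  rw [Complex.sub_re, Complex.sub_im]
  ring

theorem dot_add_left (z z' w : ℂ) : dot (z + z') w = dot z w + dot z' w := by
  unfold dot
  rw [Complex.add_re, Complex.add_im]
  ring

theorem dot_sub_left (z z' w : ℂ) : dot (z - z') w = dot z w - dot z' w := by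
  unfold dot
  rw [Complex.sub_re, Complex.sub_im]
  ring

theorem hasDerivAt_dot {f g : ℝ → ℂ} {f' g' : ℂ} {t : ℝ} (hf : HasDerivAt f f' t)
    (hg : HasDerivAt g g' t) :
    HasDerivAt (fun s => dot (f s) (g s)) (dot f' (g t) + dot (f t) g') t := by
  have h1 : HasDerivAt (fun s => (f s).re) f'.re t := by
    exact (Complex.reCLM.hasFDerivAt (x := f t)).comp_hasDerivAt t hf
  have h2 : HasDerivAt (fun s => (f s).im) f'.im t := by
    exact (Complex.imCLM.hasFDerivAt (x := f t)).comp_hasDerivAt t hf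
  have h3 : HasDerivAt (fun s => (g s).re) g'.re t := by
    exact (Complex.reCLM.hasFDerivAt (x := g t)).comp_hasDerivAt t hg
  have h4 : HasDerivAt (fun s => (g s).im) g'.im t := by
    exact (Complex.imCLM.hasFDerivAt (x := g t)).comp_hasDerivAt t hg
  have h5 := (h1.mul h3).add (h2.mul h4)
  unfold dot
  refine h5.congr_deriv ?_
  ring

/-- derivative of the norm -/
theorem hasDerivAt_norm' {f : ℝ → ℂ} {f' : ℂ} {t : ℝ} (hf : HasDerivAt f f' t) (h0 : f t ≠ 0) :
    HasDerivAt (fun s => ‖f s‖) (dot (f t) f' / ‖f t‖) t := by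
  have h1 := hasDerivAt_dot hf hf
  have hpos : 0 < ‖f t‖ := norm_pos_iff.2 h0
  have hne : dot (f t) (f t) ≠ 0 := by
    rw [dot_self]
    positivity
  have h2 := h1.sqrt hne
  have e : (fun s => ‖f s‖) = fun s => Real.sqrt (dot (f s) (f s)) := by
    funext s
    rw [dot_self, Real.sqrt_sq (norm_nonneg _)]
  rw [e]
  refine h2.congr_deriv ?_
  rw [dot_self, Real.sqrt_sq (norm_nonneg _), dot_comm f' (f t)]
  field_simp
  ring

theorem acc_zero (q : Fin 3 → ℂ) : acc q 0 = grav (q 1 - q 0) + grav (q 2 - q 0) := by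
  unfold acc
  have : (univ.erase (0 : Fin 3)) = {1, 2} := by decide
  rw [this, Finset.sum_pair (by decide)]

theorem acc_one (q : Fin 3 → ℂ) : acc q 1 = grav (q 0 - q 1) + grav (q 2 - q 1) := by
  unfold acc
  have : (univ.erase (1 : Fin 3)) = {0, 2} := by decide
  rw [this, Finset.sum_pair (by decide)]

theorem acc_two (q : Fin 3 → ℂ) : acc q 2 = grav (q 0 - q 2) + grav (q 1 - q 2) := by
  unfold acc
  have : (univ.erase (2 : Fin 3)) = {0, 1} := by decide
  rw [this, Finset.sum_pair (by decide)]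

end Pool.Agent.TBV
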