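import Pool.Agent.TBV.St

/-!
# TBV, SYM: relabelling and time shift
-/

set_option autoImplicit false

open Finset

namespace Pool.Agent.TBV

/-- a sum over the three bodies is invariant under relabelling -/
private theorem SYM_sum {M : Type*} [AddCommMonoid M] (σ : Equiv.Perm (Fin 3)) (f : Fin 3 → M) :
    f (σ 0) + f (σ 1) + f (σ 2) = f 0 + f 1 + f 2 := by
  have h := Equiv.sum_comp σ f
  rw [Fin.sum_univ_three, Fin.sum_univ_three] at h
  exact h

private theorem SYM_acc (q : Fin 3 → ℂ) (σ : Equiv.Perm (Fin 3)) (i : Fin 3) :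
    acc (fun j => q (σ j)) i = acc q (σ i) := by
  unfold acc
  have h : (univ.erase (σ i)) = (univ.erase i).map σ.toEmbedding := by
    ext j
    simp only [mem_erase, mem_univ, and_true, mem_map, Equiv.coe_toEmbedding]
    constructor
    · intro hj
      refine ⟨σ.symm j, fun h => hj ?_, by simp⟩
      rw [← h]
      simp
    · rintro ⟨k, hk, rfl⟩
      exact fun h => hk (σ.injective h)
  rw [h, sum_map]
  rfl

private theorem SYM_U (q : Fin 3 → ℂ) (σ : Equiv.Perm (Fin 3)) :
    U (fun j => q (σ j)) = U q := by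
  have h : ∀ p : Fin 3 → ℂ, 2 * U p = ∑ i, ∑ j, if i = j then 0 else 1 / ‖p i - p j‖ := by
    intro p
    simp only [Fin.sum_univ_three, ite_true]
    have e1 : ‖p 1 - p 0‖ = ‖p 0 - p 1‖ := norm_sub_rev _ _
    have e2 : ‖p 2 - p 0‖ = ‖p 0 - p 2‖ := norm_sub_rev _ _
    have e3 : ‖p 2 - p 1‖ = ‖p 1 - p 2‖ := norm_sub_rev _ _
    have a1 : (0 : Fin 3) ≠ 1 := by decide
    have a2 : (0 : Fin 3) ≠ 2 := by decide
    have a3 : (1 : Fin 3) ≠ 2 := by decide
    rw [if_neg a1, if_neg a2, if_neg a1.symm, if_neg a3,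
      if_neg a2.symm, if_neg a3.symm, e1, e2, e3]
    unfold U
    ring
  have h1 : 2 * U (fun j => q (σ j)) = 2 * U q := by
    rw [h, h]
    have h2 : ∀ i, (∑ j, if i = j then (0 : ℝ) else 1 / ‖q (σ i) - q (σ j)‖) =
        ∑ j, if σ i = j then (0 : ℝ) else 1 / ‖q (σ i) - q j‖ := by
      intro i
      rw [← Equiv.sum_comp σ (fun j => if σ i = j then (0 : ℝ) else 1 / ‖q (σ i) - q j‖)]
      apply sum_congr rfl
      intro j _
      by_cases hij : i = j
      · rw [if_pos hij, if_pos (by rw [hij])]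
      · rw [if_neg hij, if_neg (fun h => hij (σ.injective h))]
    rw [sum_congr rfl fun i _ => h2 i]
    exact Equiv.sum_comp σ (fun i => ∑ j, if i = j then (0 : ℝ) else 1 / ‖q i - q j‖)
  linarith

theorem thm_PERM : St_PERM := by
  intro E q v σ H
  refine ⟨⟨?_, ?_, ?_, ?_, ?_, ?_⟩, fun t => SYM_U (q t) σ⟩
  · intro t i j hij
    exact H.free t _ _ fun h => hij (σ.injective h)
  · intro t
    rw [SYM_sum σ (q t)]
    exact H.centre t
  · intro t i
    exact H.vel t (σ i)
  · intro t i
    rw [SYM_acc (q t) σ i]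
    exact H.newton t (σ i)
  · intro t
    rw [SYM_sum σ (fun i => ‖v t i‖ ^ 2), SYM_U (q t) σ]
    exact H.energy t
  · intro t
    rw [SYM_sum σ (fun i => cr (q t i) (v t i))]
    exact H.momentum t

theorem thm_SHIFT : St_SHIFT := by
  intro E s q v H
  refine ⟨fun t => H.free (t + s), fun t => H.centre (t + s), ?_, ?_, fun t => H.energy (t + s),
    fun t => H.momentum (t + s)⟩
  · intro t i
    exact (H.vel (t + s) i).comp_add_const t s
  · intro t i
    exact (H.newton (t + s) i).comp_add_const t s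

end Pool.Agent.TBV
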