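import Pool.Agent.TBV.Defs

/-!
# TBV: statements of the modules

Conventions: `r i j = ‖q t i - q t j‖`; for three edges `a = ‖ea‖`, `b = ‖eb‖`, `c = ‖ec‖`.
Theorem: there is `c > 0` such that every solution defined for all times, free of collisions, of
energy `-E` and angular momentum zero leaves the band `|U - 2 E| < 2 c E`.
-/

set_option autoImplicit false

open Finset Filter Topology
open scoped BigOperators ENNReal

namespace Pool.Agent.TBV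

/-! ### module SYM -/

/-- [SYM] relabelling. For `U` and the three sums over the bodies check the six permutations
(`fin_cases σ` is slow; better: every permutation `σ` of `Fin 3` is determined by
`σ 0, σ 1, σ 2`, three distinct values; or write `U q = (∑ i, ∑ j ∈ univ.erase i,
1 / ‖q i - q j‖) / 2` and use `Equiv.sum_comp`). `acc (q ∘ σ) i = acc q (σ i)` by reindexing the
sum over `univ.erase i` with `σ`. -/
def St_PERM : Prop := ∀ (E : ℝ) (q v : ℝ → Fin 3 → ℂ) (σ : Equiv.Perm (Fin 3)), Sol E q v →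
  Sol E (fun t i => q t (σ i)) (fun t i => v t (σ i)) ∧ ∀ t, U (fun i => q t (σ i)) = U (q t)

/-- [SYM] time shift. -/
def St_SHIFT : Prop := ∀ (E s : ℝ) (q v : ℝ → Fin 3 → ℂ), Sol E q v →
  Sol E (fun t => q (t + s)) (fun t => v (t + s))

/-! ### module SCL -/

/-- [SCL] scaling. The derivative of `μ ^ 2 * q (t / μ ^ 3)` is `μ ^ 2 * (1 / μ ^ 3) * v`, that of
`(1 / μ) * v (t / μ ^ 3)` is `(1 / μ) * (1 / μ ^ 3) * acc q`, and `grav (μ ^ 2 * z) =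
(1 / μ ^ 4) * grav z`, `U (μ ^ 2 * q) = U q / μ ^ 2`. -/
def St_SCALE : Prop := ∀ (E μ : ℝ) (q v : ℝ → Fin 3 → ℂ), 0 < μ → Sol E q v →
  Sol (E / μ ^ 2) (fun t i => ((μ ^ 2 : ℝ) : ℂ) * q (t / μ ^ 3) i)
    (fun t i => ((1 / μ : ℝ) : ℂ) * v (t / μ ^ 3) i)

/-- [SCL] `U` of the scaled configuration is `U / μ ^ 2`, so the number under the supremum is
`(1 / μ ^ 2) * (|U (q (t / μ ^ 3)) - 2 E| / 2)`; `ENNReal.ofReal_mul`, `ENNReal.mul_iSup`, and the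
supremum over `t / μ ^ 3` is the supremum over all times (`Equiv` or `Function.Surjective.iSup_comp`). -/
def St_DEVS : Prop := ∀ (E μ : ℝ) (q : ℝ → Fin 3 → ℂ), 0 < μ →
  dev (E / μ ^ 2) (fun t i => ((μ ^ 2 : ℝ) : ℂ) * q (t / μ ^ 3) i) =
    ENNReal.ofReal (1 / μ ^ 2) * dev E q

/-- [SCL] from `St_SCALE`, `St_DEVS` with `μ = √E` (a solution of energy `-E` gives one of energy
`-1`, `dev 1 = ofReal (1 / E) * dev E`) and with `μ = 1 / √E` (back). The scaled solution of a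
periodic one is periodic with period `T * μ ^ 3`. Last claim: scale the given solution of energy
`-1` back. -/
def St_EPS : Prop := ∀ E : ℝ, 0 < E →
  epsAll E = ENNReal.ofReal E * epsAll 1 ∧ epsStar E = ENNReal.ofReal E * epsStar 1 ∧
  ((∃ q v, Sol 1 q v ∧ dev 1 q = epsAll 1) → ∃ q v, Sol E q v ∧ dev E q = epsAll E)

/-! ### module BND -/

/-- [BND] `U ≤ 5 / 2` and all three summands of `U` are positive, so `1 / r i j ≤ 5 / 2`.
`∑ ‖v i‖ ^ 2 = 2 * (U - 1) ≤ 3`. `U ≥ 3 / 2`, so one of the summands is at least `1 / 2`. -/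
def St_BND : Prop := ∀ (q v : ℝ → Fin 3 → ℂ), Sol 1 q v → (∀ t, |U (q t) - 2| ≤ 1 / 2) → ∀ t,
  (∀ i j, i ≠ j → 2 / 5 ≤ ‖q t i - q t j‖) ∧ (∀ i, ‖v t i‖ ≤ 2) ∧
  ‖v t 0‖ ^ 2 + ‖v t 1‖ ^ 2 + ‖v t 2‖ ^ 2 ≤ 3 ∧ (∃ i j, i ≠ j ∧ ‖q t i - q t j‖ ≤ 2)

/-! ### modules CONC, FAR, CLS, ESC: no escape for all times -/

/-- [CONC] a positive function on the whole line is not strictly concave. `g` is strictly
decreasing. If `g t0 < 0` for some `t0` then `ρ t ≤ ρ t0 + g t0 * (t - t0)` for `t ≥ t0`, negative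
for large `t`. Otherwise `g ≥ 0` everywhere; as `g` is strictly decreasing `g (-1) > 0` and
`ρ t ≤ ρ (-1) - g (-1) * (-1 - t)` for `t ≤ -1`, negative for `t` near minus infinity. -/
def St_CONC : Prop := ∀ (ρ g k : ℝ → ℝ), (∀ t, HasDerivAt ρ (g t) t) →
  (∀ t, HasDerivAt g (k t) t) → (∀ t, 0 < ρ t) → (∀ t, k t < 0) → False

/-- [FAR] Let `x = q 1 - q 0`, `x' = v 1 - v 0`, `ρ = ‖q 2‖ ≥ 60`. By `centre`,
`q 0 = - q 2 / 2 - x / 2`, `q 1 = - q 2 / 2 + x / 2` and the same for the velocities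
(`v 0 + v 1 + v 2 = 0`, the derivative of `centre`), so `momentum` says
`(3 / 2) * cr (q 2) (v 2) + (1 / 2) * cr x x' = 0`, hence
`|cr (q 2) (v 2)| ≤ (1 / 3) * ‖x‖ * ‖x'‖ ≤ 2` (`‖x‖ ≤ 2`, `‖x'‖ ≤ ‖v 0‖ + ‖v 1‖`, its square is at
most `2 * 3`; also `St_BND`). `ρ` has derivative `g = dot (q 2) (v 2) / ρ` and `g` has derivative
`k = (‖v 2‖ ^ 2 + dot (q 2) (acc q 2)) / ρ - dot (q 2) (v 2) ^ 2 / ρ ^ 3
 = ((cr (q 2) (v 2) / ρ) ^ 2 + dot (q 2) (acc q 2)) / ρ` (`dot_sq_add_cr_sq`).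
`dot (q 2) (q 0 - q 2) = dot (q 2) (-(3 / 2) q 2 - x / 2) ≤ -(3 / 2) ρ ^ 2 + ρ ≤ - ρ ^ 2`,
`‖q 0 - q 2‖ ≤ (3 / 2) ρ + 1 ≤ (8 / 5) ρ`, so `dot (q 2) (grav (q 0 - q 2)) ≤ -ρ ^ 2 / ((8 / 5) ρ) ^ 3
 = - (125 / 512) / ρ ≤ - (1 / 5) / ρ`, the same for body `1`; so
`k ≤ (4 / ρ ^ 2 - (2 / 5) / ρ) / ρ < 0` as `ρ ≥ 60`. Conclude by `St_CONC`. -/
def St_FAR : Prop := ∀ (q v : ℝ → Fin 3 → ℂ), Sol 1 q v → (∀ t, |U (q t) - 2| ≤ 1 / 2) →
  (∀ t, ‖q t 0 - q t 1‖ ≤ 2) → (∀ t, 60 ≤ ‖q t 2‖) → False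

/-- [CLS] For a body `m` let `i, j` be the other two and `C m = {t : r i j ≤ 2}`. Every `t` is in
some `C m` (`St_BND`). `C m = {t : r i j < 50}`: if `r i j < 50` and another pair has distance `≤ 2`
then all distances are `< 52`, contradiction. So `C m` is open and closed (`isClopen_iff`), hence
empty or everything, and one of them is everything; choose `σ` with `σ 2 = m`. Then
`3 * q m = (q m - q i) + (q m - q j)` (centre of mass), one of the two has norm `> 100` and they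
differ by `q i - q j` of norm `≤ 2`, so `3 * ‖q m‖ ≥ 2 * 100 - 2`. -/
def St_CLS : Prop := ∀ (q v : ℝ → Fin 3 → ℂ), Sol 1 q v → (∀ t, |U (q t) - 2| ≤ 1 / 2) →
  (∀ t, ∃ i j, 100 < ‖q t i - q t j‖) →
  ∃ σ : Equiv.Perm (Fin 3), ∀ t, ‖q t (σ 0) - q t (σ 1)‖ ≤ 2 ∧ 60 ≤ ‖q t (σ 2)‖

/-- [ESC] otherwise `St_CLS`, then `St_PERM` and `St_FAR`. -/
def St_ESC : Prop := ∀ (q v : ℝ → Fin 3 → ℂ), Sol 1 q v → (∀ t, |U (q t) - 2| ≤ 1 / 2) →
  ∃ t, ∀ i j, ‖q t i - q t j‖ ≤ 100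

/-! ### modules LIP, GRO, CPT: compactness -/

/-- [LIP] `grav z - grav w = (z - w) / |z|³ + w (1 / |z|³ - 1 / |w|³)` and
`|1 / |z|³ - 1 / |w|³| ≤ |z - w| (|z|² + |z| |w| + |w|²) / (|z|³ |w|³)`, so the norm is at most
`|z - w| (2 / |z|³ + 1 / (|z|² |w|) + 1 / (|z| |w|²)) ≤ 4 (5 / 2)³ |z - w| = 62.5 |z - w|`. -/
def St_LIP : Prop := ∀ z w : ℂ, 2 / 5 ≤ ‖z‖ → 2 / 5 ≤ ‖w‖ → ‖grav z - grav w‖ ≤ 63 * ‖z - w‖

/-- [GRO] Gronwall. On the set of the pairs `(x, y) : (Fin 3 → ℂ) × (Fin 3 → ℂ)` with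
`2 / 5 ≤ ‖x i - x j‖` for `i ≠ j` the map `(x, y) ↦ (y, acc x)` is Lipschitz with constant `252` (in
the product and sup norms): `acc` is a sum of two `grav` of differences, `2 * 63 * 2 = 252`. For
`t ≥ 0` use `dist_le_of_trajectories_ODE_of_mem`; for `t ≤ 0` apply it to `s ↦ (q (-s), v (-s))`
and the negative of the map. Distances `≥ 2 / 5` by `St_BND`. -/
def St_GRO : Prop := ∀ (q v p w : ℝ → Fin 3 → ℂ), Sol 1 q v → Sol 1 p w →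
  (∀ t, |U (q t) - 2| ≤ 1 / 2) → (∀ t, |U (p t) - 2| ≤ 1 / 2) →
  ∀ t, dist (q t, v t) (p t, w t) ≤ dist (q 0, v 0) (p 0, w 0) * Real.exp (252 * |t|)

/-- [CPT] The initial data `(q k 0, v k 0)` are in a bounded closed set of a finite dimensional
space (`St_BND`: `‖v k 0 i‖ ≤ 2`), take a convergent subsequence `φ`. By `St_GRO` the sequence
`(q (φ k) t, v (φ k) t)` is Cauchy, uniformly for `t` in a bounded interval; let `(p t, w t)` be the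
limit, the convergence is locally uniform in `t`. All limits have distances `≥ 2 / 5`, `acc` is
Lipschitz there (`St_LIP`), so `acc (q (φ k) t)` tends to `acc (p t)` locally uniformly, and
`hasDerivAt_of_tendstoLocallyUniformlyOn` gives `vel` and `newton`. `U` is continuous at
configurations with distinct bodies; `centre`, `energy`, `momentum` pass to the limit. -/
def St_CPT : Prop := ∀ (R : ℝ) (q v : ℕ → ℝ → Fin 3 → ℂ), (∀ k, Sol 1 (q k) (v k)) →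
  (∀ k t, |U (q k t) - 2| ≤ 1 / 2) → (∀ k i, ‖q k 0 i‖ ≤ R) →
  ∃ (φ : ℕ → ℕ) (p w : ℝ → Fin 3 → ℂ), StrictMono φ ∧ Sol 1 p w ∧
    (∀ t, Tendsto (fun k => q (φ k) t) atTop (𝓝 (p t))) ∧
    (∀ t, Tendsto (fun k => U (q (φ k) t)) atTop (𝓝 (U (p t))))

/-- [ATT] minimising sequence: solutions `q k` with `dev 1 (q k) < 1 / 4` and
`dev 1 (q k) ≤ epsAll 1 + 1 / (k + 1)`. Then `|U - 2| ≤ 1 / 2` for all times. `St_ESC` gives times
`t k` with all distances `≤ 100`, so `‖q i‖ ≤ 100` there (`3 * q i` is the sum of the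
differences with the other two bodies); shift by `t k` (`St_SHIFT`), apply `St_CPT`. For every `t`
the limit satisfies `ofReal (|U (p t) - 2| / 2) ≤ epsAll 1` (limit of numbers which are at most
`epsAll 1 + 1 / (φ k + 1)`). -/
def St_ATT : Prop := epsAll 1 < ENNReal.ofReal (1 / 4) → ∃ q v, Sol 1 q v ∧ dev 1 q = epsAll 1

/-! ### modules IC, PTD: solutions with `U = 2` -/

/-- [IC] Let `I = ∑ ‖q i‖ ^ 2`, `D = ∑ dot (q i) (v i)`. `I' = 2 D` and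
`D' = ∑ ‖v i‖ ^ 2 + ∑ dot (q i) (acc q i) = 2 (U - 1) - U = 0` (the second sum is `- U`:
`dot (q i) (grav (q j - q i)) + dot (q j) (grav (q i - q j)) = - 1 / ‖q i - q j‖`). So `D` is a
constant `D0` and `I t = I 0 + 2 D0 t` for all `t`; as `I ≥ 0` everywhere, `D0 = 0`. -/
def St_IC : Prop := ∀ (q v : ℝ → Fin 3 → ℂ), Sol 1 q v → (∀ t, U (q t) = 2) →
  ∃ I0 : ℝ, ∀ t, ‖q t 0‖ ^ 2 + ‖q t 1‖ ^ 2 + ‖q t 2‖ ^ 2 = I0

/-- [PTD] `v 0 + v 1 + v 2 = 0` (derivative of `centre`). For bilinear `B` (`dot`, `cr`) the sum over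
the three edges of `B e u` is `3 * ∑ B (q i) (v i) - B (∑ q i) (∑ v i)`. So `hJ` is `momentum`, `hI1`
is the derivative of `St_IC`, `hK` is `3 * ∑ ‖v i‖ ^ 2 = 3 * 2 * (U - 1) = 6`. `hU1` is the derivative of
`U = 2` (the derivative of `1 / ‖e‖` is `- dot e u / ‖e‖ ^ 3`), valid for all times, and `hU2` is the
derivative of `hU1`: the derivative of `u` is `G - 3 * grav e` with `G` the sum of the `grav` of the
three edges (for instance `acc q 1 - acc q 0 = grav (q 2 - q 1) - 2 * grav (q 1 - q 0) +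
grav (q 0 - q 2)` by `acc_zero`, `acc_one`, `grav_neg`), and the derivative of `dot e u / ‖e‖ ^ 3` is
`W e u G / ‖e‖ ^ 3 - 3 * dot e u ^ 2 / ‖e‖ ^ 5`. -/
def St_PTD : Prop := ∀ (q v : ℝ → Fin 3 → ℂ), Sol 1 q v → (∀ t, U (q t) = 2) → ∀ t,
  PT (q t 1 - q t 0) (q t 2 - q t 1) (q t 0 - q t 2) (v t 1 - v t 0) (v t 2 - v t 1)
    (v t 0 - v t 2)

/-! ### modules RIG, COL, DOT, ISO, POL: algebra at one time -/

/-- [RIG] Suppose `S = cr ea eb ≠ 0`. As `dot ea ua = 0` we have `ua = ωa * (I * ea)` with the real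
number `ωa = cr ea ua / a ^ 2`, the same for `b` and `c`. From `hu` and `he`,
`(ωa - ωc) ea + (ωb - ωc) eb = 0`; cross product with `ea` and `eb` gives `ωa = ωb = ωc`. Then `hJ` is
`ωa (a ^ 2 + b ^ 2 + c ^ 2) = 0`, so all velocities vanish, contradicting `hK`. -/
def St_RIG : Prop := ∀ ea eb ec ua ub uc : ℂ, PT ea eb ec ua ub uc → dot ea ua = 0 →
  dot eb ub = 0 → dot ec uc = 0 → cr ea eb = 0

/-- [COL] Let `n = ea / a`. By strict convexity `eb = b n`, `ec = -(a + b) n`, `c = a + b`. As the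
velocities are orthogonal to the edges: `ua = α I n`, `ub = β I n`, `uc = -(α + β) I n` with real `α, β`.
`hJ`: `a α + b β + c (α + β) = 0`, `hK`: `α ^ 2 + β ^ 2 + (α + β) ^ 2 = 6`; so with a real `k`:
`α = -k (a + 2 b)`, `β = k (2 a + b)`, `α + β = k (a - b)`, `k ^ 2 (a ^ 2 + a b + b ^ 2) = 1`.
With `G = (1 / a ^ 2 + 1 / b ^ 2 - 1 / c ^ 2) n`: `W ea ua G = α ^ 2 + a (1 / b ^ 2 - 1 / c ^ 2) - 2 / a`,
`W eb ub G = β ^ 2 + b (1 / a ^ 2 - 1 / c ^ 2) - 2 / b`,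
`W ec uc G = (α + β) ^ 2 - c (1 / a ^ 2 + 1 / b ^ 2) - 2 / c`, and `hU2` (right side zero) becomes
`α ^ 2 / a ^ 3 + β ^ 2 / b ^ 3 + (α + β) ^ 2 / c ^ 3 + 2 / (a b) ^ 2 - 2 / (a c) ^ 2 - 2 / (b c) ^ 2
 - 2 / a ^ 4 - 2 / b ^ 4 - 2 / c ^ 4 = 0`. Multiply by `2 a ^ 4 b ^ 4 c ^ 4 (a ^ 2 + a b + b ^ 2)` and use
`2 = 1 / a + 1 / b + 1 / c` (`hU`) in the first three terms:
`(b c + a c + a b) ((a + 2 b) ^ 2 b ^ 3 c ^ 3 + (2 a + b) ^ 2 a ^ 3 c ^ 3 + (a - b) ^ 2 a ^ 3 b ^ 3)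
 + 4 (a ^ 2 + a b + b ^ 2) (a ^ 2 b ^ 2 c ^ 4 - a ^ 2 b ^ 4 c ^ 2 - a ^ 4 b ^ 2 c ^ 2 - b ^ 4 c ^ 4
 - a ^ 4 c ^ 4 - a ^ 4 b ^ 4) = 0`, but with `c = a + b` the left side is
`8 a b ^ 9 + 33 a ^ 2 b ^ 8 + 64 a ^ 3 b ^ 7 + 72 a ^ 4 b ^ 6 + 66 a ^ 5 b ^ 5 + 72 a ^ 6 b ^ 4 + 64 a ^ 7 b ^ 3
 + 33 a ^ 8 b ^ 2 + 8 a ^ 9 b > 0`. -/
def St_COL : Prop := ∀ ea eb ec ua ub uc : ℂ, PT ea eb ec ua ub uc → dot ea ua = 0 →
  dot eb ub = 0 → dot ec uc = 0 → ‖ea + eb‖ = ‖ea‖ + ‖eb‖ → False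

/-- [DOT] By `St_RIG` and `dot_sq_add_cr_sq`, `dot ea eb = a b` or `dot ea eb = - a b`. In the first
case `‖ea + eb‖ = a + b`, apply `St_COL`. In the second case `c = |a - b|`; if `b ≤ a` then
`a = b + c = ‖eb + ec‖`, apply `St_COL` to `PT.rot`; if `a ≤ b` then `b = c + a = ‖ec + ea‖`, apply it
to `PT.rot` of `PT.rot`. -/
def St_DOT : Prop := ∀ ea eb ec ua ub uc : ℂ, PT ea eb ec ua ub uc → dot ea ua = 0 →
  dot eb ub = 0 → dot ec uc = 0 → False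

/-- [ISO] Let `n = ea / a`, so `ea = a n`, `eb = (- a / 2 + h I) n`, `ec = (- a / 2 - h I) n` with real
`h`, `4 h ^ 2 = 4 b ^ 2 - a ^ 2 > 0` (`b = c` gives `dot ea eb = - a ^ 2 / 2`). `ua = α I n`,
`ub = (p + r I) n`, `uc = (- p - (α + r) I) n` with real `α, p, r`. `hI1`: `α = -2 r`. `hJ`:
`p = -3 a r / (2 h)`. `hK`: `6 r ^ 2 + 2 p ^ 2 = 6`, so `r ^ 2 = (4 b ^ 2 - a ^ 2) / (4 b ^ 2 + 2 a ^ 2)`,
`p ^ 2 = 9 a ^ 2 / (4 b ^ 2 + 2 a ^ 2)`. `dot eb ub = - a p / 2 + h r = - dot ec uc`, its square is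
`(2 b ^ 2 + a ^ 2) / 2`. `G = a (1 / a ^ 3 - 1 / b ^ 3) n`; the sum over the edges of
`dot e (G - 3 grav e) / ‖e‖ ^ 3` is `‖G‖ ^ 2 - 3 / a ^ 4 - 6 / b ^ 4`. So `hU2` is
`(8 b ^ 2 - 2 a ^ 2) / ((2 b ^ 2 + a ^ 2) a ^ 3) + 2 (2 b ^ 2 + 4 a ^ 2) / ((2 b ^ 2 + a ^ 2) b ^ 3)
 + a ^ 2 (1 / a ^ 3 - 1 / b ^ 3) ^ 2 - 3 / a ^ 4 - 6 / b ^ 4 = 3 (2 b ^ 2 + a ^ 2) / b ^ 5`.
With `x = a / b` and `b = (1 + 2 x) / (2 x)` (from `hU`) the difference right side minus left side is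
`x Pol x / (b ^ 4 x ^ 3 (2 + x ^ 2) 2 x)` (checked numerically). -/
def St_ISO : Prop := ∀ ea eb ec ua ub uc : ℂ, PT ea eb ec ua ub uc → dot ea ua = 0 →
  ‖eb‖ = ‖ec‖ → ‖ea‖ < 2 * ‖eb‖ → Pol (‖ea‖ / ‖eb‖) = 0

/-- [POL] all coefficients but the last are positive and their sum is `97`. -/
def St_POL1 : Prop := ∀ x : ℝ, 1 ≤ x → 0 < Pol x

/-- [POL] `Pol` is increasing on `x ≥ 0` and `Pol (13 / 25) < 0`, so `13 / 25 < x < 1`, and there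
`75 x ^ 2 - 2 (2 + x ^ 2) (2 x + 1) ^ 2 = 57 x ^ 2 - 8 x ^ 4 - 8 x ^ 3 - 16 x - 4 > 0` (value `1.38` at
`13 / 25`, increasing). -/
def St_POL2 : Prop := ∀ x : ℝ, 0 < x → x < 1 → Pol x = 0 →
  2 * (2 + x ^ 2) * (2 * x + 1) ^ 2 < 75 * x ^ 2

/-! ### modules EQU, MIN, MAX -/

/-- [EQU] Suppose the three distances are equal at some time `s`. By `hU` they are `3 / 2`. The sum
of the squares of the distances is `3 * ∑ ‖q i‖ ^ 2` (centre of mass), constant by `St_IC`, so equal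
to `27 / 4` for all times, and the sum of the inverse distances is `2`. As
`r ^ 2 + (27 / 4) / r ≥ 27 / 4` for `r > 0` with equality only at `r = 3 / 2` (difference
`(r - 3 / 2) ^ 2 (r + 3) / r`) and the sum over the three distances is `27 / 4 + 27 / 2 = 3 * (27 / 4)`,
all distances are `3 / 2` at all times. So `‖q 1 - q 0‖ ^ 2` is constant, its derivative
`2 * dot ea ua` vanishes, the same for the other edges: contradiction to `St_DOT` (with `St_PTD`). -/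
def St_EQU : Prop := ∀ (q v : ℝ → Fin 3 → ℂ), Sol 1 q v → (∀ t, U (q t) = 2) → ∀ t,
  ¬ (‖q t 1 - q t 0‖ = ‖q t 2 - q t 1‖ ∧ ‖q t 2 - q t 1‖ = ‖q t 0 - q t 2‖)

/-- [MIN] By `hI1`, `hU1` and `dot ea ua = 0`: `dot eb ub = - dot ec uc` and
`dot eb ub * (1 / b ^ 3 - 1 / c ^ 3) = 0`. If `b ≠ c` all three are zero, contradiction to `St_DOT`. So
`b = c`, `a < b` and `St_ISO` gives `Pol x = 0` for `x = a / b < 1`. `hU` gives `b = (1 + 2 x) / (2 x)`, so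
`8 (a ^ 2 + 2 b ^ 2) = 8 b ^ 2 (2 + x ^ 2) = 2 (1 + 2 x) ^ 2 (2 + x ^ 2) / x ^ 2 < 75` by `St_POL2`. -/
def St_MIN : Prop := ∀ ea eb ec ua ub uc : ℂ, PT ea eb ec ua ub uc → dot ea ua = 0 →
  ‖ea‖ ≤ ‖eb‖ → ‖ea‖ ≤ ‖ec‖ → ¬ (‖ea‖ = ‖eb‖ ∧ ‖eb‖ = ‖ec‖) →
  8 * (‖ea‖ ^ 2 + ‖eb‖ ^ 2 + ‖ec‖ ^ 2) < 75

/-- [MAX] As in `St_MIN`, `b = c`, now `b < a`. `a ≤ b + c = 2 b` by `he`. If `a = 2 b` then `hU` gives
`b = 5 / 4` and the sum is `8 * 6 * 25 / 16 = 75`, contradiction. So `a < 2 b`, `St_ISO` gives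
`Pol (a / b) = 0` with `a / b > 1`, contradiction to `St_POL1`. -/
def St_MAX : Prop := ∀ ea eb ec ua ub uc : ℂ, PT ea eb ec ua ub uc → dot ea ua = 0 →
  ‖eb‖ ≤ ‖ea‖ → ‖ec‖ ≤ ‖ea‖ → ¬ (‖ea‖ = ‖eb‖ ∧ ‖eb‖ = ‖ec‖) →
  8 * (‖ea‖ ^ 2 + ‖eb‖ ^ 2 + ‖ec‖ ^ 2) < 75 → False

/-! ### modules EXT, NOS -/

/-- solutions of energy `-1` with `U = 2` and moment of inertia `I0` for all times -/
def Cls (I0 : ℝ) (q v : ℝ → Fin 3 → ℂ) : Prop :=
  Sol 1 q v ∧ (∀ t, U (q t) = 2) ∧ ∀ t, ‖q t 0‖ ^ 2 + ‖q t 1‖ ^ 2 + ‖q t 2‖ ^ 2 = I0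

/-- [EXT] Let `m` be the infimum of all distances `‖q t i - q t j‖`, `i ≠ j`, over all times and all
`(q, v)` with `Cls I0 q v`. Take a sequence with distances tending to `m`; relabel (`St_PERM`) and
shift the time (`St_SHIFT`) so that the distance is `‖q k 0 1 - q k 0 0‖` at time `0` (the class is
invariant). `‖q k 0 i‖ ≤ √I0`. The limit of `St_CPT` is in the class and has distance `m` at time `0`. -/
def St_EXmin : Prop := ∀ I0 : ℝ, (∃ q v, Cls I0 q v) → ∃ q v, Cls I0 q v ∧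
  ∀ t i j, i ≠ j → ‖q 0 1 - q 0 0‖ ≤ ‖q t i - q t j‖

/-- [EXT] same with the supremum (all distances are at most `2 √I0`). -/
def St_EXmax : Prop := ∀ I0 : ℝ, (∃ q v, Cls I0 q v) → ∃ q v, Cls I0 q v ∧
  ∀ t i j, i ≠ j → ‖q t i - q t j‖ ≤ ‖q 0 1 - q 0 0‖

/-- [NOS] `St_IC` gives `I0`. Take `(q, v)` from `St_EXmin`: the function `t ↦ ‖q t 1 - q t 0‖ ^ 2` has
a minimum at `0`, so its derivative `2 * dot ea ua` vanishes at `0`. `St_PTD` and `St_EQU` at time `0`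
and `St_MIN` give `8 * 3 * I0 < 75` (the sum of the squares of the distances is `3 I0`). Then
`(q, v)` from `St_EXmax` contradicts `St_MAX`. -/
def St_NOS : Prop := ∀ (q v : ℝ → Fin 3 → ℂ), Sol 1 q v → (∀ t, U (q t) = 2) → False

/-- [NOS] If `epsAll 1 < 1 / 4` then `St_ATT` gives a solution with `dev 1 q = epsAll 1`; if this is
zero then `U = 2` for all times, contradiction to `St_NOS`. -/
def St_POS : Prop := 0 < epsAll 1

end Pool.Agent.TBV
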